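import Mathlib

set_option autoImplicit false

/-!
# A law of large numbers for weakly dependent bounded variables
-/

open Finset Filter Topology MeasureTheory ProbabilityTheory

namespace Pool.Agent.K9h18.AP

variable {Ω : Type*} [MeasurableSpace Ω] {μ : Measure Ω} [IsProbabilityMeasure μ]

/-- the test functions -/
noncomputable def tf (X : ℕ → Ω → ℝ) (ε : ℝ) (B : Finset ℕ) (x : Ω) : ℝ :=
  ∏ m ∈ B, Real.exp (ε / 4 * (X m x - 2 * ε))

section

variable {X : ℕ → Ω → ℝ} (hm : ∀ m, Measurable (X m)) (hb : ∀ m x, |X m x| ≤ 1) {R : ℕ}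
  (hR : 1 ≤ R) {ε : ℝ} (hε : 0 < ε) (hε1 : ε ≤ 1 / 2) {m0 : ℕ}
  (h0 : ∀ m ≥ m0, ∀ B : Finset ℕ, (∀ m' ∈ B, m' + R ≤ m) →
    |∫ x, tf X ε B x * X m x ∂μ| ≤ ε * ∫ x, tf X ε B x ∂μ)

lemma tf_pos (B : Finset ℕ) (x : Ω) : 0 < tf X ε B x := Finset.prod_pos fun m _ => Real.exp_pos _

lemma tf_exp (B : Finset ℕ) (x : Ω) :
    tf X ε B x = Real.exp (ε / 4 * ∑ m ∈ B, (X m x - 2 * ε)) := by
  unfold tf
  rw [Finset.mul_sum, Real.exp_sum]

include hm in
lemma tf_meas (B : Finset ℕ) : Measurable (tf X ε B) :=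
  Finset.measurable_fun_prod _ fun m _ => Real.measurable_exp.comp (((hm m).sub_const _).const_mul _)

include hb hε hε1 in
lemma tf_bd (B : Finset ℕ) (x : Ω) :
    Real.exp (-(B.card : ℝ)) ≤ tf X ε B x ∧ tf X ε B x ≤ Real.exp B.card := by
  have h1 : ∀ m, |ε / 4 * (X m x - 2 * ε)| ≤ 1 := by
    intro m
    have h2 := abs_le.1 (hb m x)
    rw [abs_mul, abs_of_pos (by positivity)]
    have h3 : |X m x - 2 * ε| ≤ 2 := by rw [abs_le]; constructor <;> linarith
    nlinarith [abs_nonneg (X m x - 2 * ε)]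
  have h2 : |ε / 4 * ∑ m ∈ B, (X m x - 2 * ε)| ≤ B.card := by
    rw [Finset.mul_sum]
    refine (Finset.abs_sum_le_sum_abs _ _).trans ?_
    refine (Finset.sum_le_sum fun m _ => h1 m).trans ?_
    simp
  rw [tf_exp]
  have h3 := abs_le.1 h2
  exact ⟨Real.exp_le_exp.2 h3.1, Real.exp_le_exp.2 h3.2⟩

include hm hb hR hε hε1 h0

/-- the exponential moment of a residue class -/
lemma exp_classG (r M : ℕ) :
    ∫ x, tf X ε ((range M).filter (fun m => m % R = r ∧ m0 ≤ m)) x ∂μ ≤ 1 := by
  induction M with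
  | zero => simp [tf]
  | succ M ih =>
    by_cases hM : M % R = r ∧ m0 ≤ M
    · have h1 : (range (M + 1)).filter (fun m => m % R = r ∧ m0 ≤ m) =
          insert M ((range M).filter (fun m => m % R = r ∧ m0 ≤ m)) := by
        rw [Finset.range_add_one, Finset.filter_insert, if_pos hM]
      have h2 : M ∉ (range M).filter (fun m => m % R = r ∧ m0 ≤ m) := by simp
      rw [h1]
      set B := (range M).filter (fun m => m % R = r ∧ m0 ≤ m) with hB
      have hBR : ∀ m' ∈ B, m' + R ≤ M := by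
        intro m hmB
        rw [hB, mem_filter, mem_range] at hmB
        obtain ⟨h3, h4, h5⟩ := hmB
        have h6 : m ≡ M [MOD R] := by rw [Nat.ModEq, h4, hM.1]
        obtain ⟨c, hc⟩ := (Nat.modEq_iff_dvd' h3.le).1 h6
        rcases Nat.eq_zero_or_pos c with h7 | h7
        · rw [h7] at hc; omega
        · have : R * 1 ≤ R * c := Nat.mul_le_mul_left _ h7
          omega
      have hφi : Integrable (tf X ε B) μ :=
        Integrable.of_bound (tf_meas hm B).aestronglyMeasurable (Real.exp B.card)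
          (Eventually.of_forall fun x => by
            rw [Real.norm_of_nonneg (tf_pos B x).le]
            exact (tf_bd hb hε hε1 B x).2)
      have hφX : Integrable (fun x => tf X ε B x * X M x) μ :=
        Integrable.of_bound ((tf_meas hm B).mul (hm M)).aestronglyMeasurable (Real.exp B.card)
          (Eventually.of_forall fun x => by
            rw [Real.norm_eq_abs, abs_mul, abs_of_pos (tf_pos B x)]
            calc tf X ε B x * |X M x| ≤ Real.exp B.card * 1 :=
                  mul_le_mul (tf_bd hb hε hε1 B x).2 (hb M x) (abs_nonneg _) (Real.exp_pos _).le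
              _ = _ := mul_one _)
      have hpt : ∀ x, tf X ε (insert M B) x ≤
          (1 - ε ^ 2 / 4) * tf X ε B x + ε / 4 * (tf X ε B x * X M x) := by
        intro x
        have e1 : tf X ε (insert M B) x = tf X ε B x * Real.exp (ε / 4 * (X M x - 2 * ε)) := by
          unfold tf
          rw [Finset.prod_insert h2, mul_comm]
        rw [e1]
        have hφ0 := tf_pos (X := X) (ε := ε) B x
        have h3 := abs_le.1 (hb M x)
        set Y := X M x - 2 * ε with hY
        have hY2 : |Y| ≤ 2 := by rw [abs_le]; constructor <;> linarith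
        have hz : |ε / 4 * Y| ≤ 1 := by
          rw [abs_mul, abs_of_pos (by positivity : 0 < ε / 4)]
          nlinarith [abs_nonneg Y]
        have h4 : Real.exp (ε / 4 * Y) ≤ 1 + ε / 4 * Y + (ε / 4 * Y) ^ 2 := by
          have h5 := Real.abs_exp_sub_one_sub_id_le hz
          have h6 := (abs_le.1 h5).2
          linarith
        have h7 : (ε / 4 * Y) ^ 2 ≤ ε ^ 2 / 4 := by
          have h8 : Y ^ 2 ≤ 4 := by nlinarith [abs_le.1 hY2]
          have : (ε / 4 * Y) ^ 2 = ε ^ 2 / 16 * Y ^ 2 := by ring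
          rw [this]
          nlinarith [sq_nonneg ε]
        have h9 : Real.exp (ε / 4 * Y) ≤ 1 - ε ^ 2 / 4 + ε / 4 * X M x := by
          rw [hY] at h4 h7 ⊢
          linarith
        calc tf X ε B x * Real.exp (ε / 4 * Y) ≤ tf X ε B x * (1 - ε ^ 2 / 4 + ε / 4 * X M x) :=
              mul_le_mul_of_nonneg_left h9 hφ0.le
          _ = _ := by ring
      have i2 : Integrable (fun x => (1 - ε ^ 2 / 4) * tf X ε B x + ε / 4 * (tf X ε B x * X M x)) μ :=
        (hφi.const_mul _).add (hφX.const_mul _)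
      refine (integral_mono_of_nonneg (Eventually.of_forall fun x => (tf_pos _ x).le) i2
        (Eventually.of_forall hpt)).trans ?_
      rw [integral_add (hφi.const_mul _) (hφX.const_mul _), integral_const_mul, integral_const_mul]
      have h3 := (abs_le.1 (h0 M hM.2 B hBR)).2
      have h4 : ε / 4 * ∫ x, tf X ε B x * X M x ∂μ ≤ ε / 4 * (ε * ∫ x, tf X ε B x ∂μ) :=
        mul_le_mul_of_nonneg_left h3 (by positivity)
      calc (1 - ε ^ 2 / 4) * ∫ x, tf X ε B x ∂μ + ε / 4 * ∫ x, tf X ε B x * X M x ∂μ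
          ≤ (1 - ε ^ 2 / 4) * ∫ x, tf X ε B x ∂μ + ε / 4 * (ε * ∫ x, tf X ε B x ∂μ) := by linarith
        _ = ∫ x, tf X ε B x ∂μ := by ring
        _ ≤ 1 := ih
    · have h1 : (range (M + 1)).filter (fun m => m % R = r ∧ m0 ≤ m) =
          (range M).filter (fun m => m % R = r ∧ m0 ≤ m) := by
        rw [Finset.range_add_one, Finset.filter_insert, if_neg hM]
      rw [h1]
      exact ih

lemma class_leG : ∀ᵐ x ∂μ, ∀ᶠ M : ℕ in atTop,
    ∀ r < R, ∑ m ∈ (range M).filter (fun m => m % R = r ∧ m0 ≤ m), (X m x - 2 * ε) < ε * M := by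
  have h1 : ∀ r : ℕ, ∀ᵐ x ∂μ, ∀ᶠ M : ℕ in atTop,
      ∑ m ∈ (range M).filter (fun m => m % R = r ∧ m0 ≤ m), (X m x - 2 * ε) < ε * M := by
    intro r
    set Y : ℕ → Ω → ℝ := fun M x => ∑ m ∈ (range M).filter (fun m => m % R = r ∧ m0 ≤ m),
      (X m x - 2 * ε) with hY
    have hYm : ∀ M, Measurable (Y M) := fun M =>
      Finset.measurable_fun_sum _ fun m _ => (hm m).sub_const _
    have hYb : ∀ M x, |Y M x| ≤ 2 * M := by
      intro M x
      refine (Finset.abs_sum_le_sum_abs _ _).trans ?_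
      have h2 : ∀ m ∈ (range M).filter (fun m => m % R = r ∧ m0 ≤ m), |X m x - 2 * ε| ≤ 2 := by
        intro m _
        have h3 := abs_le.1 (hb m x)
        rw [abs_le]
        constructor <;> linarith
      refine (Finset.sum_le_sum h2).trans ?_
      rw [Finset.sum_const, nsmul_eq_mul, mul_comm]
      have h3 : ((range M).filter (fun m => m % R = r ∧ m0 ≤ m)).card ≤ M := by
        have := Finset.card_filter_le (range M) (fun m => m % R = r ∧ m0 ≤ m)
        rwa [Finset.card_range] at this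
      have h4 : (((range M).filter (fun m => m % R = r ∧ m0 ≤ m)).card : ℝ) ≤ M := by
        exact_mod_cast h3
      linarith
    have hP : ∀ M : ℕ, μ {x | ε * M ≤ Y M x} ≤ ENNReal.ofReal (Real.exp (-(ε ^ 2 / 4)) ^ M) := by
      intro M
      have hint : Integrable (fun x => Real.exp (ε / 4 * Y M x)) μ := by
        refine Integrable.of_bound (C := Real.exp (ε / 4 * (2 * M)))
          (Real.measurable_exp.comp ((hYm M).const_mul _)).aestronglyMeasurable
          (Eventually.of_forall fun x => ?_)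
        rw [Real.norm_of_nonneg (Real.exp_pos _).le]
        apply Real.exp_le_exp.2
        exact mul_le_mul_of_nonneg_left ((le_abs_self _).trans (hYb M x)) (by positivity)
      have h2 := measure_ge_le_exp_mul_mgf (X := Y M) (μ := μ) (ε * M) (show 0 ≤ ε / 4 by positivity)
        hint
      have h3 : mgf (Y M) μ (ε / 4) ≤ 1 := by
        have h4 := exp_classG hm hb hR hε hε1 h0 r M
        have h5 : mgf (Y M) μ (ε / 4) =
            ∫ x, tf X ε ((range M).filter (fun m => m % R = r ∧ m0 ≤ m)) x ∂μ := by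
          unfold mgf
          congr 1
          ext x
          rw [tf_exp]
        rw [h5]
        exact h4
      have h4 : μ.real {x | ε * M ≤ Y M x} ≤ Real.exp (-(ε ^ 2 / 4)) ^ M := by
        refine h2.trans ?_
        calc Real.exp (-(ε / 4) * (ε * M)) * mgf (Y M) μ (ε / 4) ≤
              Real.exp (-(ε / 4) * (ε * M)) * 1 :=
              mul_le_mul_of_nonneg_left h3 (Real.exp_pos _).le
          _ = Real.exp (-(ε ^ 2 / 4)) ^ M := by
              rw [mul_one, ← Real.exp_nat_mul]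
              congr 1
              ring
      rw [← ofReal_measureReal]
      exact ENNReal.ofReal_le_ofReal h4
    have hsum : ∑' M : ℕ, μ {x | ε * M ≤ Y M x} ≠ ⊤ := by
      refine ne_top_of_le_ne_top ?_ (ENNReal.tsum_le_tsum hP)
      refine (summable_geometric_of_lt_one (Real.exp_pos _).le ?_).tsum_ofReal_ne_top
      rw [Real.exp_lt_one_iff]
      have : 0 < ε ^ 2 := by positivity
      linarith
    have h5 := measure_setOfPred_frequently_eq_zero (μ := μ) (p := fun M x => ε * (M : ℝ) ≤ Y M x) hsum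
    rw [ae_iff]
    refine le_antisymm ((measure_mono ?_).trans h5.le) bot_le
    intro x hx
    simp only [Set.mem_ofPred_eq, not_eventually, not_lt] at hx ⊢
    exact hx
  have h2 : ∀ᵐ x ∂μ, ∀ r : ℕ, ∀ᶠ M : ℕ in atTop,
      ∑ m ∈ (range M).filter (fun m => m % R = r ∧ m0 ≤ m), (X m x - 2 * ε) < ε * M :=
    ae_all_iff.2 h1
  filter_upwards [h2] with x hx
  have h3 : ∀ᶠ M : ℕ in atTop, ∀ r ∈ Finset.range R,
      ∑ m ∈ (range M).filter (fun m => m % R = r ∧ m0 ≤ m), (X m x - 2 * ε) < ε * M :=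
    (Filter.eventually_all_finset _).2 fun r _ => hx r
  filter_upwards [h3] with M hM r hr
  exact hM r (Finset.mem_range.2 hr)

lemma upperG : ∀ᵐ x ∂μ, ∀ᶠ M : ℕ in atTop, ∑ m ∈ range M, X m x ≤ (R + 3) * ε * M := by
  filter_upwards [class_leG hm hb hR hε hε1 h0] with x hx
  have h1 : ∀ᶠ M : ℕ in atTop, (m0 : ℝ) / ε ≤ M :=
    tendsto_natCast_atTop_atTop.eventually_ge_atTop _
  filter_upwards [hx, h1] with M hM hM1
  rw [div_le_iff₀ hε] at hM1
  have h2 : ∑ m ∈ range M, X m x ≤ m0 + ∑ m ∈ (range M).filter (fun m => m0 ≤ m), X m x := by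
    rw [← Finset.sum_filter_add_sum_filter_not (range M) (fun m => m0 ≤ m), add_comm]
    gcongr
    have h3 : ∀ m ∈ (range M).filter (fun m => ¬ m0 ≤ m), X m x ≤ 1 := fun m _ =>
      (le_abs_self _).trans (hb m x)
    refine (Finset.sum_le_sum h3).trans ?_
    rw [Finset.sum_const, nsmul_eq_mul, mul_one]
    have h4 : ((range M).filter (fun m => ¬ m0 ≤ m)).card ≤ (range m0).card :=
      Finset.card_le_card fun m hm' => by
        rw [mem_filter] at hm'
        rw [mem_range]
        omega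
    rw [Finset.card_range] at h4
    exact_mod_cast h4
  have h3 : ∑ m ∈ (range M).filter (fun m => m0 ≤ m), X m x =
      ∑ r ∈ range R, ∑ m ∈ (range M).filter (fun m => m % R = r ∧ m0 ≤ m), X m x := by
    have h4 : ∀ m ∈ (range M).filter (fun m => m0 ≤ m), m % R ∈ range R := fun m _ =>
      Finset.mem_range.2 (Nat.mod_lt _ (by omega))
    rw [← Finset.sum_fiberwise_of_maps_to h4]
    refine Finset.sum_congr rfl fun r _ => ?_
    rw [Finset.filter_filter]
    refine Finset.sum_congr ?_ fun _ _ => rfl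
    ext m
    simp only [mem_filter]
    tauto
  have h4 : ∑ r ∈ range R, ∑ m ∈ (range M).filter (fun m => m % R = r ∧ m0 ≤ m), X m x ≤
      ∑ r ∈ range R, (ε * M + 2 * ε * ((range M).filter (fun m => m % R = r ∧ m0 ≤ m)).card) := by
    refine Finset.sum_le_sum fun r hr => ?_
    have h5 := hM r (Finset.mem_range.1 hr)
    rw [Finset.sum_sub_distrib, Finset.sum_const, nsmul_eq_mul] at h5
    linarith
  have h5 : ∑ r ∈ range R, (((range M).filter (fun m => m % R = r ∧ m0 ≤ m)).card : ℝ) ≤ M := by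
    have h6 : ∑ r ∈ range R, ((range M).filter (fun m => m % R = r ∧ m0 ≤ m)).card =
        ((range M).filter (fun m => m0 ≤ m)).card := by
      have h4 : ∀ m ∈ (range M).filter (fun m => m0 ≤ m), m % R ∈ range R := fun m _ =>
        Finset.mem_range.2 (Nat.mod_lt _ (by omega))
      rw [Finset.card_eq_sum_card_fiberwise h4]
      refine Finset.sum_congr rfl fun r _ => ?_
      rw [Finset.filter_filter]
      congr 1
      ext m
      simp only [mem_filter]
      tauto
    have h7 : ((range M).filter (fun m => m0 ≤ m)).card ≤ M := by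
      have := Finset.card_filter_le (range M) (fun m => m0 ≤ m)
      rwa [Finset.card_range] at this
    rw [← Nat.cast_sum, h6]
    exact_mod_cast h7
  rw [Finset.sum_add_distrib, Finset.sum_const, Finset.card_range, nsmul_eq_mul,
    ← Finset.mul_sum] at h4
  have h6 : 2 * ε * ∑ r ∈ range R, (((range M).filter (fun m => m % R = r ∧ m0 ≤ m)).card : ℝ) ≤
      2 * ε * M := mul_le_mul_of_nonneg_left h5 (by positivity)
  rw [h3] at h2
  linarith

end

/-- **The law of large numbers.** -/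
theorem llnG {X : ℕ → Ω → ℝ} (hm : ∀ m, Measurable (X m)) (hb : ∀ m x, |X m x| ≤ 1)
    {R : ℕ} (hR : 1 ≤ R)
    (hcond : ∀ ε : ℝ, 0 < ε → ε ≤ 1 / 2 → ∃ m0 : ℕ, ∀ m ≥ m0, ∀ B : Finset ℕ,
      (∀ m' ∈ B, m' + R ≤ m) →
      |∫ x, tf X ε B x * X m x ∂μ| ≤ ε * ∫ x, tf X ε B x ∂μ ∧
      |∫ x, tf (fun m x => - X m x) ε B x * X m x ∂μ| ≤ ε * ∫ x, tf (fun m x => - X m x) ε B x ∂μ) :
    ∀ᵐ x ∂μ, Tendsto (fun M : ℕ => (∑ m ∈ range M, X m x) / M) atTop (𝓝 0) := by
  have hε : ∀ n : ℕ, (0 : ℝ) < 1 / ((n : ℝ) + 2) := fun n => by positivity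
  have hε1 : ∀ n : ℕ, 1 / ((n : ℝ) + 2) ≤ 1 / 2 := fun n => by
    apply one_div_le_one_div_of_le (by norm_num)
    have : (0 : ℝ) ≤ n := by positivity
    linarith
  have hup : ∀ n : ℕ, ∀ᵐ x ∂μ, ∀ᶠ M : ℕ in atTop, ∑ m ∈ range M, X m x ≤
      (R + 3) * (1 / ((n : ℝ) + 2)) * M := by
    intro n
    obtain ⟨m0, h0⟩ := hcond _ (hε n) (hε1 n)
    exact upperG hm hb hR (hε n) (hε1 n) fun m hm' B hB => (h0 m hm' B hB).1
  have hlo : ∀ n : ℕ, ∀ᵐ x ∂μ, ∀ᶠ M : ℕ in atTop, ∑ m ∈ range M, - X m x ≤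
      (R + 3) * (1 / ((n : ℝ) + 2)) * M := by
    intro n
    obtain ⟨m0, h0⟩ := hcond _ (hε n) (hε1 n)
    refine upperG (X := fun m x => - X m x) (fun m => (hm m).neg)
      (fun m x => by rw [abs_neg]; exact hb m x) hR (hε n) (hε1 n) (m0 := m0) fun m hm' B hB => ?_
    have h1 := (h0 m hm' B hB).2
    have h2 : ∫ x, tf (fun m x => - X m x) (1 / ((n : ℝ) + 2)) B x * - X m x ∂μ =
        - ∫ x, tf (fun m x => - X m x) (1 / ((n : ℝ) + 2)) B x * X m x ∂μ := by
      rw [← integral_neg]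
      congr 1
      ext x
      ring
    rw [h2, abs_neg]
    exact h1
  filter_upwards [ae_all_iff.2 hup, ae_all_iff.2 hlo] with x h1 h2
  rw [Metric.tendsto_atTop]
  intro ε hε
  obtain ⟨n, hn⟩ := exists_nat_gt (((R : ℝ) + 3) / ε)
  have hn' : ((R : ℝ) + 3) * (1 / ((n : ℝ) + 2)) < ε := by
    rw [div_lt_iff₀ hε] at hn
    rw [mul_one_div, div_lt_iff₀ (by positivity)]
    linarith
  obtain ⟨M0, hM0⟩ := eventually_atTop.1 ((h1 n).and (h2 n))
  refine ⟨M0 + 1, fun M hM => ?_⟩
  obtain ⟨h3, h4⟩ := hM0 M (by omega)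
  have hMp : (0 : ℝ) < M := by exact_mod_cast (by omega : 0 < M)
  rw [Real.dist_eq, sub_zero, abs_div, abs_of_pos hMp, div_lt_iff₀ hMp]
  rw [Finset.sum_neg_distrib] at h4
  have h5 : ((R : ℝ) + 3) * (1 / ((n : ℝ) + 2)) * M < ε * M := mul_lt_mul_of_pos_right hn' hMp
  rw [abs_lt]
  constructor <;> linarith

end Pool.Agent.K9h18.AP
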