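import Pool.Agent.K9h18.AP.Tup
import Pool.Agent.K9h18.AP.LlnG
import Pool.Agent.K9h18.HS.Thin

set_option autoImplicit false

/-!
# Averages of products over windows
-/

open Finset Filter Topology MeasureTheory

namespace Pool.Agent.K9h18.AP

open Pool.Agent.TH888.R (wt wt_nonneg wt_le_one)
open Pool.Agent.K9h18.HS (mu1 ind ind_nonneg ind_le_one kc kc_pos prod_exp wt_tendsto log_ge_one)

/-- products over windows -/
noncomputable def GA (e A : ℕ → ℕ) (y : ℕ → ℝ) (T : Finset ℕ) (c : ℕ → ℝ) : ℝ :=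
  ∏ q ∈ T, (1 - y q * fa e A q c)

lemma GA_meas (e A : ℕ → ℕ) (y : ℕ → ℝ) (T : Finset ℕ) : Measurable (GA e A y T) :=
  Finset.measurable_fun_prod _ fun q _ => ((fa_meas e A q).const_mul _).const_sub 1

lemma GA_01 {e A : ℕ → ℕ} {y : ℕ → ℝ} (hy : ∀ q, 0 ≤ y q ∧ y q ≤ 1) (T : Finset ℕ) (c : ℕ → ℝ) :
    0 ≤ GA e A y T c ∧ GA e A y T c ≤ 1 := by
  have h : ∀ q, 0 ≤ y q * fa e A q c ∧ y q * fa e A q c ≤ 1 := fun q =>
    ⟨mul_nonneg (hy q).1 (fa_nonneg _ _ _ _), mul_le_one₀ (hy q).2 (fa_nonneg _ _ _ _) (fa_le_one _ _ _ _)⟩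
  exact ⟨Finset.prod_nonneg fun q _ => sub_nonneg.2 (h q).2,
    Finset.prod_le_one (fun q _ => sub_nonneg.2 (h q).2) fun q _ => by
      have := (h q).1
      linarith⟩

lemma GA_dep {e A : ℕ → ℕ} {y : ℕ → ℝ} {T : Finset ℕ} {c c' : ℕ → ℝ}
    (h : ∀ p ∈ T, fa e A p c = fa e A p c') : GA e A y T c = GA e A y T c' := by
  unfold GA
  exact Finset.prod_congr rfl fun q hq => by rw [h q hq]

/-- the test functions are Lipschitz in the mean -/
lemma tf_Ph {e A : ℕ → ℕ} (hup : ∀ p, e p ≤ p) {Z : ℕ → (ℕ → ℝ) → ℝ} (hm : ∀ m, Measurable (Z m))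
    (hb : ∀ m c, |Z m c| ≤ 1) {ε : ℝ} (hε : 0 < ε) (hε1 : ε ≤ 1 / 2) {B : Finset ℕ} {U : Finset ℕ}
    {k : ℕ} (hU : ∀ p ∈ U, 2 ≤ p ∧ p ≤ k)
    (hdep : ∀ m ∈ B, ∀ c c' : ℕ → ℝ, (∀ p ∈ U, fa e A p c = fa e A p c') → Z m c = Z m c') :
    Ph (Real.exp B.card * 2 ^ (k + 1)) (Real.exp B.card) (tf Z ε B) := by
  classical
  refine ⟨tf_meas hm B, fun c => (tf_pos B c).le, fun c => (tf_bd hb hε hε1 B c).2,
    fun v n hv hv1 => ?_⟩
  set D := ∑ j ∈ range n, |v j| with hD
  have hD0 : 0 ≤ D := Finset.sum_nonneg fun j _ => abs_nonneg _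
  have hpt : ∀ c, |tf Z ε B (sh v c) - tf Z ε B c| ≤
      Real.exp B.card * ∑ p ∈ U, |fa e A p (sh v c) - fa e A p c| := by
    intro c
    by_cases h : ∀ p ∈ U, fa e A p (sh v c) = fa e A p c
    · have h1 : tf Z ε B (sh v c) = tf Z ε B c := by
        unfold tf
        refine Finset.prod_congr rfl fun m hmB => ?_
        rw [hdep m hmB _ _ h]
      rw [h1, sub_self, abs_zero]
      exact mul_nonneg (Real.exp_pos _).le (Finset.sum_nonneg fun p _ => abs_nonneg _)
    · push Not at h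
      obtain ⟨p, hp, hne⟩ := h
      have h1 : |fa e A p (sh v c) - fa e A p c| = 1 := by
        rcases fa_01 e A p (sh v c) with h2 | h2 <;> rcases fa_01 e A p c with h3 | h3 <;>
          rw [h2, h3] at hne ⊢
        · exact absurd rfl hne
        · norm_num
        · norm_num
        · exact absurd rfl hne
      have h2 : 1 ≤ ∑ p ∈ U, |fa e A p (sh v c) - fa e A p c| := by
        rw [← h1]
        exact Finset.single_le_sum (f := fun p => |fa e A p (sh v c) - fa e A p c|)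
          (fun p _ => abs_nonneg _) hp
      have h3 := tf_bd hb hε hε1 B c
      have h4 := tf_bd hb hε hε1 B (sh v c)
      have h5 := tf_pos (X := Z) (ε := ε) B c
      have h6 := tf_pos (X := Z) (ε := ε) B (sh v c)
      have h7 : |tf Z ε B (sh v c) - tf Z ε B c| ≤ Real.exp B.card := by
        rw [abs_le]
        constructor <;> linarith [h3.2, h4.2]
      calc |tf Z ε B (sh v c) - tf Z ε B c| ≤ Real.exp B.card * 1 := by rw [mul_one]; exact h7
        _ ≤ _ := mul_le_mul_of_nonneg_left h2 (Real.exp_pos _).le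
  have hfi : ∀ p, Integrable (fun c => |fa e A p (sh v c) - fa e A p c|) muI := fun p => by
    refine int_bd (((fa_meas e A p).comp (sh_meas v)).sub (fa_meas e A p)).norm (B := 1) fun c => ?_
    rw [abs_abs]
    change |fa e A p (sh v c) - fa e A p c| ≤ 1
    have h1 := fa_nonneg e A p (sh v c)
    have h2 := fa_le_one e A p (sh v c)
    have h3 := fa_nonneg e A p c
    have h4 := fa_le_one e A p c
    rw [abs_le]
    constructor <;> linarith
  have h1 : ∫ c, |tf Z ε B (sh v c) - tf Z ε B c| ∂muI ≤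
      ∫ c, Real.exp B.card * ∑ p ∈ U, |fa e A p (sh v c) - fa e A p c| ∂muI := by
    refine integral_mono ?_ ((integrable_finsetSum _ fun p _ => hfi p).const_mul _) hpt
    refine int_bd (((tf_meas hm B).comp (sh_meas v)).sub (tf_meas hm B)).norm
      (B := Real.exp B.card) fun c => ?_
    rw [abs_abs]
    change |tf Z ε B (sh v c) - tf Z ε B c| ≤ _
    have h3 := tf_bd hb hε hε1 B c
    have h4 := tf_bd hb hε hε1 B (sh v c)
    have h5 := tf_pos (X := Z) (ε := ε) B c
    have h6 := tf_pos (X := Z) (ε := ε) B (sh v c)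
    rw [abs_le]
    constructor <;> linarith [h3.2, h4.2]
  refine h1.trans ?_
  rw [integral_const_mul, integral_finsetSum _ fun p _ => hfi p]
  have h2 : ∑ p ∈ U, ∫ c, |fa e A p (sh v c) - fa e A p c| ∂muI ≤ 2 ^ (k + 1) * D := by
    have h3 : ∀ p ∈ U, ∫ c, |fa e A p (sh v c) - fa e A p c| ∂muI ≤ 2 ^ p * D := by
      intro p hp
      refine (fa_lip (hU p hp).1 hv hv1).trans ?_
      apply mul_le_mul_of_nonneg_right _ hD0
      exact pow_le_pow_right₀ (by norm_num) (hup p)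
    refine (Finset.sum_le_sum h3).trans ?_
    rw [← Finset.sum_mul]
    apply mul_le_mul_of_nonneg_right _ hD0
    have h4 : ∑ p ∈ U, (2 : ℝ) ^ p ≤ ∑ p ∈ range (k + 1), (2 : ℝ) ^ p := by
      apply Finset.sum_le_sum_of_subset_of_nonneg
      · intro p hp
        rw [Finset.mem_range]
        have := (hU p hp).2
        omega
      · intro p _ _
        positivity
    refine h4.trans ?_
    rw [geom_sum_eq (by norm_num)]
    norm_num
  calc Real.exp B.card * ∑ p ∈ U, ∫ c, |fa e A p (sh v c) - fa e A p c| ∂muI ≤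
        Real.exp B.card * (2 ^ (k + 1) * D) := mul_le_mul_of_nonneg_left h2 (Real.exp_pos _).le
    _ = _ := by ring

/-- the additive errors are small -/
lemma add_small {η : ℝ} (hη : 0 < η) (N : ℕ) (C : ℝ) (hC : 0 ≤ C) : ∃ P : ℕ, ∀ p ≥ P, ∀ m k n : ℕ,
    (m : ℝ) ≤ C * (1 + Real.log p) → (k : ℝ) ≤ η / 8 * p → n ≤ m →
    (p : ℝ) ^ (N + 1) * Ea η (Real.exp n * 2 ^ (k + 1)) (Real.exp n) N p * Real.exp n ≤
      wt p * (1 / p) := by
  have hl : 0 < Real.log 2 := Real.log_pos (by norm_num)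
  set a := Real.log 2 * η with ha
  have ha0 : 0 < a := by positivity
  -- the polynomial factor
  set D : ℕ := 3 * N + 3 + 2 * ⌈C⌉₊ with hD
  have h1 : Tendsto (fun x : ℝ => x ^ D * Real.exp (-(a / 2 * x))) atTop (𝓝 0) := by
    have h2 := Real.tendsto_pow_mul_exp_neg_atTop_nhds_zero D
    have h3 : Tendsto (fun x : ℝ => a / 2 * x) atTop atTop :=
      tendsto_id.const_mul_atTop (by positivity)
    have h4 := (h2.comp h3).const_mul ((a / 2) ^ D)⁻¹
    rw [mul_zero] at h4
    refine h4.congr fun x => ?_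
    simp only [Function.comp]
    rw [mul_pow (a / 2) x]
    have h5 : (a / 2) ^ D ≠ 0 := by positivity
    rw [mul_assoc, inv_mul_cancel_left₀ h5]
  have h5 := (h1.comp tendsto_natCast_atTop_atTop).eventually_le_const
    (show (0 : ℝ) < 1 / (16 * 4 ^ N * Real.exp (2 * C)) by positivity)
  obtain ⟨P, hP⟩ := eventually_atTop.1 h5
  refine ⟨P + 3, fun p hp m k n hm hk hn => ?_⟩
  have h6 := hP p (by omega)
  simp only [Function.comp] at h6
  have hp0 : (0 : ℝ) < p := by exact_mod_cast (by omega : 0 < p)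
  have hp3 : (3 : ℝ) ≤ p := by exact_mod_cast (by omega : 3 ≤ p)
  have hlp : 1 ≤ Real.log p := log_ge_one (by omega)
  -- `exp n ≤ e ^ C p ^ C`
  have hn' : (n : ℝ) ≤ C * (1 + Real.log p) := le_trans (by exact_mod_cast hn) hm
  have hen : Real.exp n ≤ Real.exp C * (p : ℝ) ^ ⌈C⌉₊ := by
    calc Real.exp n ≤ Real.exp (C + ⌈C⌉₊ * Real.log p) := by
          apply Real.exp_le_exp.2
          have : C ≤ ⌈C⌉₊ := Nat.le_ceil C
          nlinarith
      _ = Real.exp C * (p : ℝ) ^ ⌈C⌉₊ := by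
          rw [Real.exp_add, Real.exp_nat_mul, Real.exp_log hp0]
  -- `2 ^ (k + 1) ≤ 2 exp (a p / 8)`
  have h2k : (2 : ℝ) ^ (k + 1) ≤ 2 * Real.exp (a / 8 * p) := by
    rw [pow_succ, mul_comm]
    apply mul_le_mul_of_nonneg_left _ (by norm_num)
    rw [← Real.exp_log (show (0 : ℝ) < 2 by norm_num), ← Real.exp_nat_mul, Real.exp_le_exp]
    calc (k : ℝ) * Real.log 2 ≤ η / 8 * p * Real.log 2 := mul_le_mul_of_nonneg_right hk hl.le
      _ = a / 8 * p := by rw [ha]; ring
  have hE1 : 1 ≤ Real.exp (a / 8 * p) := Real.one_le_exp (by positivity)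
  have hEa : Ea η (Real.exp n * 2 ^ (k + 1)) (Real.exp n) N p ≤
      Real.exp n * (4 * Real.exp (a / 8 * p)) * (2 * Real.exp (-(a * p)) * (4 * (p : ℝ) ^ 2) ^ N) := by
    unfold Ea
    apply mul_le_mul
    · have h7 : Real.exp n * 2 ^ (k + 1) ≤ Real.exp n * (2 * Real.exp (a / 8 * p)) :=
        mul_le_mul_of_nonneg_left h2k (Real.exp_pos _).le
      have h8 : 2 * Real.exp n ≤ Real.exp n * (2 * Real.exp (a / 8 * p)) := by
        have := mul_le_mul_of_nonneg_left hE1 (Real.exp_pos (n : ℝ)).le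
        linarith
      linarith
    · apply mul_le_mul_of_nonneg_right _ (by positivity)
      exact hh_le η p
    · have := hh_pos η p
      positivity
    · positivity
  have hwt : 1 / (p : ℝ) ^ 2 ≤ wt p * (1 / p) := by
    unfold wt
    rw [div_mul_div_comm, mul_one, ← sq]
    gcongr
  refine le_trans ?_ hwt
  rw [le_div_iff₀ (by positivity)]
  have hx : Real.exp (a / 8 * p) * Real.exp (-(a * p)) ≤ Real.exp (-(a / 2 * p)) := by
    rw [← Real.exp_add]
    apply Real.exp_le_exp.2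
    nlinarith
  have hee : Real.exp n * Real.exp n ≤ Real.exp (2 * C) * (p : ℝ) ^ (2 * ⌈C⌉₊) := by
    calc Real.exp n * Real.exp n ≤ (Real.exp C * (p : ℝ) ^ ⌈C⌉₊) * (Real.exp C * (p : ℝ) ^ ⌈C⌉₊) :=
          mul_le_mul hen hen (Real.exp_pos _).le (by positivity)
      _ = Real.exp (2 * C) * (p : ℝ) ^ (2 * ⌈C⌉₊) := by
          rw [two_mul C, Real.exp_add, two_mul ⌈C⌉₊, pow_add]
          ring
  calc (p : ℝ) ^ (N + 1) * Ea η (Real.exp n * 2 ^ (k + 1)) (Real.exp n) N p * Real.exp n * (p : ℝ) ^ 2 ≤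
        (p : ℝ) ^ (N + 1) * (Real.exp n * (4 * Real.exp (a / 8 * p)) *
          (2 * Real.exp (-(a * p)) * (4 * (p : ℝ) ^ 2) ^ N)) * Real.exp n * (p : ℝ) ^ 2 := by gcongr
    _ = 8 * 4 ^ N * (p : ℝ) ^ (3 * N + 3) * (Real.exp n * Real.exp n) *
        (Real.exp (a / 8 * p) * Real.exp (-(a * p))) := by
        rw [mul_pow, ← pow_mul]
        ring
    _ ≤ 8 * 4 ^ N * (p : ℝ) ^ (3 * N + 3) * (Real.exp (2 * C) * (p : ℝ) ^ (2 * ⌈C⌉₊)) *
        Real.exp (-(a / 2 * p)) := by gcongr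
    _ = 8 * 4 ^ N * Real.exp (2 * C) * ((p : ℝ) ^ D * Real.exp (-(a / 2 * p))) := by
        rw [hD, pow_add (p : ℝ) (3 * N + 3) (2 * ⌈C⌉₊)]
        ring
    _ ≤ 8 * 4 ^ N * Real.exp (2 * C) * (1 / (16 * 4 ^ N * Real.exp (2 * C))) := by gcongr
    _ ≤ 1 := by
        rw [mul_one_div, div_le_one (by positivity)]
        have : (0 : ℝ) < 4 ^ N * Real.exp (2 * C) := by positivity
        nlinarith

/-- **Averages of products over windows.** -/
theorem win_avg (hPV : Pool.Agent.N176.OW.S_PV) {η : ℝ} {e A : ℕ → ℕ} (hM : Md η e A)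
    {T : ℕ → Finset ℕ} {y : ℕ → ℕ → ℝ} {Λ L C : ℝ} {R m1 : ℕ}
    (hy : ∀ m q, 0 ≤ y m q ∧ y m q ≤ 1) (hT2 : ∀ m, ∀ p ∈ T m, 2 ≤ p)
    (hfar : ∀ N : ℕ, ∀ᶠ m in atTop, ∀ p ∈ T m, N ≤ p) (hL : ∀ m, ∑ p ∈ T m, wt p ≤ L)
    (hΛ : Tendsto (fun m => ∑ q ∈ T m, y m q * wt q) atTop (𝓝 Λ)) (hR : 1 ≤ R) (hC : 0 ≤ C)
    (hsep : ∀ m ≥ m1, ∀ m' : ℕ, m' + R ≤ m → ∀ p ∈ T m', ∀ q ∈ T m, (p : ℝ) ≤ η / 8 * q)
    (hgrow : ∀ m ≥ m1, ∀ p ∈ T m, (m : ℝ) ≤ C * (1 + Real.log p)) :
    ∀ᵐ c ∂muI, Tendsto (fun M : ℕ => (∑ m ∈ range M, GA e A (y m) (T m) c) / M) atTop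
      (𝓝 (Real.exp (-(kc * Λ)))) := by
  classical
  obtain ⟨K, hK, hprod⟩ := prod_lem hPV hM
  have hη := hM.pos
  have hkc := kc_pos
  have hΛ0 : 0 ≤ Λ := ge_of_tendsto' hΛ fun m => Finset.sum_nonneg fun q _ =>
    mul_nonneg (hy m q).1 (wt_nonneg q)
  have hL0 : 0 ≤ L := (Finset.sum_nonneg fun p _ => wt_nonneg p).trans (hL 0)
  have hE0 : 0 < Real.exp (-(kc * Λ)) := Real.exp_pos _
  have hE1 : Real.exp (-(kc * Λ)) ≤ 1 := by
    rw [Real.exp_le_one_iff, neg_nonpos]
    positivity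
  set X : ℕ → (ℕ → ℝ) → ℝ := fun m c => GA e A (y m) (T m) c - Real.exp (-(kc * Λ)) with hX
  have hXm : ∀ m, Measurable (X m) := fun m => (GA_meas e A (y m) (T m)).sub_const _
  have hXb : ∀ m c, |X m c| ≤ 1 := fun m c => by
    have h1 := GA_01 (e := e) (A := A) (hy m) (T m) c
    simp only [hX]
    rw [abs_le]
    constructor <;> linarith [h1.1, h1.2]
  have hXdep : ∀ m, ∀ c c' : ℕ → ℝ, (∀ p ∈ T m, fa e A p c = fa e A p c') → X m c = X m c' := by
    intro m c c' h
    simp only [hX]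
    rw [GA_dep h]
  -- one window against a test function
  have hmain : ∀ ε : ℝ, 0 < ε → ε ≤ 1 / 2 → ∃ m0 : ℕ, ∀ m ≥ m0, ∀ (n : ℕ) (k : ℕ), n ≤ m →
      (∀ p ∈ T m, (k : ℝ) ≤ η / 8 * p) → ∀ Φ : (ℕ → ℝ) → ℝ,
      Ph (Real.exp n * 2 ^ (k + 1)) (Real.exp n) Φ → (∀ c, Real.exp (-(n : ℝ)) ≤ Φ c) →
      |∫ c, Φ c * X m c ∂muI| ≤ ε * ∫ c, Φ c ∂muI := by
    intro ε hε hε1
    set Lb := kc * L + K * L with hLb
    have hLb0 : 0 ≤ Lb := by positivity
    obtain ⟨N, hN⟩ := exists_pow_lt_of_lt_one (show (0 : ℝ) < ε / (32 * Real.exp (2 * Lb)) by positivity)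
      (show (1 / 2 : ℝ) < 1 by norm_num)
    obtain ⟨P, hP2, hprod⟩ := hprod N
    obtain ⟨P1, hadd⟩ := add_small hη N C hC
    have hlog : Tendsto (fun n : ℕ => Real.log n) atTop atTop :=
      Real.tendsto_log_atTop.comp tendsto_natCast_atTop_atTop
    obtain ⟨N1, hN1⟩ := (hlog.eventually_ge_atTop (16 * K * (L + 1) * Real.exp Lb / ε)).exists_forall_of_atTop
    obtain ⟨N2, hN2⟩ := (wt_tendsto.eventually_lt_const
      (show (0 : ℝ) < ε / (8 * kc ^ 2 * (L + 1)) by positivity)).exists_forall_of_atTop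
    obtain ⟨N3, hN3⟩ := exists_nat_ge (8 * (N + 2) * Real.exp Lb * L / ε)
    have hwk : ∃ P : ℕ, ∀ q ≥ P, kc * wt q ≤ 1 := by
      have h1 : Tendsto (fun q : ℕ => kc * wt q) atTop (𝓝 (kc * 0)) := wt_tendsto.const_mul kc
      rw [mul_zero] at h1
      exact eventually_atTop.1 (h1.eventually_le_const zero_lt_one)
    obtain ⟨Pw, hPw⟩ := hwk
    have hexp : ∀ᶠ m in atTop, |Real.exp (-(kc * ∑ q ∈ T m, y m q * wt q)) -
        Real.exp (-(kc * Λ))| < ε / 8 := by
      have h1 : Tendsto (fun m => Real.exp (-(kc * ∑ q ∈ T m, y m q * wt q))) atTop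
          (𝓝 (Real.exp (-(kc * Λ)))) :=
        (Real.continuous_exp.tendsto _).comp ((hΛ.const_mul kc).neg)
      have h2 := Metric.tendsto_nhds.1 h1 (ε / 8) (by positivity)
      filter_upwards [h2] with m hm
      rwa [Real.dist_eq] at hm
    obtain ⟨m0, hm0⟩ := eventually_atTop.1 ((hfar (P + P1 + N1 + N2 + N3 + Pw + 3)).and hexp)
    refine ⟨m0 + m1, fun m hm n k hn hk Φ hΦ hΦlow => ?_⟩
    obtain ⟨g1, g2⟩ := hm0 m (by omega)
    set N0 := P + P1 + N1 + N2 + N3 + Pw + 3 with hN0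
    set I := ∫ c, Φ c ∂muI with hI
    have hI0 : 0 ≤ I := hΦ.I0
    have hIlow : Real.exp (-(n : ℝ)) ≤ I := by
      have h1 : ∫ _c : ℕ → ℝ, Real.exp (-(n : ℝ)) ∂muI ≤ I :=
        integral_mono (integrable_const _) hΦ.int hΦlow
      simpa using h1
    have hq3 : ∀ q ∈ T m, 3 ≤ q := fun q hq => by have := g1 q hq; omega
    have hq0 : ∀ q ∈ T m, (0 : ℝ) < q := fun q hq => by
      have := hq3 q hq
      exact_mod_cast (by omega : 0 < q)
    -- the reciprocals
    have hlN0 : 1 ≤ Real.log (N0 : ℝ) := log_ge_one (by omega)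
    have hrec : ∑ q ∈ T m, 1 / (q : ℝ) ≤ L / Real.log N0 := by
      have h2 : ∀ q ∈ T m, 1 / (q : ℝ) ≤ wt q / Real.log N0 := by
        intro q hq
        have h3 : Real.log N0 ≤ Real.log q :=
          Real.log_le_log (by exact_mod_cast (by omega : 0 < N0)) (by exact_mod_cast g1 q hq)
        have := hq0 q hq
        unfold wt
        rw [le_div_iff₀ (by linarith), one_div_mul_eq_div]
        gcongr
      refine (Finset.sum_le_sum h2).trans ?_
      rw [← Finset.sum_div]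
      gcongr
      exact hL m
    have hrec1 : ∑ q ∈ T m, K / (q : ℝ) ≤ K * (L / Real.log N0) := by
      have h3 : ∑ q ∈ T m, K / (q : ℝ) = K * ∑ q ∈ T m, 1 / (q : ℝ) := by
        rw [Finset.mul_sum]
        exact Finset.sum_congr rfl fun q _ => by ring
      rw [h3]
      exact mul_le_mul_of_nonneg_left hrec hK.le
    have hLL : L / Real.log N0 ≤ L := div_le_self hL0 hlN0
    have hbsum : ∑ q ∈ T m, bb K q ≤ Lb := by
      unfold bb
      rw [Finset.sum_add_distrib, ← Finset.mul_sum]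
      have h1 := mul_le_mul_of_nonneg_left (hL m) hkc.le
      have h2 := mul_le_mul_of_nonneg_left hLL hK.le
      linarith
    have hb0 : 0 ≤ ∑ q ∈ T m, bb K q := Finset.sum_nonneg fun q hq => by
      have := hq0 q hq
      have := wt_nonneg q
      unfold bb
      positivity
    have hpr := hprod (T m) (fun p hp => by have := g1 p hp; omega) (y m) (hy m) _ _ Φ hΦ
    rw [← hI] at hpr
    -- first error
    have a1 : (∑ q ∈ T m, K / q) * Real.exp (∑ q ∈ T m, bb K q) ≤ ε / 8 := by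
      have h1 : 16 * K * (L + 1) * Real.exp Lb / ε ≤ Real.log N0 := hN1 N0 (by omega)
      have h2 : 0 < 16 * K * (L + 1) * Real.exp Lb / ε := by positivity
      calc (∑ q ∈ T m, K / q) * Real.exp (∑ q ∈ T m, bb K q) ≤ K * (L / Real.log N0) * Real.exp Lb := by
            apply mul_le_mul hrec1 (Real.exp_le_exp.2 hbsum) (Real.exp_pos _).le
            positivity
        _ ≤ K * (L / (16 * K * (L + 1) * Real.exp Lb / ε)) * Real.exp Lb := by
            apply mul_le_mul_of_nonneg_right _ (Real.exp_pos _).le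
            exact mul_le_mul_of_nonneg_left (div_le_div_of_nonneg_left hL0 h2 h1) hK.le
        _ = ε / 16 * (L / (L + 1)) := by field_simp
        _ ≤ ε / 8 * 1 := by
            apply mul_le_mul (by linarith) _ (by positivity) (by positivity)
            rw [div_le_one (by linarith)]
            linarith
        _ = ε / 8 := mul_one _
    have a2 : 2 * ((1 / 2) ^ (N + 1) * Real.exp (2 * ∑ q ∈ T m, bb K q)) ≤ ε / 8 := by
      have h1 : ((1 : ℝ) / 2) ^ (N + 1) ≤ ε / (32 * Real.exp (2 * Lb)) := by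
        refine le_trans ?_ hN.le
        exact pow_le_pow_of_le_one (by norm_num) (by norm_num) (by omega)
      calc 2 * ((1 / 2) ^ (N + 1) * Real.exp (2 * ∑ q ∈ T m, bb K q)) ≤
            2 * (ε / (32 * Real.exp (2 * Lb)) * Real.exp (2 * Lb)) := by
            apply mul_le_mul_of_nonneg_left _ (by norm_num)
            exact mul_le_mul h1 (Real.exp_le_exp.2 (by linarith)) (Real.exp_pos _).le (by positivity)
        _ = ε / 16 := by field_simp; norm_num
        _ ≤ ε / 8 := by linarith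
    have a3 : (N + 2) * (Real.exp (∑ q ∈ T m, bb K q) * ∑ p ∈ T m, (p : ℝ) ^ (N + 1) *
        Ea η (Real.exp n * 2 ^ (k + 1)) (Real.exp n) N p) ≤ ε / 8 * I := by
      have h1 : ∑ p ∈ T m, (p : ℝ) ^ (N + 1) * Ea η (Real.exp n * 2 ^ (k + 1)) (Real.exp n) N p ≤
          L * (1 / N0) * Real.exp (-(n : ℝ)) := by
        have h2 : ∀ p ∈ T m, (p : ℝ) ^ (N + 1) * Ea η (Real.exp n * 2 ^ (k + 1)) (Real.exp n) N p ≤
            wt p * (1 / N0) * Real.exp (-(n : ℝ)) := by
          intro p hp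
          have h3 := hadd p (by have := g1 p hp; omega) m k n (hgrow m (by omega) p hp) (hk p hp) hn
          have h4 : wt p * (1 / (p : ℝ)) ≤ wt p * (1 / N0) := by
            apply mul_le_mul_of_nonneg_left _ (wt_nonneg p)
            apply one_div_le_one_div_of_le (by exact_mod_cast (by omega : 0 < N0))
            exact_mod_cast g1 p hp
          have h5 : (p : ℝ) ^ (N + 1) * Ea η (Real.exp n * 2 ^ (k + 1)) (Real.exp n) N p =
              (p : ℝ) ^ (N + 1) * Ea η (Real.exp n * 2 ^ (k + 1)) (Real.exp n) N p * Real.exp n *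
                Real.exp (-(n : ℝ)) := by
            rw [mul_assoc _ (Real.exp n), ← Real.exp_add]
            simp
          rw [h5]
          exact mul_le_mul_of_nonneg_right (h3.trans h4) (Real.exp_pos _).le
        refine (Finset.sum_le_sum h2).trans ?_
        rw [← Finset.sum_mul, ← Finset.sum_mul]
        have := hL m
        gcongr
      have h2 : 8 * (N + 2) * Real.exp Lb * L / ε ≤ N0 := hN3.trans (by exact_mod_cast (by omega : N3 ≤ N0))
      have hN00 : (0 : ℝ) < N0 := by exact_mod_cast (by omega : 0 < N0)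
      rw [div_le_iff₀ hε] at h2
      have h3 : (N + 2) * Real.exp Lb * (L * (1 / N0)) ≤ ε / 8 := by
        rw [mul_one_div, ← mul_div_assoc, div_le_iff₀ hN00]
        linarith
      calc (N + 2) * (Real.exp (∑ q ∈ T m, bb K q) * ∑ p ∈ T m, (p : ℝ) ^ (N + 1) *
            Ea η (Real.exp n * 2 ^ (k + 1)) (Real.exp n) N p) ≤
            (N + 2) * (Real.exp Lb * (L * (1 / N0) * Real.exp (-(n : ℝ)))) := by
            apply mul_le_mul_of_nonneg_left _ (by positivity)
            apply mul_le_mul (Real.exp_le_exp.2 hbsum) h1 _ (Real.exp_pos _).le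
            refine Finset.sum_nonneg fun p _ => ?_
            unfold Ea
            have := hh_pos η p
            positivity
        _ = (N + 2) * Real.exp Lb * (L * (1 / N0)) * Real.exp (-(n : ℝ)) := by ring
        _ ≤ ε / 8 * I := mul_le_mul h3 hIlow (Real.exp_pos _).le (by positivity)
    -- the main term
    have hpe := prod_exp (T m) (fun q => y m q * (kc * wt q)) (fun q hq => by
      have h2 := wt_nonneg q
      exact ⟨mul_nonneg (hy m q).1 (by positivity),
        mul_le_one₀ (hy m q).2 (by positivity) (hPw q (by have := g1 q hq; omega))⟩)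
    have hsq : ∑ q ∈ T m, (y m q * (kc * wt q)) ^ 2 ≤ ε / 8 := by
      have h2 : ∀ q ∈ T m, (y m q * (kc * wt q)) ^ 2 ≤ kc ^ 2 * (ε / (8 * kc ^ 2 * (L + 1))) *
          wt q := by
        intro q hq
        have h3 := wt_nonneg q
        have h4 := (hN2 q (by have := g1 q hq; omega)).le
        have h5 : (y m q * (kc * wt q)) ^ 2 ≤ (1 * (kc * wt q)) ^ 2 := by
          apply pow_le_pow_left₀ (mul_nonneg (hy m q).1 (by positivity))
          exact mul_le_mul_of_nonneg_right (hy m q).2 (by positivity)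
        refine h5.trans ?_
        calc (1 * (kc * wt q)) ^ 2 = kc ^ 2 * wt q * wt q := by ring
          _ ≤ kc ^ 2 * (ε / (8 * kc ^ 2 * (L + 1))) * wt q := by gcongr
      refine (Finset.sum_le_sum h2).trans ?_
      rw [← Finset.mul_sum]
      have h4 : L / (L + 1) ≤ 1 := by rw [div_le_one (by linarith)]; linarith
      calc kc ^ 2 * (ε / (8 * kc ^ 2 * (L + 1))) * ∑ q ∈ T m, wt q ≤
            kc ^ 2 * (ε / (8 * kc ^ 2 * (L + 1))) * L :=
            mul_le_mul_of_nonneg_left (hL m) (by positivity)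
        _ = ε / 8 * (L / (L + 1)) := by field_simp
        _ ≤ ε / 8 * 1 := by gcongr
        _ = ε / 8 := mul_one _
    have hsum : ∑ q ∈ T m, y m q * (kc * wt q) = kc * ∑ q ∈ T m, y m q * wt q := by
      rw [Finset.mul_sum]
      exact Finset.sum_congr rfl fun q _ => by ring
    rw [hsum] at hpe
    have hGi : Integrable (fun c => Φ c * GA e A (y m) (T m) c) muI := by
      refine int_bd (hΦ.meas.mul (GA_meas e A (y m) (T m))) (B := Real.exp n) fun c => ?_
      have h1 := GA_01 (e := e) (A := A) (hy m) (T m) c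
      rw [abs_mul, abs_of_nonneg h1.1, abs_of_nonneg (hΦ.nn c)]
      calc Φ c * GA e A (y m) (T m) c ≤ Real.exp n * 1 :=
            mul_le_mul (hΦ.le c) h1.2 h1.1 (Real.exp_pos _).le
        _ = _ := mul_one _
    have hXI : ∫ c, Φ c * X m c ∂muI =
        ∫ c, Φ c * GA e A (y m) (T m) c ∂muI - Real.exp (-(kc * Λ)) * I := by
      have h2 : ∀ c, Φ c * X m c = Φ c * GA e A (y m) (T m) c - Real.exp (-(kc * Λ)) * Φ c := by
        intro c
        simp only [hX]
        ring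
      simp only [h2]
      rw [integral_sub hGi (hΦ.int.const_mul _), integral_const_mul]
    rw [hXI]
    set PP := ∏ q ∈ T m, (1 - y m q * (kc * wt q)) with hPP
    have h2 : ∫ c, Φ c * GA e A (y m) (T m) c ∂muI - Real.exp (-(kc * Λ)) * I =
        (∫ c, Φ c * GA e A (y m) (T m) c ∂muI - PP * I) +
          (PP - Real.exp (-(kc * Λ))) * I := by ring
    rw [h2]
    refine (abs_add_le _ _).trans ?_
    rw [abs_mul (PP - Real.exp (-(kc * Λ))) I, abs_of_nonneg hI0]
    have h3 : |PP - Real.exp (-(kc * Λ))| ≤ ε / 4 := by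
      have h4 := abs_sub_le PP (Real.exp (-(kc * ∑ q ∈ T m, y m q * wt q)))
        (Real.exp (-(kc * Λ)))
      linarith
    have h5 := mul_le_mul_of_nonneg_right h3 hI0
    have h6 := mul_le_mul_of_nonneg_right (add_le_add a1 a2) hI0
    have h7 : |∫ c, Φ c * GA e A (y m) (T m) c ∂muI - PP * I| ≤ (ε / 8 + ε / 8) * I + ε / 8 * I :=
      hpr.trans (add_le_add h6 a3)
    have h8 : 0 ≤ ε * I := by positivity
    linarith
  have hlln := llnG (μ := muI) (X := X) hXm hXb hR (fun ε hε hε1 => by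
    obtain ⟨m0, h0⟩ := hmain ε hε hε1
    refine ⟨m0 + m1, fun m hm B hB => ?_⟩
    set U := B.biUnion T with hU
    set k := U.sup id with hk
    have hUk : ∀ p ∈ U, 2 ≤ p ∧ p ≤ k := by
      intro p hp
      refine ⟨?_, Finset.le_sup (f := id) hp⟩
      rw [hU, Finset.mem_biUnion] at hp
      obtain ⟨m', _, h2⟩ := hp
      exact hT2 m' p h2
    have hkq : ∀ q ∈ T m, (k : ℝ) ≤ η / 8 * q := by
      intro q hq
      have h1 : k ≤ ⌊η / 8 * q⌋₊ := by
        refine Finset.sup_le fun p hp => ?_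
        rw [hU, Finset.mem_biUnion] at hp
        obtain ⟨m', h1, h2⟩ := hp
        exact Nat.le_floor (hsep m (by omega) m' (hB m' h1) p h2 q hq)
      have h2 : (⌊η / 8 * q⌋₊ : ℝ) ≤ η / 8 * q := Nat.floor_le (by positivity)
      have h3 : (k : ℝ) ≤ ⌊η / 8 * q⌋₊ := by exact_mod_cast h1
      linarith
    have hcard : B.card ≤ m := by
      have h1 : B ⊆ range m := fun m' hm' => by
        have := hB m' hm'
        rw [Finset.mem_range]
        omega
      have := Finset.card_le_card h1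
      rwa [Finset.card_range] at this
    have hdep : ∀ m' ∈ B, ∀ c c' : ℕ → ℝ, (∀ p ∈ U, fa e A p c = fa e A p c') → X m' c = X m' c' := by
      intro m' hm' c c' h
      exact hXdep m' c c' fun p hp => h p (by
        rw [hU, Finset.mem_biUnion]
        exact ⟨m', hm', hp⟩)
    have hXn : ∀ m c, |(fun (m : ℕ) (x : ℕ → ℝ) => - X m x) m c| ≤ 1 := fun m c => by
      change |-(X m c)| ≤ 1
      rw [abs_neg]
      exact hXb m c
    have P1 : Ph (Real.exp B.card * 2 ^ (k + 1)) (Real.exp B.card) (tf X ε B) :=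
      tf_Ph hM.up hXm hXb hε hε1 hUk hdep
    have P2 : Ph (Real.exp B.card * 2 ^ (k + 1)) (Real.exp B.card) (tf (fun m x => - X m x) ε B) :=
      tf_Ph (Z := fun m x => - X m x) hM.up (fun m => (hXm m).neg)
        (fun m c => hXn m c) hε hε1 hUk fun m' hm' c c' h => congrArg (fun z : ℝ => -z) (hdep m' hm' c c' h)
    exact ⟨h0 m (by omega) B.card k hcard hkq _ P1 fun c => (tf_bd hXb hε hε1 B c).1,
      h0 m (by omega) B.card k hcard hkq _ P2 fun c =>
        (tf_bd (X := fun m x => - X m x) hXn hε hε1 B c).1⟩)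
  filter_upwards [hlln] with c hc
  have h1 : ∀ᶠ M : ℕ in atTop, (∑ m ∈ range M, X m c) / M + Real.exp (-(kc * Λ)) =
      (∑ m ∈ range M, GA e A (y m) (T m) c) / M := by
    filter_upwards [eventually_ge_atTop 1] with M hM
    have hM0 : (0 : ℝ) < M := by exact_mod_cast hM
    simp only [hX]
    rw [Finset.sum_sub_distrib, Finset.sum_const, Finset.card_range, nsmul_eq_mul]
    field_simp
    ring
  have h2 := hc.add_const (Real.exp (-(kc * Λ)))
  rw [zero_add] at h2
  exact h2.congr' h1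

end Pool.Agent.K9h18.AP
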