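import Mathlib

set_option autoImplicit false

/-!
# Bonferroni inequalities for products
-/

open Finset

namespace Pool.Agent.K9h18.AP

/-- elementary symmetric function -/
noncomputable def ek (x : ℕ → ℝ) (k : ℕ) (T : Finset ℕ) : ℝ := ∑ A ∈ T.powersetCard k, ∏ q ∈ A, x q

lemma ek_zero (x : ℕ → ℝ) (T : Finset ℕ) : ek x 0 T = 1 := by
  unfold ek
  simp

lemma ek_empty (x : ℕ → ℝ) (k : ℕ) : ek x (k + 1) ∅ = 0 := by
  unfold ek
  rw [Finset.powersetCard_eq_empty.2 (by simp), Finset.sum_empty]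

lemma sum_insert_card {β : Type*} [AddCommMonoid β] (f : Finset ℕ → β) {a : ℕ} {T : Finset ℕ}
    (ha : a ∉ T) (k : ℕ) : ∑ A ∈ (insert a T).powersetCard (k + 1), f A =
      ∑ A ∈ T.powersetCard (k + 1), f A + ∑ A ∈ T.powersetCard k, f (insert a A) := by
  classical
  rw [Finset.powersetCard_succ_insert ha, Finset.sum_union]
  · congr 1
    rw [Finset.sum_image]
    intro A hA B hB h
    rw [Finset.mem_coe, Finset.mem_powersetCard] at hA hB
    have h1 : a ∉ A := fun h2 => ha (hA.1 h2)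
    have h2 : a ∉ B := fun h2 => ha (hB.1 h2)
    rw [← Finset.erase_insert h1, ← Finset.erase_insert h2, h]
  · rw [Finset.disjoint_left]
    intro A hA hA2
    rw [Finset.mem_powersetCard] at hA
    rw [Finset.mem_image] at hA2
    obtain ⟨B, _, rfl⟩ := hA2
    exact ha (hA.1 (Finset.mem_insert_self a B))

lemma ek_insert (x : ℕ → ℝ) {a : ℕ} {T : Finset ℕ} (ha : a ∉ T) (k : ℕ) :
    ek x (k + 1) (insert a T) = ek x (k + 1) T + x a * ek x k T := by
  unfold ek
  rw [sum_insert_card _ ha, Finset.mul_sum]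
  congr 1
  refine Finset.sum_congr rfl fun A hA => ?_
  rw [Finset.mem_powersetCard] at hA
  rw [Finset.prod_insert fun h => ha (hA.1 h)]

lemma ek_nonneg {x : ℕ → ℝ} {T : Finset ℕ} (hx : ∀ q ∈ T, 0 ≤ x q) (k : ℕ) : 0 ≤ ek x k T := by
  unfold ek
  refine Finset.sum_nonneg fun A hA => Finset.prod_nonneg fun q hq => hx q ?_
  rw [Finset.mem_powersetCard] at hA
  exact hA.1 hq

lemma ek_mono {x y : ℕ → ℝ} {T : Finset ℕ} (hx : ∀ q ∈ T, 0 ≤ x q) (hxy : ∀ q ∈ T, x q ≤ y q)
    (k : ℕ) : ek x k T ≤ ek y k T := by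
  unfold ek
  refine Finset.sum_le_sum fun A hA => ?_
  rw [Finset.mem_powersetCard] at hA
  exact Finset.prod_le_prod (fun q hq => hx q (hA.1 hq)) fun q hq => hxy q (hA.1 hq)

/-- the partial alternating sums -/
noncomputable def as (x : ℕ → ℝ) (K : ℕ) (T : Finset ℕ) : ℝ := ∑ k ∈ range K, (-1) ^ k * ek x k T

lemma as_succ (x : ℕ → ℝ) (K : ℕ) {a : ℕ} {T : Finset ℕ} (ha : a ∉ T) :
    as x (K + 1) (insert a T) = as x (K + 1) T - x a * as x K T := by
  unfold as
  rw [Finset.sum_range_succ', Finset.sum_range_succ' (fun k => (-1) ^ k * ek x k T), ek_zero, ek_zero,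
    Finset.mul_sum]
  have h1 : ∀ k, (-1 : ℝ) ^ (k + 1) * ek x (k + 1) (insert a T) =
      (-1) ^ (k + 1) * ek x (k + 1) T - x a * ((-1) ^ k * ek x k T) := by
    intro k
    rw [ek_insert x ha]
    ring
  simp only [h1]
  rw [Finset.sum_sub_distrib]
  ring

/-- **Bonferroni inequalities.** -/
theorem bonf {x : ℕ → ℝ} (T : Finset ℕ) (hx : ∀ q ∈ T, 0 ≤ x q ∧ x q ≤ 1) (K : ℕ) :
    0 ≤ (-1) ^ K * (∏ q ∈ T, (1 - x q) - as x K T) ∧
      (-1) ^ K * (∏ q ∈ T, (1 - x q) - as x K T) ≤ ek x K T := by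
  classical
  induction T using Finset.induction_on generalizing K with
  | empty =>
    cases K with
    | zero => simp [as, ek_zero]
    | succ K =>
      have h1 : as x (K + 1) ∅ = 1 := by
        unfold as
        rw [Finset.sum_range_succ']
        simp [ek_empty, ek_zero]
      rw [h1, Finset.prod_empty, ek_empty]
      simp
  | insert a T ha ih =>
    have ih' := ih fun q hq => hx q (Finset.mem_insert_of_mem hq)
    obtain ⟨h0, h1⟩ := hx a (Finset.mem_insert_self _ _)
    rw [Finset.prod_insert ha]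
    cases K with
    | zero =>
      have h2 : as x 0 (insert a T) = 0 := by simp [as]
      have h3 : as x 0 T = 0 := by simp [as]
      obtain ⟨h4, h5⟩ := ih' 0
      rw [h3, ek_zero] at *
      rw [h2]
      simp only [pow_zero, one_mul, sub_zero] at *
      constructor
      · exact mul_nonneg (by linarith) h4
      · nlinarith
    | succ K =>
      rw [as_succ x K ha, ek_insert x ha]
      obtain ⟨h4, h5⟩ := ih' (K + 1)
      obtain ⟨h6, h7⟩ := ih' K
      have e1 : (-1 : ℝ) ^ (K + 1) * ((1 - x a) * ∏ q ∈ T, (1 - x q) - (as x (K + 1) T - x a * as x K T)) =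
          (-1) ^ (K + 1) * (∏ q ∈ T, (1 - x q) - as x (K + 1) T) +
            x a * ((-1) ^ K * (∏ q ∈ T, (1 - x q) - as x K T)) := by
        rw [pow_succ]
        ring
      rw [e1]
      have h8 := mul_nonneg h0 h6
      have h9 := mul_le_mul_of_nonneg_left h7 h0
      constructor <;> linarith

lemma bonf_abs {x : ℕ → ℝ} (T : Finset ℕ) (hx : ∀ q ∈ T, 0 ≤ x q ∧ x q ≤ 1) (K : ℕ) :
    |∏ q ∈ T, (1 - x q) - as x K T| ≤ ek x K T := by
  obtain ⟨h1, h2⟩ := bonf T hx K
  have h3 : |∏ q ∈ T, (1 - x q) - as x K T| = |(-1) ^ K * (∏ q ∈ T, (1 - x q) - as x K T)| := by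
    rw [abs_mul, abs_pow, abs_neg, abs_one, one_pow, one_mul]
  rw [h3, abs_of_nonneg h1]
  exact h2

/-- the tail -/
lemma ek_tail {x : ℕ → ℝ} {T : Finset ℕ} (hx : ∀ q ∈ T, 0 ≤ x q) (k : ℕ) :
    2 ^ k * ek x k T ≤ Real.exp (2 * ∑ q ∈ T, x q) := by
  classical
  have h1 : 2 ^ k * ek x k T ≤ ∏ q ∈ T, (1 + 2 * x q) := by
    rw [Finset.prod_one_add]
    unfold ek
    rw [Finset.mul_sum]
    have h2 : ∀ A ∈ T.powersetCard k, 2 ^ k * ∏ q ∈ A, x q = ∏ q ∈ A, (2 * x q) := by
      intro A hA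
      rw [Finset.mem_powersetCard] at hA
      rw [Finset.prod_mul_distrib, Finset.prod_const, hA.2]
    rw [Finset.sum_congr rfl h2]
    apply Finset.sum_le_sum_of_subset_of_nonneg
    · intro A hA
      rw [Finset.mem_powersetCard] at hA
      rw [Finset.mem_powerset]
      exact hA.1
    · intro A hA _
      rw [Finset.mem_powerset] at hA
      exact Finset.prod_nonneg fun q hq => by
        have := hx q (hA hq)
        positivity
  refine h1.trans ?_
  rw [Finset.mul_sum, Real.exp_sum]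
  exact Finset.prod_le_prod (fun q hq => by
    have := hx q hq
    positivity) fun q _ => by
    have := Real.add_one_le_exp (2 * x q)
    linarith

lemma prod_diff {a b : ℕ → ℝ} (T : Finset ℕ) (h0 : ∀ q ∈ T, 0 ≤ a q) (hab : ∀ q ∈ T, a q ≤ b q) :
    ∏ q ∈ T, (1 + b q) - ∏ q ∈ T, (1 + a q) ≤ (∑ q ∈ T, (b q - a q)) * ∏ q ∈ T, (1 + b q) := by
  classical
  induction T using Finset.induction_on with
  | empty => simp
  | insert r T hr ih =>
    have ih' := ih (fun q hq => h0 q (Finset.mem_insert_of_mem hq))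
      (fun q hq => hab q (Finset.mem_insert_of_mem hq))
    have ha := h0 r (Finset.mem_insert_self _ _)
    have hb := hab r (Finset.mem_insert_self _ _)
    rw [Finset.prod_insert hr, Finset.prod_insert hr, Finset.sum_insert hr]
    set Pb := ∏ q ∈ T, (1 + b q) with hPb
    set Pa := ∏ q ∈ T, (1 + a q) with hPa
    set S := ∑ q ∈ T, (b q - a q) with hS
    have hPb0 : 0 ≤ Pb := Finset.prod_nonneg fun q hq => by
      have h1 := h0 q (Finset.mem_insert_of_mem hq)
      have h2 := hab q (Finset.mem_insert_of_mem hq)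
      linarith
    have hS0 : 0 ≤ S := Finset.sum_nonneg fun q hq => sub_nonneg.2 (hab q (Finset.mem_insert_of_mem hq))
    -- `(1 + b) Pb - (1 + a) Pa = (b - a) Pb + (1 + a) (Pb - Pa)`
    have h1 : (1 + a r) * (Pb - Pa) ≤ (1 + b r) * (S * Pb) := by
      calc (1 + a r) * (Pb - Pa) ≤ (1 + a r) * (S * Pb) := mul_le_mul_of_nonneg_left ih' (by linarith)
        _ ≤ (1 + b r) * (S * Pb) := mul_le_mul_of_nonneg_right (by linarith) (by positivity)
    have h2 : (b r - a r) * Pb ≤ (b r - a r) * ((1 + b r) * Pb) := by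
      apply mul_le_mul_of_nonneg_left _ (by linarith)
      nlinarith
    nlinarith

lemma sum_card_le (g : Finset ℕ → ℝ) (T : Finset ℕ) (hg : ∀ A ⊆ T, 0 ≤ g A) (K : ℕ) :
    ∑ k ∈ range K, ∑ A ∈ T.powersetCard k, g A ≤ ∑ A ∈ T.powerset, g A := by
  classical
  have h1 : ∑ k ∈ range K, ∑ A ∈ T.powersetCard k, g A =
      ∑ A ∈ T.powerset.filter (fun A => A.card ∈ range K), g A := by
    rw [← Finset.sum_fiberwise_of_maps_to (s := T.powerset.filter (fun A => A.card ∈ range K))
      (t := range K) (g := fun A => A.card) (fun A hA => (Finset.mem_filter.1 hA).2)]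
    refine Finset.sum_congr rfl fun k hk => Finset.sum_congr ?_ fun _ _ => rfl
    ext A
    rw [Finset.mem_powersetCard, Finset.mem_filter, Finset.mem_filter, Finset.mem_powerset]
    constructor
    · rintro ⟨h1, h2⟩
      exact ⟨⟨h1, by rw [h2]; exact hk⟩, h2⟩
    · rintro ⟨⟨h1, _⟩, h2⟩
      exact ⟨h1, h2⟩
  rw [h1]
  apply Finset.sum_le_sum_of_subset_of_nonneg (Finset.filter_subset _ _)
  intro A hA _
  exact hg A (Finset.mem_powerset.1 hA)

lemma ek_diff {a b : ℕ → ℝ} (T : Finset ℕ) (h0 : ∀ q ∈ T, 0 ≤ a q) (hab : ∀ q ∈ T, a q ≤ b q)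
    (K : ℕ) : ∑ k ∈ range K, (ek b k T - ek a k T) ≤
      (∑ q ∈ T, (b q - a q)) * Real.exp (∑ q ∈ T, b q) := by
  have h1 : ∀ k, ek b k T - ek a k T = ∑ A ∈ T.powersetCard k, (∏ q ∈ A, b q - ∏ q ∈ A, a q) := by
    intro k
    unfold ek
    rw [Finset.sum_sub_distrib]
  simp only [h1]
  refine (sum_card_le _ T (fun A hA => ?_) K).trans ?_
  · exact sub_nonneg.2 (Finset.prod_le_prod (fun q hq => h0 q (hA hq)) fun q hq => hab q (hA hq))
  rw [Finset.sum_sub_distrib, ← Finset.prod_one_add, ← Finset.prod_one_add]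
  refine (prod_diff T h0 hab).trans ?_
  apply mul_le_mul_of_nonneg_left
  · rw [Real.exp_sum]
    exact Finset.prod_le_prod (fun q hq => by
      have h1 := h0 q hq
      have h2 := hab q hq
      linarith) fun q _ => by
      have := Real.add_one_le_exp (b q)
      linarith
  · exact Finset.sum_nonneg fun q hq => sub_nonneg.2 (hab q hq)

/-! ## Additive errors -/

open Classical in
/-- additive errors for one tuple, treated from the largest element down -/
noncomputable def ae (E b : ℕ → ℝ) (A : Finset ℕ) : ℝ :=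
  ∑ p ∈ A, E p * ∏ q ∈ A.filter (fun q => p < q), b q

lemma ae_empty (E b : ℕ → ℝ) : ae E b ∅ = 0 := by
  unfold ae
  simp

lemma ae_insert (E b : ℕ → ℝ) {p : ℕ} {A : Finset ℕ} (h : ∀ q ∈ A, q < p) :
    ae E b (insert p A) = E p + b p * ae E b A := by
  classical
  have hp : p ∉ A := fun h1 => lt_irrefl _ (h p h1)
  unfold ae
  rw [Finset.sum_insert hp]
  congr 1
  · have h1 : (insert p A).filter (fun q => p < q) = ∅ := by
      rw [Finset.filter_eq_empty_iff]
      intro q hq
      rcases Finset.mem_insert.1 hq with h2 | h2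
      · rw [h2]; exact lt_irrefl _
      · exact not_lt.2 (h q h2).le
    rw [h1, Finset.prod_empty, mul_one]
  · rw [Finset.mul_sum]
    refine Finset.sum_congr rfl fun r hr => ?_
    have h1 : (insert p A).filter (fun q => r < q) = insert p (A.filter (fun q => r < q)) := by
      rw [Finset.filter_insert, if_pos (h r hr)]
    rw [h1, Finset.prod_insert (fun h2 => hp (Finset.mem_filter.1 h2).1)]
    ring

lemma ae_nonneg {E b : ℕ → ℝ} {A : Finset ℕ} (hE : ∀ p ∈ A, 0 ≤ E p) (hb : ∀ p ∈ A, 0 ≤ b p) :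
    0 ≤ ae E b A := by
  classical
  unfold ae
  exact Finset.sum_nonneg fun p hp => mul_nonneg (hE p hp)
    (Finset.prod_nonneg fun q hq => hb q (Finset.mem_filter.1 hq).1)

/-- the sum of the additive errors -/
lemma ae_sum {E b : ℕ → ℝ} (T : Finset ℕ) (hT : ∀ p ∈ T, 1 ≤ p) (hE : ∀ p ∈ T, 0 ≤ E p)
    (hb : ∀ p ∈ T, 0 ≤ b p) (k : ℕ) :
    ∑ A ∈ T.powersetCard k, ae E b A ≤
      (∏ q ∈ T, (1 + b q)) * ∑ p ∈ T, (p : ℝ) ^ k * E p := by
  classical
  induction T using Finset.induction_on_max generalizing k with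
  | empty =>
    cases k with
    | zero => simp [ae_empty]
    | succ k =>
      rw [Finset.powersetCard_eq_empty.2 (by simp), Finset.sum_empty]
      simp
  | insert p T hpT ih =>
    have hp : p ∉ T := fun h1 => lt_irrefl _ (hpT p h1)
    have hT' : ∀ q ∈ T, 1 ≤ q := fun q hq => hT q (Finset.mem_insert_of_mem hq)
    have hE' : ∀ q ∈ T, 0 ≤ E q := fun q hq => hE q (Finset.mem_insert_of_mem hq)
    have hb' : ∀ q ∈ T, 0 ≤ b q := fun q hq => hb q (Finset.mem_insert_of_mem hq)
    have hp1 : (1 : ℝ) ≤ p := by exact_mod_cast hT p (Finset.mem_insert_self _ _)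
    have hEp := hE p (Finset.mem_insert_self _ _)
    have hbp := hb p (Finset.mem_insert_self _ _)
    have hP1 : 1 ≤ ∏ q ∈ T, (1 + b q) := by
      have : ∏ q ∈ T, (1 : ℝ) ≤ ∏ q ∈ T, (1 + b q) :=
        Finset.prod_le_prod (fun _ _ => zero_le_one) fun q hq => by
          have := hb' q hq
          linarith
      simpa using this
    rw [Finset.prod_insert hp, Finset.sum_insert hp]
    set Pb := ∏ q ∈ T, (1 + b q) with hPb
    have hS0 : ∀ k, 0 ≤ ∑ q ∈ T, (q : ℝ) ^ k * E q := fun k =>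
      Finset.sum_nonneg fun q hq => mul_nonneg (by positivity) (hE' q hq)
    cases k with
    | zero =>
      simp only [Finset.powersetCard_zero, Finset.sum_singleton, ae_empty]
      have := hS0 0
      positivity
    | succ k =>
      rw [sum_insert_card _ hp]
      have h1 := ih hT' hE' hb' (k + 1)
      have h2 := ih hT' hE' hb' k
      have h3 : ∑ A ∈ T.powersetCard k, ae E b (insert p A) =
          (T.powersetCard k).card * E p + b p * ∑ A ∈ T.powersetCard k, ae E b A := by
        rw [Finset.mul_sum, ← nsmul_eq_mul, ← Finset.sum_const, ← Finset.sum_add_distrib]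
        refine Finset.sum_congr rfl fun A hA => ?_
        rw [Finset.mem_powersetCard] at hA
        exact ae_insert E b fun q hq => hpT q (hA.1 hq)
      have h4 : ((T.powersetCard k).card : ℝ) ≤ (p : ℝ) ^ (k + 1) := by
        rw [Finset.card_powersetCard]
        have h5 : T.card ≤ p := by
          have h6 : T ⊆ Finset.range p := fun q hq => Finset.mem_range.2 (hpT q hq)
          have := Finset.card_le_card h6
          rwa [Finset.card_range] at this
        have h6 : T.card.choose k ≤ T.card ^ k := Nat.choose_le_pow _ _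
        have h7 : (T.card.choose k : ℝ) ≤ (T.card : ℝ) ^ k := by exact_mod_cast h6
        have h8 : (T.card : ℝ) ≤ p := by exact_mod_cast h5
        calc (T.card.choose k : ℝ) ≤ (T.card : ℝ) ^ k := h7
          _ ≤ (p : ℝ) ^ k := by gcongr
          _ ≤ (p : ℝ) ^ (k + 1) := pow_le_pow_right₀ hp1 (by omega)
      have h5 : ∑ q ∈ T, (q : ℝ) ^ k * E q ≤ ∑ q ∈ T, (q : ℝ) ^ (k + 1) * E q := by
        refine Finset.sum_le_sum fun q hq => ?_
        apply mul_le_mul_of_nonneg_right _ (hE' q hq)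
        exact pow_le_pow_right₀ (by exact_mod_cast hT' q hq) (by omega)
      rw [h3]
      set S := ∑ q ∈ T, (q : ℝ) ^ (k + 1) * E q with hS
      have h6 : b p * ∑ A ∈ T.powersetCard k, ae E b A ≤ b p * (Pb * S) := by
        apply mul_le_mul_of_nonneg_left _ hbp
        exact h2.trans (mul_le_mul_of_nonneg_left h5 (by linarith))
      have h7 : ((T.powersetCard k).card : ℝ) * E p ≤ (p : ℝ) ^ (k + 1) * E p :=
        mul_le_mul_of_nonneg_right h4 hEp
      have h8 : (p : ℝ) ^ (k + 1) * E p ≤ (1 + b p) * Pb * ((p : ℝ) ^ (k + 1) * E p) := by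
        have h9 : 1 ≤ (1 + b p) * Pb := by nlinarith
        have h10 : 0 ≤ (p : ℝ) ^ (k + 1) * E p := by positivity
        nlinarith
      calc _ ≤ Pb * S + ((p : ℝ) ^ (k + 1) * E p + b p * (Pb * S)) := by linarith
        _ ≤ Pb * S + ((1 + b p) * Pb * ((p : ℝ) ^ (k + 1) * E p) + b p * (Pb * S)) := by linarith
        _ = _ := by ring

end Pool.Agent.K9h18.AP
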