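import Mathlib

set_option autoImplicit false

/-!
# Directions which move one value only (Lagrange interpolation at the points `1 / q`)
-/

open Finset

namespace Pool.Agent.K9h18.AP

/-- multiplication by `X - a` -/
noncomputable def mulX (a : ℝ) (v : ℕ → ℝ) : ℕ → ℝ := fun j => (if j = 0 then 0 else v (j - 1)) - a * v j

lemma mulX_eval (a x : ℝ) {v : ℕ → ℝ} {k : ℕ} (hv : ∀ j, k ≤ j → v j = 0) :
    ∑ j ∈ range (k + 1), mulX a v j * x ^ j = (x - a) * ∑ j ∈ range k, v j * x ^ j := by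
  have h1 : ∀ j, mulX a v j * x ^ j = (if j = 0 then 0 else v (j - 1)) * x ^ j - a * (v j * x ^ j) := by
    intro j
    unfold mulX
    ring
  simp only [h1]
  rw [Finset.sum_sub_distrib, ← Finset.mul_sum, Finset.sum_range_succ', Finset.sum_range_succ _ k,
    hv k le_rfl]
  simp only [Nat.succ_ne_zero, if_false, if_true, Nat.add_sub_cancel, zero_mul, add_zero]
  rw [sub_mul]
  congr 1
  rw [Finset.mul_sum]
  refine Finset.sum_congr rfl fun j _ => ?_
  rw [pow_succ]
  ring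

lemma mulX_l1 (a : ℝ) {v : ℕ → ℝ} {k : ℕ} (hv : ∀ j, k ≤ j → v j = 0) :
    ∑ j ∈ range (k + 1), |mulX a v j| ≤ (1 + |a|) * ∑ j ∈ range k, |v j| := by
  have h1 : ∀ j, |mulX a v j| ≤ (if j = 0 then 0 else |v (j - 1)|) + |a| * |v j| := by
    intro j
    unfold mulX
    refine (abs_sub _ _).trans ?_
    rw [abs_mul]
    gcongr
    split_ifs
    · simp
    · exact le_rfl
  refine (Finset.sum_le_sum fun j _ => h1 j).trans ?_
  rw [Finset.sum_add_distrib, ← Finset.mul_sum, Finset.sum_range_succ', Finset.sum_range_succ _ k,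
    hv k le_rfl]
  simp only [Nat.succ_ne_zero, if_false, if_true, Nat.add_sub_cancel, abs_zero, add_zero]
  linarith

lemma mulX_supp (a : ℝ) {v : ℕ → ℝ} {k : ℕ} (hv : ∀ j, k ≤ j → v j = 0) :
    ∀ j, k + 1 ≤ j → mulX a v j = 0 := by
  intro j hj
  unfold mulX
  rw [if_neg (by omega), hv (j - 1) (by omega), hv j (by omega)]
  ring

/-- the factor for one more point -/
lemma fac_le {p r : ℕ} (hp : 1 ≤ p) (hr : 1 ≤ r) (hpr : p ≠ r) :
    (1 + |1 / (r : ℝ)|) / |1 / (p : ℝ) - 1 / r| ≤ 4 * (p : ℝ) ^ 2 := by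
  have hp0 : (0 : ℝ) < p := by exact_mod_cast hp
  have hr0 : (0 : ℝ) < r := by exact_mod_cast hr
  have hp1 : (1 : ℝ) ≤ p := by exact_mod_cast hp
  have hr1 : (1 : ℝ) ≤ r := by exact_mod_cast hr
  rw [abs_of_pos (by positivity : (0 : ℝ) < 1 / r)]
  have e1 : (1 : ℝ) / p - 1 / r = (r - p) / (p * r) := by
    field_simp
  rw [e1, abs_div, abs_of_pos (by positivity : (0 : ℝ) < p * r), div_div_eq_mul_div]
  have e2 : (1 + 1 / (r : ℝ)) * (p * r) = (r + 1) * p := by
    field_simp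
  rw [e2]
  rcases lt_or_gt_of_ne hpr with h | h
  · have h1 : (p : ℝ) + 1 ≤ r := by exact_mod_cast h
    rw [abs_of_pos (by linarith), div_le_iff₀ (by linarith)]
    -- `(r + 1) p ≤ 4 p ^ 2 (r - p)`
    have h2 : (r : ℝ) + 1 ≤ 4 * p * (r - p) := by nlinarith
    calc ((r : ℝ) + 1) * p ≤ 4 * p * (r - p) * p := by gcongr
      _ = _ := by ring
  · have h1 : (r : ℝ) + 1 ≤ p := by exact_mod_cast h
    rw [abs_of_neg (by linarith), div_le_iff₀ (by linarith)]
    have h2 : ((r : ℝ) + 1) * p ≤ p * p := by gcongr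
    nlinarith

/-- **A short vector which moves the value at `p` and no value at a point of `A`.** -/
theorem dir {p : ℕ} (hp : 1 ≤ p) (A : Finset ℕ) (hA : ∀ q ∈ A, 1 ≤ q) (hpA : p ∉ A) :
    ∃ v : ℕ → ℝ, (∀ j, A.card + 1 ≤ j → v j = 0) ∧
      ∑ j ∈ range (A.card + 1), |v j| ≤ (4 * (p : ℝ) ^ 2) ^ A.card ∧
      ∑ j ∈ range (A.card + 1), v j * (1 / (p : ℝ)) ^ j = 1 ∧
      ∀ q ∈ A, ∑ j ∈ range (A.card + 1), v j * (1 / (q : ℝ)) ^ j = 0 := by
  classical
  induction A using Finset.induction_on with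
  | empty =>
    refine ⟨fun j => if j = 0 then 1 else 0, fun j hj => ?_, ?_, ?_, ?_⟩
    · simp only [Finset.card_empty] at hj
      have h1 : j ≠ 0 := by omega
      simp only [h1, if_false]
    · simp
    · simp
    · simp
  | insert r A hrA ih =>
    have hpr : p ≠ r := fun h => hpA (h ▸ Finset.mem_insert_self r A)
    have hr1 : 1 ≤ r := hA r (Finset.mem_insert_self _ _)
    obtain ⟨v, h1, h2, h3, h4⟩ := ih (fun q hq => hA q (Finset.mem_insert_of_mem hq))
      (fun h => hpA (Finset.mem_insert_of_mem h))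
    have hp0 : (0 : ℝ) < p := by exact_mod_cast hp
    have hr0 : (0 : ℝ) < r := by exact_mod_cast hr1
    set d : ℝ := 1 / (p : ℝ) - 1 / r with hd
    have hd0 : d ≠ 0 := by
      rw [hd, sub_ne_zero]
      intro h
      rw [one_div, one_div, inv_inj] at h
      exact hpr (by exact_mod_cast h)
    rw [Finset.card_insert_of_notMem hrA]
    refine ⟨fun j => mulX (1 / r) v j / d, fun j hj => ?_, ?_, ?_, ?_⟩
    · simp only [mulX_supp (1 / (r : ℝ)) h1 j hj, zero_div]
    · have h5 : ∀ j, |mulX (1 / (r : ℝ)) v j / d| = |mulX (1 / (r : ℝ)) v j| / |d| := fun j =>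
        abs_div _ _
      simp only [h5]
      rw [← Finset.sum_div]
      have h6 := mulX_l1 (1 / (r : ℝ)) h1
      have h7 := fac_le hp hr1 hpr
      rw [← hd] at h7
      calc (∑ j ∈ range (A.card + 1 + 1), |mulX (1 / (r : ℝ)) v j|) / |d| ≤
            ((1 + |1 / (r : ℝ)|) * ∑ j ∈ range (A.card + 1), |v j|) / |d| := by gcongr
        _ = (1 + |1 / (r : ℝ)|) / |d| * ∑ j ∈ range (A.card + 1), |v j| := by ring
        _ ≤ 4 * (p : ℝ) ^ 2 * (4 * (p : ℝ) ^ 2) ^ A.card := by gcongr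
        _ = _ := by rw [pow_succ]; ring
    · have h5 : ∀ j, mulX (1 / (r : ℝ)) v j / d * (1 / (p : ℝ)) ^ j =
          (mulX (1 / (r : ℝ)) v j * (1 / (p : ℝ)) ^ j) / d := fun j => by ring
      simp only [h5]
      rw [← Finset.sum_div, mulX_eval _ _ h1, h3, mul_one, ← hd, div_self hd0]
    · intro q hq
      have h5 : ∀ j, mulX (1 / (r : ℝ)) v j / d * (1 / (q : ℝ)) ^ j =
          (mulX (1 / (r : ℝ)) v j * (1 / (q : ℝ)) ^ j) / d := fun j => by ring
      simp only [h5]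
      rw [← Finset.sum_div, mulX_eval _ _ h1]
      rcases Finset.mem_insert.1 hq with h6 | h6
      · rw [h6, sub_self, zero_mul, zero_div]
      · rw [h4 q h6, mul_zero, zero_div]

end Pool.Agent.K9h18.AP
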