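import Pool.Agent.K9h18.AP.Sp
import Pool.Agent.K9h18.AP.Dir
import Pool.Agent.K9h18.HS.Far

set_option autoImplicit false

/-!
# The model: `A p - ⌊2 ^ (e p) * Σ c_j p ^ (-j)⌋`
-/

open Finset Filter Topology MeasureTheory

namespace Pool.Agent.K9h18.AP

open Pool.Agent.H305R2 (roughPart)
open Pool.Agent.TH888.R (wt wt_nonneg wt_le_one)
open Pool.Agent.K9h18.HS (mu1 ind ind_nonneg ind_le_one kc kc_pos rough_count)

/-- truncation -/
noncomputable def cl (x : ℝ) : ℝ := max (-1) (min x 2)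

lemma cl_cont : Continuous cl := continuous_const.max (continuous_id.min continuous_const)

lemma cl_eq {x : ℝ} (h1 : -1 ≤ x) (h2 : x ≤ 2) : cl x = x := by
  unfold cl
  rw [min_eq_left h2, max_eq_right h1]

lemma cl_abs (x : ℝ) : |cl x| ≤ 2 := by
  unfold cl
  rw [abs_le]
  constructor
  · exact le_trans (by norm_num) (le_max_left _ _)
  · exact max_le (by norm_num) (min_le_right _ _)

/-- the value at `1 / p` of the power series -/
noncomputable def yy (p : ℕ) (c : ℕ → ℝ) : ℝ := if 2 ≤ p then ∑' j, cl (c j) * (1 / (p : ℝ)) ^ j else 0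

lemma geo_sum {p : ℕ} (hp : 2 ≤ p) : Summable (fun j : ℕ => (1 / (p : ℝ)) ^ j) := by
  have hp0 : (2 : ℝ) ≤ p := by exact_mod_cast hp
  apply summable_geometric_of_lt_one (by positivity)
  rw [div_lt_one (by linarith)]
  linarith

lemma yy_meas (p : ℕ) : Measurable (yy p) := by
  by_cases hp : 2 ≤ p
  · have h1 : Continuous (yy p) := by
      have h2 : yy p = fun c => ∑' j, cl (c j) * (1 / (p : ℝ)) ^ j := by
        ext c
        unfold yy
        rw [if_pos hp]
      rw [h2]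
      refine continuous_tsum (u := fun j => 2 * (1 / (p : ℝ)) ^ j)
        (fun j => (cl_cont.comp (continuous_apply j)).mul continuous_const)
        ((geo_sum hp).mul_left 2) fun j c => ?_
      rw [Real.norm_eq_abs, abs_mul, abs_of_nonneg (by positivity : (0 : ℝ) ≤ (1 / (p : ℝ)) ^ j)]
      exact mul_le_mul_of_nonneg_right (cl_abs _) (by positivity)
    exact h1.measurable
  · have h2 : yy p = fun _ => 0 := by
      ext c
      unfold yy
      rw [if_neg hp]
    rw [h2]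
    exact measurable_const

/-- the box -/
def Bx (c : ℕ → ℝ) : Prop := ∀ j, 0 < c j ∧ c j ≤ 1

lemma yy_box {p : ℕ} (hp : 2 ≤ p) {c : ℕ → ℝ} (hc : Bx c) :
    yy p c = ∑' j, c j * (1 / (p : ℝ)) ^ j := by
  unfold yy
  rw [if_pos hp]
  refine tsum_congr fun j => ?_
  rw [cl_eq (by have := (hc j).1; linarith) (by have := (hc j).2; linarith)]

lemma box_summable {p : ℕ} (hp : 2 ≤ p) {c : ℕ → ℝ} (hc : Bx c) :
    Summable fun j => c j * (1 / (p : ℝ)) ^ j :=
  Summable.of_nonneg_of_le (fun j => mul_nonneg (hc j).1.le (by positivity))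
    (fun j => by
      calc c j * (1 / (p : ℝ)) ^ j ≤ 1 * (1 / (p : ℝ)) ^ j :=
            mul_le_mul_of_nonneg_right (hc j).2 (by positivity)
        _ = _ := one_mul _) (geo_sum hp)

lemma yy_nonneg {p : ℕ} (hp : 2 ≤ p) {c : ℕ → ℝ} (hc : Bx c) : 0 ≤ yy p c := by
  rw [yy_box hp hc]
  exact tsum_nonneg fun j => mul_nonneg (hc j).1.le (by positivity)

lemma yy_le {p : ℕ} (hp : 3 ≤ p) {c : ℕ → ℝ} (hc : Bx c) : yy p c ≤ 3 / 2 := by
  rw [yy_box (by omega) hc]
  have hp0 : (3 : ℝ) ≤ p := by exact_mod_cast hp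
  have h1 : ∑' j, c j * (1 / (p : ℝ)) ^ j ≤ ∑' j : ℕ, (1 / (p : ℝ)) ^ j :=
    (box_summable (by omega) hc).tsum_le_tsum (fun j => by
      calc c j * (1 / (p : ℝ)) ^ j ≤ 1 * (1 / (p : ℝ)) ^ j :=
            mul_le_mul_of_nonneg_right (hc j).2 (by positivity)
        _ = _ := one_mul _) (geo_sum (by omega))
  refine h1.trans ?_
  rw [tsum_geometric_of_lt_one (by positivity) (by rw [div_lt_one (by linarith)]; linarith)]
  have h2 : (2 : ℝ) / 3 ≤ 1 - 1 / p := by
    have : (1 : ℝ) / p ≤ 1 / 3 := one_div_le_one_div_of_le (by norm_num) hp0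
    linarith
  calc (1 - 1 / (p : ℝ))⁻¹ ≤ (2 / 3 : ℝ)⁻¹ := inv_anti₀ (by norm_num) h2
    _ = 3 / 2 := by norm_num

/-- the effect of a shift -/
lemma yy_sh {p : ℕ} (hp : 2 ≤ p) {c v : ℕ → ℝ} (hc : Bx c) {k : ℕ} (hv : ∀ j, k ≤ j → v j = 0)
    (hv1 : ∀ j, |v j| ≤ 1) : yy p (sh v c) = yy p c + ∑ j ∈ range k, v j * (1 / (p : ℝ)) ^ j := by
  have h1 : yy p (sh v c) = ∑' j, (c j * (1 / (p : ℝ)) ^ j + v j * (1 / (p : ℝ)) ^ j) := by
    unfold yy
    rw [if_pos hp]
    refine tsum_congr fun j => ?_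
    have h2 := abs_le.1 (hv1 j)
    have h3 := hc j
    unfold sh
    rw [cl_eq (by linarith) (by linarith)]
    ring
  have h2 : ∑' j, v j * (1 / (p : ℝ)) ^ j = ∑ j ∈ range k, v j * (1 / (p : ℝ)) ^ j :=
    tsum_eq_sum fun j hj => by rw [hv j (by simpa using hj), zero_mul]
  have h3 : Summable fun j => v j * (1 / (p : ℝ)) ^ j :=
    summable_of_ne_finset_zero (s := range k) fun j hj => by rw [hv j (by simpa using hj), zero_mul]
  rw [h1, (box_summable hp hc).tsum_add h3, h2, yy_box hp hc]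

lemma abs_le_l1 {v : ℕ → ℝ} {k : ℕ} (hv : ∀ j, k ≤ j → v j = 0) (j : ℕ) :
    |v j| ≤ ∑ i ∈ range k, |v i| := by
  rcases lt_or_ge j k with h | h
  · exact Finset.single_le_sum (f := fun i => |v i|) (fun i _ => abs_nonneg _) (Finset.mem_range.2 h)
  · rw [hv j h, abs_zero]
    exact Finset.sum_nonneg fun i _ => abs_nonneg _

/-! ## Steps -/

lemma step_int (u : ℕ → ℝ) (hu : ∀ n, |u n| ≤ 1) (a n : ℕ) :
    ∫ s in (a : ℝ)..(a + n), u ⌊s⌋₊ = ∑ j ∈ range n, u (a + j) := by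
  have hm : Measurable fun s : ℝ => u ⌊s⌋₊ := (measurable_from_top (f := u)).comp Nat.measurable_floor
  have hint : ∀ x y : ℝ, IntervalIntegrable (fun s : ℝ => u ⌊s⌋₊) volume x y := fun x y => by
    rw [intervalIntegrable_iff]
    exact Measure.integrableOn_of_bounded (M := 1) (by simp) hm.aestronglyMeasurable
      (Eventually.of_forall fun x => hu _)
  induction n with
  | zero => simp
  | succ n ih =>
    rw [Finset.sum_range_succ, ← ih]
    push_cast
    rw [← intervalIntegral.integral_add_adjacent_intervals (hint a (a + n)) (hint (a + n) _)]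
    congr 1
    have h1 : ∫ s in ((a : ℝ) + n)..(a + (n + 1)), u ⌊s⌋₊ =
        ∫ s in ((a : ℝ) + n)..(a + (n + 1)), u (a + n) := by
      rw [intervalIntegral.integral_of_le (by linarith), intervalIntegral.integral_of_le (by linarith),
        ← integral_Ico_eq_integral_Ioc, ← integral_Ico_eq_integral_Ioc]
      refine setIntegral_congr_fun measurableSet_Ico fun s hs => ?_
      congr 1
      have h0 : (0 : ℝ) ≤ s := by
        have := hs.1
        have h00 : (0 : ℝ) ≤ (a : ℝ) + n := by positivity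
        linarith
      rw [Nat.floor_eq_iff h0]
      push_cast
      exact ⟨hs.1, by have := hs.2; linarith⟩
    rw [h1, intervalIntegral.integral_const]
    simp

lemma step_near (u : ℕ → ℝ) (hu : ∀ n, |u n| ≤ 1) {Y : ℝ} (hY : 0 ≤ Y) (n : ℕ) :
    |(∫ s in Y..(Y + n), u ⌊s⌋₊) - ∑ j ∈ range n, u (⌊Y⌋₊ + j)| ≤ 2 := by
  have hm : Measurable fun s : ℝ => u ⌊s⌋₊ := (measurable_from_top (f := u)).comp Nat.measurable_floor
  have hint : ∀ x y : ℝ, IntervalIntegrable (fun s : ℝ => u ⌊s⌋₊) volume x y := fun x y => by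
    rw [intervalIntegrable_iff]
    exact Measure.integrableOn_of_bounded (M := 1) (by simp) hm.aestronglyMeasurable
      (Eventually.of_forall fun x => hu _)
  set a := ⌊Y⌋₊ with ha
  have h1 : (a : ℝ) ≤ Y := Nat.floor_le hY
  have h2 : Y < a + 1 := Nat.lt_floor_add_one Y
  rw [← step_int u hu a n]
  have e1 : ∫ s in Y..(Y + n), u ⌊s⌋₊ = (∫ s in Y..(a : ℝ), u ⌊s⌋₊) + (∫ s in (a : ℝ)..(a + n), u ⌊s⌋₊) +
      ∫ s in ((a : ℝ) + n)..(Y + n), u ⌊s⌋₊ := by
    rw [intervalIntegral.integral_add_adjacent_intervals (hint _ _) (hint _ _),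
      intervalIntegral.integral_add_adjacent_intervals (hint _ _) (hint _ _)]
  have h3 : |∫ s in Y..(a : ℝ), u ⌊s⌋₊| ≤ 1 := by
    have := intervalIntegral.norm_integral_le_of_norm_le_const (a := Y) (b := a)
      (f := fun s : ℝ => u ⌊s⌋₊) (C := 1) (fun x _ => hu _)
    refine this.trans ?_
    rw [one_mul, abs_le]
    constructor <;> linarith
  have h4 : |∫ s in ((a : ℝ) + n)..(Y + n), u ⌊s⌋₊| ≤ 1 := by
    have := intervalIntegral.norm_integral_le_of_norm_le_const (a := (a : ℝ) + n) (b := Y + n)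
      (f := fun s : ℝ => u ⌊s⌋₊) (C := 1) (fun x _ => hu _)
    refine this.trans ?_
    rw [one_mul, abs_le]
    constructor <;> linarith
  rw [e1]
  have e2 : (∫ s in Y..(a : ℝ), u ⌊s⌋₊) + (∫ s in (a : ℝ)..(a + n), u ⌊s⌋₊) +
      (∫ s in ((a : ℝ) + n)..(Y + n), u ⌊s⌋₊) - ∫ s in (a : ℝ)..(a + n), u ⌊s⌋₊ =
      (∫ s in Y..(a : ℝ), u ⌊s⌋₊) + ∫ s in ((a : ℝ) + n)..(Y + n), u ⌊s⌋₊ := by ring
  rw [e2]
  refine (abs_add_le _ _).trans ?_
  linarith

lemma sum_down (f : ℕ → ℝ) {N n : ℕ} (h : n ≤ N) :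
    ∑ j ∈ range n, f (N - j) = ∑ m ∈ Finset.Ioc (N - n) N, f m := by
  refine Finset.sum_nbij' (fun j => N - j) (fun m => N - m) ?_ ?_ ?_ ?_ ?_
  · intro j hj
    rw [Finset.mem_range] at hj
    rw [Finset.mem_Ioc]
    omega
  · intro m hm
    rw [Finset.mem_Ioc] at hm
    rw [Finset.mem_range]
    omega
  · intro j hj
    rw [Finset.mem_range] at hj
    omega
  · intro m hm
    rw [Finset.mem_Ioc] at hm
    omega
  · intro j _
    rfl

/-! ## The model -/

/-- the exponents `e` and the numbers `A` -/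
structure Md (η : ℝ) (e A : ℕ → ℕ) : Prop where
  pos : 0 < η
  lt : η < 1 / 4
  up : ∀ p, e p ≤ p
  low : ∃ P : ℕ, ∀ p ≥ P, (3 / 4 + 2 * η) * p ≤ e p
  A1 : ∃ P : ℕ, ∀ p ≥ P, 2 ^ (p - 2) + 3 * 2 ^ (e p) ≤ A p
  A2 : ∃ P : ℕ, ∀ p ≥ P, A p ≤ 2 ^ p

/-- the indicator as a function of the value of the power series -/
noncomputable def FF (e A : ℕ → ℕ) (p : ℕ) (y : ℝ) : ℝ := ind p (A p - ⌊2 ^ (e p) * y⌋₊)

lemma FF_meas (e A : ℕ → ℕ) (p : ℕ) : Measurable (FF e A p) :=
  (measurable_from_top (f := fun j : ℕ => ind p (A p - j))).comp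
    (Nat.measurable_floor.comp (measurable_id.const_mul _))

lemma FF_nonneg (e A : ℕ → ℕ) (p : ℕ) (y : ℝ) : 0 ≤ FF e A p y := ind_nonneg _ _

lemma FF_le_one (e A : ℕ → ℕ) (p : ℕ) (y : ℝ) : FF e A p y ≤ 1 := ind_le_one _ _

/-- the length of the windows is `2 ^ (-g)` -/
noncomputable def gp (η : ℝ) (p : ℕ) : ℕ := ⌊η * p⌋₊

noncomputable def hh (η : ℝ) (p : ℕ) : ℝ := (1 / 2) ^ gp η p

lemma hh_pos (η : ℝ) (p : ℕ) : 0 < hh η p := by unfold hh; positivity

lemma hh_le_one (η : ℝ) (p : ℕ) : hh η p ≤ 1 := pow_le_one₀ (by norm_num) (by norm_num)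

lemma hh_le (η : ℝ) (p : ℕ) : hh η p ≤ 2 * Real.exp (-(Real.log 2 * η * p)) := by
  unfold hh
  have h1 : η * p < gp η p + 1 := Nat.lt_floor_add_one _
  have h2 : ((1 : ℝ) / 2) ^ gp η p = Real.exp (-(Real.log 2 * gp η p)) := by
    rw [one_div, inv_pow, ← Real.exp_log (show (0 : ℝ) < 2 by norm_num), ← Real.exp_nat_mul,
      ← Real.exp_neg, Real.log_exp]
    congr 1
    ring
  have hl : 0 < Real.log 2 := Real.log_pos (by norm_num)
  have h3 : (2 : ℝ) * Real.exp (-(Real.log 2 * η * p)) =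
      Real.exp (Real.log 2 + -(Real.log 2 * η * p)) := by
    rw [Real.exp_add, Real.exp_log (by norm_num)]
  rw [h2, h3, Real.exp_le_exp]
  nlinarith

/-- **The mean over a short window of values of the power series.** -/
theorem win_mean (hPV : Pool.Agent.N176.OW.S_PV) {η : ℝ} {e A : ℕ → ℕ} (hM : Md η e A) :
    ∃ K : ℝ, 0 < K ∧ ∃ P : ℕ, ∀ p ≥ P, ∀ y : ℝ, 0 ≤ y → y ≤ 3 / 2 →
      |(∫ t in (0 : ℝ)..(hh η p), FF e A p (y + t)) - hh η p * (kc * wt p)| ≤ hh η p * (K / p) := by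
  obtain ⟨K, hK, P1, hrc⟩ := rough_count hPV hM.pos hM.lt
  obtain ⟨P2, hlow⟩ := hM.low
  obtain ⟨P3, hA1⟩ := hM.A1
  obtain ⟨P4, hA2⟩ := hM.A2
  have hη := hM.pos
  have hη4 := hM.lt
  -- `4 p ≤ 2 ^ g`
  have hev : ∀ᶠ p : ℕ in atTop, 4 * (p : ℝ) ≤ 2 ^ gp η p := by
    have h0 : Tendsto (fun p : ℕ => η * (p : ℝ)) atTop atTop :=
      tendsto_natCast_atTop_atTop.const_mul_atTop hη
    have h1 : Tendsto (fun x : ℝ => x ^ 1 * Real.exp (-x)) atTop (𝓝 0) :=
      Real.tendsto_pow_mul_exp_neg_atTop_nhds_zero 1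
    have h2 : Tendsto (fun x : ℝ => Real.log 2 * x) atTop atTop :=
      tendsto_id.const_mul_atTop (Real.log_pos (by norm_num))
    have h3 := (h1.comp (h2.comp h0)).eventually_le_const
      (show (0 : ℝ) < Real.log 2 * η / 8 by have := Real.log_pos (show (1 : ℝ) < 2 by norm_num); positivity)
    filter_upwards [h3, eventually_ge_atTop 1] with p hp hp1
    simp only [Function.comp, pow_one] at hp
    have hl : 0 < Real.log 2 := Real.log_pos (by norm_num)
    have hp0 : (0 : ℝ) < p := by exact_mod_cast hp1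
    have h4 := hh_le η p
    unfold hh at h4
    have h5 : (1 / 2 : ℝ) ^ gp η p = 1 / 2 ^ gp η p := by rw [one_div, inv_pow, one_div]
    rw [h5] at h4
    have h6 : Real.log 2 * (η * p) * Real.exp (-(Real.log 2 * (η * p))) ≤ Real.log 2 * η / 8 := hp
    have h7 : (p : ℝ) * Real.exp (-(Real.log 2 * η * p)) ≤ 1 / 8 := by
      have e1 : Real.log 2 * (η * p) * Real.exp (-(Real.log 2 * (η * p))) =
          (Real.log 2 * η) * (p * Real.exp (-(Real.log 2 * η * p))) := by
        rw [show Real.log 2 * (η * p) = Real.log 2 * η * p by ring]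
        ring
      rw [e1] at h6
      have h8 : 0 < Real.log 2 * η := by positivity
      have h9 : (Real.log 2 * η) * (p * Real.exp (-(Real.log 2 * η * p))) ≤ (Real.log 2 * η) * (1 / 8) := by
        linarith
      exact le_of_mul_le_mul_left h9 h8
    have h8 : (0 : ℝ) < 2 ^ gp η p := by positivity
    have h9 : 1 / (2 : ℝ) ^ gp η p * (4 * p) ≤ 1 := by
      calc 1 / (2 : ℝ) ^ gp η p * (4 * p) ≤ 2 * Real.exp (-(Real.log 2 * η * p)) * (4 * p) := by gcongr
        _ = 8 * (p * Real.exp (-(Real.log 2 * η * p))) := by ring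
        _ ≤ 8 * (1 / 8) := by gcongr
        _ = 1 := by norm_num
    rw [one_div_mul_eq_div, div_le_one h8] at h9
    exact h9
  obtain ⟨P5, hev⟩ := eventually_atTop.1 hev
  refine ⟨K + 1, by positivity, P1 + P2 + P3 + P4 + P5 + 4, fun p hp y hy0 hy1 => ?_⟩
  have hp0 : (0 : ℝ) < p := by exact_mod_cast (by omega : 0 < p)
  have hlowp := hlow p (by omega)
  have hA1p := hA1 p (by omega)
  have hA2p := hA2 p (by omega)
  have h4p := hev p (by omega)
  set g := gp η p with hg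
  have hgle : (g : ℝ) ≤ η * p := Nat.floor_le (by positivity)
  have hge : g ≤ e p := by
    have : (g : ℝ) ≤ e p := by nlinarith
    exact_mod_cast this
  set n : ℕ := 2 ^ (e p - g) with hn
  have hnr : (n : ℝ) = 2 ^ (e p) * hh η p := by
    rw [hn]
    unfold hh
    rw [← hg]
    push_cast
    rw [pow_sub₀ _ (by norm_num) hge]
    congr 1
    rw [one_div, inv_pow]
  set u : ℕ → ℝ := fun j => ind p (A p - j) with hu
  have hu1 : ∀ j, |u j| ≤ 1 := fun j => by
    rw [abs_of_nonneg (ind_nonneg _ _)]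
    exact ind_le_one _ _
  have h2e : (0 : ℝ) < 2 ^ (e p) := by positivity
  -- change of variables
  have hcv : ∫ t in (0 : ℝ)..(hh η p), FF e A p (y + t) =
      (1 / 2 ^ (e p)) * ∫ s in (2 ^ (e p) * y)..(2 ^ (e p) * y + n), u ⌊s⌋₊ := by
    have h1 := intervalIntegral.integral_comp_mul_add (a := 0) (b := hh η p)
      (fun s : ℝ => u ⌊s⌋₊) (c := 2 ^ (e p)) h2e.ne' (2 ^ (e p) * y)
    have h2 : ∀ t : ℝ, FF e A p (y + t) = u ⌊2 ^ (e p) * t + 2 ^ (e p) * y⌋₊ := by
      intro t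
      unfold FF
      simp only [hu]
      congr 3
      ring
    simp only [h2]
    rw [h1, hnr, mul_zero, zero_add, smul_eq_mul, one_div, add_comm (2 ^ (e p) * hh η p)]
  have hY0 : (0 : ℝ) ≤ 2 ^ (e p) * y := by positivity
  have hst := step_near u hu1 hY0 n
  set a := ⌊(2 : ℝ) ^ (e p) * y⌋₊ with ha
  have haR : (a : ℝ) ≤ 2 ^ (e p) * y := Nat.floor_le hY0
  have ha2 : a + n ≤ 3 * 2 ^ (e p) := by
    have h1 : (a : ℝ) + n ≤ 3 * 2 ^ (e p) := by
      have h2 : (2 : ℝ) ^ (e p) * y ≤ 2 ^ (e p) * (3 / 2) := mul_le_mul_of_nonneg_left hy1 h2e.le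
      have h3 : (n : ℝ) ≤ 2 ^ (e p) * 1 := by
        rw [hnr]
        exact mul_le_mul_of_nonneg_left (hh_le_one _ _) h2e.le
      linarith
    exact_mod_cast h1
  -- the count
  have h2p : 1 ≤ 2 ^ (p - 2) := Nat.one_le_two_pow
  have h2q : 1 ≤ 2 ^ (e p - g) := Nat.one_le_two_pow
  have h2r : 1 ≤ 2 ^ (e p) := Nat.one_le_two_pow
  have hsum : ∑ j ∈ range n, u (a + j) =
      (((Finset.Ioc (A p - a - n) (A p - a)).filter (fun m => (roughPart p m).Prime)).card : ℝ) := by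
    have h1 : ∀ j, u (a + j) = (fun m => ind p m) (A p - a - j) := by
      intro j
      simp only [hu]
      congr 1
      omega
    simp only [h1]
    rw [sum_down (fun m => ind p m) (by omega), Finset.card_eq_sum_ones, Finset.sum_filter]
    push_cast
    rfl
  have hA' : 2 ^ (p - 2) ≤ A p - a - n := by omega
  have hBA : (((A p - a : ℕ) : ℝ) - ((A p - a - n : ℕ) : ℝ)) = n := by
    rw [Nat.cast_sub (by omega : n ≤ A p - a)]
    ring
  have hr := hrc p (by omega) (A p - a - n) (A p - a) hA' (by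
      have : (2 : ℕ) ^ p ≤ 2 ^ (p + 1) := Nat.pow_le_pow_right (by norm_num) (by omega)
      omega) (by omega) (by
      rw [hBA]
      -- `n p ≤ 2 ^ (p - 2)`
      have h1 : (n : ℝ) * p ≤ 2 ^ (p - 2) := by
        have h2 : (n : ℝ) * 2 ^ g ≤ 2 ^ p := by
          rw [hn]
          push_cast
          rw [← pow_add]
          apply pow_le_pow_right₀ (by norm_num)
          have := hM.up p
          omega
        have h3 : (2 : ℝ) ^ p = 2 ^ (p - 2) * 4 := by
          rw [show (4 : ℝ) = 2 ^ 2 by norm_num, ← pow_add]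
          congr 1
          omega
        have h4 : (n : ℝ) * (4 * p) ≤ n * 2 ^ g := mul_le_mul_of_nonneg_left h4p (by positivity)
        linarith
      refine h1.trans ?_
      exact_mod_cast hA') (by
      rw [hBA, hn]
      push_cast
      rw [← Real.rpow_natCast, Real.rpow_def_of_pos (by norm_num), Real.exp_le_exp,
        Nat.cast_sub hge]
      have hl : 0 < Real.log 2 := Real.log_pos (by norm_num)
      have h1 : (3 / 4 + η) * p ≤ (e p : ℝ) - g := by linarith
      calc (3 / 4 + η) * (p * Real.log 2) = (3 / 4 + η) * p * Real.log 2 := by ring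
        _ ≤ ((e p : ℝ) - g) * Real.log 2 := mul_le_mul_of_nonneg_right h1 hl.le
        _ = _ := by ring)
  rw [hBA, ← hsum] at hr
  rw [hcv]
  have hkw : (n : ℝ) * (Real.exp Real.eulerMascheroniConstant / Real.log 2 * (Real.log p / p)) =
      n * (kc * wt p) := rfl
  rw [hkw] at hr
  have h1 : |(∫ s in (2 ^ (e p) * y)..(2 ^ (e p) * y + n), u ⌊s⌋₊) - n * (kc * wt p)| ≤
      2 + K * (n / p) := by
    have := abs_sub_le (∫ s in (2 ^ (e p) * y)..(2 ^ (e p) * y + n), u ⌊s⌋₊)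
      (∑ j ∈ range n, u (a + j)) (n * (kc * wt p))
    linarith
  have h2 : (1 / 2 ^ (e p) : ℝ) * (∫ s in (2 ^ (e p) * y)..(2 ^ (e p) * y + n), u ⌊s⌋₊) -
      hh η p * (kc * wt p) = (1 / 2 ^ (e p)) *
      ((∫ s in (2 ^ (e p) * y)..(2 ^ (e p) * y + n), u ⌊s⌋₊) - n * (kc * wt p)) := by
    rw [hnr]
    field_simp
  rw [h2, abs_mul, abs_of_pos (by positivity : (0 : ℝ) < 1 / 2 ^ (e p))]
  have h3 : (2 : ℝ) ≤ n / p := by
    rw [le_div_iff₀ hp0]
    -- `2 p ≤ 2 ^ (e - g)`; `e - g ≥ g`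
    have h4 : g ≤ e p - g := by
      have : (g : ℝ) + g ≤ e p := by nlinarith
      have : g + g ≤ e p := by exact_mod_cast this
      omega
    have h5 : (2 : ℝ) ^ g ≤ n := by
      rw [hn]
      push_cast
      exact pow_le_pow_right₀ (by norm_num) h4
    linarith
  calc (1 / 2 ^ (e p) : ℝ) * |(∫ s in (2 ^ (e p) * y)..(2 ^ (e p) * y + n), u ⌊s⌋₊) - n * (kc * wt p)| ≤
        (1 / 2 ^ (e p)) * (2 + K * (n / p)) := mul_le_mul_of_nonneg_left h1 (by positivity)
    _ ≤ (1 / 2 ^ (e p)) * ((K + 1) * (n / p)) := by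
        apply mul_le_mul_of_nonneg_left _ (by positivity)
        linarith
    _ = hh η p * ((K + 1) / p) := by
        rw [hnr]
        field_simp

end Pool.Agent.K9h18.AP
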