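import Pool.Agent.K9h18.AP.AsmA
import Pool.Agent.K9h18.HS.BoxG

set_option autoImplicit false

/-!
# Ratios of consecutive exponents
-/

open Finset Filter Topology MeasureTheory

namespace Pool.Agent.K9h18.AP

open Pool.Agent.TH888.R (wt wt_nonneg wt_le_one VS VS_univ_bound VS_nonneg VS_mono)
open Pool.Agent.K9h18.HS (mass_Ioc short_La prime_part kc kc_pos Ev VS_lt)

/-- the weight on the logarithmic scale -/
noncomputable def GV (x : ℝ) : ℝ := VS Set.univ ⌊Real.exp x⌋₊

lemma GV_short {h : ℝ} (h0 : 0 < h) (h1 : h ≤ 1) :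
    Tendsto (fun a : ℝ => GV (a + h) - GV a) atTop (𝓝 h) := by
  obtain ⟨Z0, hZ0, hLa⟩ := short_La Pool.Agent.N455.OW.pv 1 (e := 1 / 8) (by norm_num) (by norm_num)
  have l1 : Tendsto (fun a : ℝ => h / a) atTop (𝓝 0) := tendsto_const_nhds.div_atTop tendsto_id
  have l2 : Tendsto (fun a : ℝ => 16 * ((a + 1) * Real.exp (-(a / 2)))) atTop (𝓝 0) := by
    have e1 : Tendsto (fun a : ℝ => a / 2) atTop atTop := tendsto_id.atTop_div_const (by norm_num)
    have e2 := (Real.tendsto_pow_mul_exp_neg_atTop_nhds_zero 1).comp e1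
    have e3 := (Real.tendsto_pow_mul_exp_neg_atTop_nhds_zero 0).comp e1
    have e4 := ((e2.const_mul 2).add e3).const_mul 16
    simp only [mul_zero, add_zero] at e4
    refine e4.congr fun a => ?_
    simp only [Function.comp_apply, pow_one, pow_zero, one_mul]
    ring
  have l3 := l1.add l2
  rw [add_zero] at l3
  rw [tendsto_iff_norm_sub_tendsto_zero]
  refine squeeze_zero' (Eventually.of_forall fun _ => norm_nonneg _) ?_ l3
  have ev1 : ∀ᶠ a : ℝ in atTop, Real.exp (-((1 / 4 - 1 / 8) * a)) ≤ h := by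
    have e1 : Tendsto (fun a : ℝ => (1 / 4 - 1 / 8) * a) atTop atTop :=
      tendsto_id.const_mul_atTop (by norm_num)
    exact (Real.tendsto_exp_neg_atTop_nhds_zero.comp e1).eventually_le_const h0
  filter_upwards [eventually_ge_atTop Z0, ev1] with a ha hexp
  have ha0 : 0 < a := by linarith
  have h2 := hLa a (a + h) ha (by linarith) (by linarith) (by rw [add_sub_cancel_left]; exact hexp)
  rw [add_sub_cancel_left, pow_one] at h2
  set m := ⌊Real.exp a⌋₊ with hm
  set k := ⌊Real.exp (a + h)⌋₊ with hk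
  have hx2 : 2 ≤ Real.exp a := by
    have := Real.add_one_le_exp a
    linarith
  have hm1 : 1 ≤ m := Nat.le_floor (by push_cast; linarith)
  have hmk : m ≤ k := Nat.floor_mono (Real.exp_le_exp.2 (by linarith))
  have h3 := prime_part m k hm1 hmk
  have h4 : ∑ l ∈ (Finset.Ioc m k).filter Nat.Prime, Real.log l / l = GV (a + h) - GV a := by
    have h5 := mass_Ioc Set.univ m k hmk
    unfold GV
    rw [← hm, ← hk, ← h5]
    have h6 : Finset.Ico (m + 1) (k + 1) = Finset.Ioc m k := by
      ext x
      simp only [Finset.mem_Ico, Finset.mem_Ioc]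
      omega
    rw [h6]
    refine Finset.sum_congr ?_ fun p _ => rfl
    ext p
    simp only [Finset.mem_filter, Set.mem_univ, and_true]
  rw [h4] at h3
  have h5 : 2 * √k * Real.log k / m ≤ 16 * ((a + 1) * Real.exp (-(a / 2))) := by
    have hk0 : (0 : ℝ) < k := by exact_mod_cast (lt_of_lt_of_le hm1 hmk)
    have hkx : (k : ℝ) ≤ Real.exp (a + h) := Nat.floor_le (Real.exp_pos _).le
    have hm2 : Real.exp a / 2 ≤ m := by
      have := Nat.lt_floor_add_one (Real.exp a)
      linarith
    have e1 : Real.log k ≤ a + 1 := by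
      rw [Real.log_le_iff_le_exp hk0]
      exact hkx.trans (Real.exp_le_exp.2 (by linarith))
    have e2 : √(k : ℝ) ≤ 2 * Real.exp (a / 2) := by
      rw [Real.sqrt_le_left (by positivity)]
      have e3 : (2 * Real.exp (a / 2)) ^ 2 = 4 * Real.exp a := by
        rw [mul_pow, ← Real.exp_nat_mul]
        push_cast
        rw [show 2 * (a / 2) = a by ring]
        norm_num
      rw [e3]
      have e4 : Real.exp (a + h) ≤ Real.exp a * Real.exp 1 := by
        rw [← Real.exp_add]
        exact Real.exp_le_exp.2 (by linarith)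
      have e5 := Real.exp_one_lt_d9
      have e6 := Real.exp_pos a
      nlinarith
    have e3 : 0 ≤ Real.log k := Real.log_natCast_nonneg k
    have e4 : 2 * √k * Real.log k / m ≤ 2 * (2 * Real.exp (a / 2)) * (a + 1) / (Real.exp a / 2) := by
      apply div_le_div₀ (by positivity) _ (by positivity) hm2
      apply mul_le_mul _ e1 e3 (by positivity)
      apply mul_le_mul_of_nonneg_left e2 (by norm_num)
    refine e4.trans ?_
    have e5 : Real.exp a = Real.exp (a / 2) * Real.exp (a / 2) := by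
      rw [← Real.exp_add]
      congr 1
      ring
    have e6 : Real.exp (-(a / 2)) = 1 / Real.exp (a / 2) := by rw [Real.exp_neg, one_div]
    have e7 := Real.exp_pos (a / 2)
    have e8 : 2 * (2 * Real.exp (a / 2)) * (a + 1) / (Real.exp a / 2) = 8 * ((a + 1) * Real.exp (-(a / 2))) := by
      rw [e5, e6]
      field_simp
      ring
    rw [e8]
    have e9 : 0 ≤ (a + 1) * Real.exp (-(a / 2)) := by positivity
    linarith
  rw [Real.norm_eq_abs]
  have h6 : GV (a + h) - GV a - h = (∑ n ∈ Finset.Ioc m k, ArithmeticFunction.vonMangoldt n / n - h) -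
      (∑ n ∈ Finset.Ioc m k, ArithmeticFunction.vonMangoldt n / n - (GV (a + h) - GV a)) := by ring
  rw [h6]
  refine (abs_sub _ _).trans ?_
  linarith

lemma GV_tend {τ : ℝ} (hτ : 0 < τ) : Tendsto (fun a : ℝ => GV (a + τ) - GV a) atTop (𝓝 τ) := by
  obtain ⟨K, hK⟩ := exists_nat_gt τ
  have hK0 : (0 : ℝ) < K := hτ.trans hK
  have hh0 : 0 < τ / K := by positivity
  have hh1 : τ / K ≤ 1 := by rw [div_le_one hK0]; exact hK.le
  have key : ∀ i : ℕ, Tendsto (fun a : ℝ => GV (a + i * (τ / K)) - GV a) atTop (𝓝 (i * (τ / K))) := by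
    intro i
    induction i with
    | zero => simp
    | succ i ih =>
      have e1 : Tendsto (fun a : ℝ => a + i * (τ / K)) atTop atTop :=
        tendsto_atTop_add_const_right _ _ tendsto_id
      have e2 := (GV_short hh0 hh1).comp e1
      have e3 := e2.add ih
      have e4 : τ / K + i * (τ / K) = ((i + 1 : ℕ) : ℝ) * (τ / K) := by push_cast; ring
      rw [e4] at e3
      refine e3.congr fun a => ?_
      simp only [Function.comp_apply]
      have e5 : a + i * (τ / K) + τ / K = a + ((i + 1 : ℕ) : ℝ) * (τ / K) := by push_cast; ring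
      rw [e5]
      ring
  have h1 := key K
  have h2 : (K : ℝ) * (τ / K) = τ := by field_simp
  rwa [h2] at h1

/-- **The increments of the weight of the primes.** -/
theorem VS_ratio {t : ℝ} (ht : 1 < t) :
    Tendsto (fun m : ℕ => VS Set.univ ⌊t * m⌋₊ - VS Set.univ m) atTop (𝓝 (Real.log t)) := by
  have h1 := (GV_tend (Real.log_pos ht)).comp (Real.tendsto_log_atTop.comp tendsto_natCast_atTop_atTop)
  refine h1.congr' ?_
  filter_upwards [eventually_ge_atTop 1] with m hm
  have hm0 : (0 : ℝ) < m := by exact_mod_cast hm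
  simp only [Function.comp_apply]
  unfold GV
  rw [Real.exp_add, Real.exp_log hm0, Real.exp_log (by linarith), Nat.floor_natCast, mul_comm (m : ℝ) t]

open Classical in
/-- **The law of the ratios.** -/
theorem ratio_law {P : ℕ → ℕ} (hP : Tendsto P atTop atTop) {κ : ℝ}
    (hgap : ∀ y : ℝ, 0 < y → Tendsto (fun K : ℕ => (((range K).filter (fun k =>
      y < VS Set.univ (P (k + 1)) - VS Set.univ (P k))).card : ℝ) / K) atTop
      (𝓝 (Real.exp (-(κ * y))))) {t : ℝ} (ht : 1 < t) :
    Tendsto (fun K : ℕ => (((range K).filter (fun k => t * (P k : ℝ) < P (k + 1))).card : ℝ) / K) atTop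
      (𝓝 (t ^ (-κ))) := by
  have hlt : 0 < Real.log t := Real.log_pos ht
  have hval : t ^ (-κ) = Real.exp (-(κ * Real.log t)) := by
    rw [Real.rpow_def_of_pos (by linarith)]
    congr 1
    ring
  rw [hval]
  have hcont : Continuous fun y : ℝ => Real.exp (-(κ * y)) := by fun_prop
  -- two-sided comparison with error `ε`
  have hcmp : ∀ ε : ℝ, 0 < ε → ∃ k0 : ℕ, ∀ k ≥ k0,
      (Real.log t + ε < VS Set.univ (P (k + 1)) - VS Set.univ (P k) → t * (P k : ℝ) < P (k + 1)) ∧
      (t * (P k : ℝ) < P (k + 1) → Real.log t - ε < VS Set.univ (P (k + 1)) - VS Set.univ (P k)) := by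
    intro ε hε
    have h1 := (VS_ratio ht).comp hP
    rw [Metric.tendsto_atTop] at h1
    obtain ⟨k0, hk0⟩ := h1 ε hε
    refine ⟨k0, fun k hk => ⟨fun h2 => ?_, fun h2 => ?_⟩⟩
    · have h3 := hk0 k hk
      simp only [Function.comp_apply, Real.dist_eq] at h3
      have h4 := abs_lt.1 h3
      by_contra h5
      have h6 : P (k + 1) ≤ ⌊t * (P k : ℝ)⌋₊ := Nat.le_floor (not_lt.1 h5)
      have h7 := VS_mono Set.univ h6
      linarith
    · have h3 := hk0 k hk
      simp only [Function.comp_apply, Real.dist_eq] at h3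
      have h4 := abs_lt.1 h3
      have h6 : ⌊t * (P k : ℝ)⌋₊ ≤ P (k + 1) := by
        have h7 : (⌊t * (P k : ℝ)⌋₊ : ℝ) ≤ t * P k := Nat.floor_le (by positivity)
        exact_mod_cast (h7.trans h2.le)
      have h7 := VS_mono Set.univ h6
      linarith
  -- counting with finitely many exceptions
  have hcount : ∀ (Q R : ℕ → Prop) (k0 : ℕ), (∀ k ≥ k0, Q k → R k) → ∀ K : ℕ,
      (((range K).filter Q).card : ℝ) / K ≤ (((range K).filter R).card : ℝ) / K + k0 / K := by
    intro Q R k0 hQR K
    rw [← add_div]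
    apply div_le_div_of_nonneg_right _ (Nat.cast_nonneg K)
    have h1 : (range K).filter Q ⊆ (range K).filter R ∪ range k0 := by
      intro k hk
      rw [mem_filter] at hk
      rw [mem_union, mem_filter]
      by_cases h : k < k0
      · exact Or.inr (mem_range.2 h)
      · exact Or.inl ⟨hk.1, hQR k (not_lt.1 h) hk.2⟩
    have h2 := (Finset.card_le_card h1).trans (Finset.card_union_le _ _)
    rw [card_range] at h2
    exact_mod_cast h2
  rw [Metric.tendsto_atTop]
  intro ε hε
  have hc1 := Metric.continuous_iff.1 hcont (Real.log t) (ε / 3) (by positivity)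
  obtain ⟨d, hd, hcd⟩ := hc1
  set d' := min (d / 2) (Real.log t / 2) with hd'
  have hd'0 : 0 < d' := lt_min (by positivity) (by positivity)
  have hd'1 : d' ≤ d / 2 := min_le_left _ _
  have hd'2 : d' ≤ Real.log t / 2 := min_le_right _ _
  obtain ⟨k0, hk0⟩ := hcmp d' hd'0
  have hu := hcd (Real.log t + d') (by rw [Real.dist_eq, add_sub_cancel_left, abs_of_pos hd'0]; linarith)
  have hl := hcd (Real.log t - d') (by
    rw [Real.dist_eq, show Real.log t - d' - Real.log t = -d' by ring, abs_neg, abs_of_pos hd'0]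
    linarith)
  rw [Real.dist_eq] at hu hl
  have t1 := Metric.tendsto_atTop.1 (hgap (Real.log t + d') (by linarith)) (ε / 3) (by positivity)
  have t2 := Metric.tendsto_atTop.1 (hgap (Real.log t - d') (by linarith)) (ε / 3) (by positivity)
  have t3 := Metric.tendsto_atTop.1 (tendsto_const_div_atTop_nhds_zero_nat (k0 : ℝ)) (ε / 3) (by positivity)
  obtain ⟨K1, hK1⟩ := t1
  obtain ⟨K2, hK2⟩ := t2
  obtain ⟨K3, hK3⟩ := t3
  refine ⟨K1 + K2 + K3, fun K hK => ?_⟩
  have a1 := hK1 K (by omega)
  have a2 := hK2 K (by omega)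
  have a3 := hK3 K (by omega)
  rw [Real.dist_eq] at a1 a2 a3 ⊢
  have b1 := hcount _ _ k0 (fun k hk => (hk0 k hk).1) K
  have b2 := hcount _ _ k0 (fun k hk => (hk0 k hk).2) K
  rw [sub_zero] at a3
  have c1 := abs_lt.1 a1
  have c2 := abs_lt.1 a2
  have c3 := abs_lt.1 a3
  have c4 := abs_lt.1 hu
  have c5 := abs_lt.1 hl
  rw [abs_lt]
  constructor
  · linarith [c1.1, c3.2, c4.1]
  · linarith [c2.2, c3.2, c5.2]

end Pool.Agent.K9h18.AP
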