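import Pool.Agent.K9h18.AP.Win

set_option autoImplicit false

/-!
# The law of large numbers with error term for the model
-/

open Finset Filter Topology MeasureTheory

namespace Pool.Agent.K9h18.AP

open Pool.Agent.H305R2 (roughPart)
open Pool.Agent.TH888.R (wt wt_nonneg wt_le_one VS VS_mono VS_nonneg VS_univ_bound)
open Pool.Agent.K9h18.HS (mu1 ind kc kc_pos wt_tendsto log_ge_one Rows PtR VS_zero mass_Ioc)

/-- the integers of the model -/
noncomputable def nn (e A : ℕ → ℕ) (c : ℕ → ℝ) (p : ℕ) : ℕ := A p - ⌊2 ^ (e p) * yy p c⌋₊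

lemma fa_eq (e A : ℕ → ℕ) (p : ℕ) (c : ℕ → ℝ) :
    fa e A p c = if (roughPart p (nn e A c p)).Prime then 1 else 0 := rfl

lemma hh_cube {η : ℝ} (hη : 0 < η) : ∃ P : ℕ, ∀ p ≥ P, 8 * (p : ℝ) ^ 3 * hh η p ≤ 1 / p := by
  obtain ⟨P, hP⟩ := hh_pow (η / 2) (by positivity) 2
  obtain ⟨P', hP'⟩ := hh_pow (η / 2) (by positivity) 1
  refine ⟨P + P' + 4, fun p hp => ?_⟩
  have h1 := hP p (by omega)
  have h2 := hP' p (by omega)
  have hp0 : (0 : ℝ) < p := by exact_mod_cast (by omega : 0 < p)
  -- `hh η ≤ 2 hh (η / 2) ^ 2`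
  have h3 : hh η p ≤ hh (η / 2) p * hh (η / 2) p := by
    unfold hh
    rw [← pow_add]
    apply pow_le_pow_of_le_one (by norm_num) (by norm_num)
    unfold gp
    have h4 : (⌊η / 2 * p⌋₊ : ℝ) ≤ η / 2 * p := Nat.floor_le (by positivity)
    have h5 : ((⌊η / 2 * p⌋₊ + ⌊η / 2 * p⌋₊ : ℕ) : ℝ) ≤ η * p := by
      push_cast
      linarith
    exact Nat.le_floor h5
  have hh0 := hh_pos (η / 2) p
  rw [le_div_iff₀ hp0]
  have h4 : (hh (η / 2) p * (4 * (p : ℝ) ^ 2) ^ 2) * (hh (η / 2) p * (4 * (p : ℝ) ^ 2) ^ 1) ≤ 1 * 1 :=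
    mul_le_mul h1 h2 (by positivity) zero_le_one
  have hp1 : (1 : ℝ) ≤ p := by exact_mod_cast (by omega : 1 ≤ p)
  calc 8 * (p : ℝ) ^ 3 * hh η p * p ≤ 8 * (p : ℝ) ^ 3 * (hh (η / 2) p * hh (η / 2) p) * p := by gcongr
    _ = (hh (η / 2) p * hh (η / 2) p) * (8 * (p : ℝ) ^ 4) := by ring
    _ ≤ (hh (η / 2) p * hh (η / 2) p) * (64 * (p : ℝ) ^ 6) := by
        apply mul_le_mul_of_nonneg_left _ (by positivity)
        have : (p : ℝ) ^ 4 ≤ (p : ℝ) ^ 6 := pow_le_pow_right₀ hp1 (by norm_num)
        have : (0 : ℝ) ≤ (p : ℝ) ^ 6 := by positivity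
        linarith
    _ = (hh (η / 2) p * (4 * (p : ℝ) ^ 2) ^ 2) * (hh (η / 2) p * (4 * (p : ℝ) ^ 2) ^ 1) := by ring
    _ ≤ 1 := by linarith

/-- one event against a smaller one -/
theorem pair_step (hPV : Pool.Agent.N176.OW.S_PV) {η : ℝ} {e A : ℕ → ℕ} (hM : Md η e A) :
    ∃ K : ℝ, 0 < K ∧ ∃ P : ℕ, 3 ≤ P ∧ ∀ q ≥ P,
      |∫ c, fa e A q c ∂muI - kc * wt q| ≤ K / q ∧
      ∀ p : ℕ, 2 ≤ p → p < q → |∫ c, fa e A p c * fa e A q c ∂muI - kc * wt q * ∫ c, fa e A p c ∂muI| ≤
        K / q * ∫ c, fa e A p c ∂muI + 8 * (q : ℝ) ^ 2 * hh η q := by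
  obtain ⟨K, hK, P, hst⟩ := one_step hPV hM
  obtain ⟨P2, hP2⟩ := hh_pow η hM.pos 1
  obtain ⟨P3, hP3⟩ := hh_cube hM.pos
  refine ⟨K + 1, by positivity, P + P2 + P3 + 3, by omega, fun q hq => ⟨?_, fun p hp hpq => ?_⟩⟩
  · have hq0 : (0 : ℝ) < q := by exact_mod_cast (by omega : 0 < q)
    have hq1 : (1 : ℝ) ≤ q := by exact_mod_cast (by omega : 1 ≤ q)
    have h1 := hst q (by omega) (fun j => if j = 0 then 1 else 0) 1 (fun j hj => by
      have : j ≠ 0 := by omega
      simp [this]) (by simp) (by simpa using hh_le_one η q) (fun _ => 1) 1 0 measurable_const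
      (fun _ => ⟨zero_le_one, le_rfl⟩) (fun t _ _ => by simp)
    simp only [one_mul, integral_const, probReal_univ, smul_eq_mul, mul_one, add_zero,
      Finset.range_one, Finset.sum_singleton, if_true, abs_one] at h1
    refine h1.trans ?_
    have h2 := hP3 q (by omega)
    have h3 : 2 * hh η q ≤ 1 / q := by
      refine le_trans ?_ h2
      have := hh_pos η q
      have h4 : (1 : ℝ) ≤ (q : ℝ) ^ 3 := one_le_pow₀ hq1
      nlinarith
    have h4 : (K + 1) / q = K / q + 1 / q := by ring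
    linarith
  · have hq0 : (0 : ℝ) < q := by exact_mod_cast (by omega : 0 < q)
    obtain ⟨v, hv1, hv2, hv3, hv4⟩ := dir (p := q) (by omega) {p} (fun r hr => by
      rw [Finset.mem_singleton] at hr
      omega) (by
      rw [Finset.mem_singleton]
      omega)
    rw [Finset.card_singleton] at hv1 hv2 hv3 hv4
    set D := ∑ j ∈ range (1 + 1), |v j| with hD
    have hD0 : 0 ≤ D := Finset.sum_nonneg fun j _ => abs_nonneg _
    have hh0 := hh_pos η q
    have hhD : hh η q * D ≤ hh η q * (4 * (q : ℝ) ^ 2) ^ 1 := mul_le_mul_of_nonneg_left hv2 hh0.le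
    have hhD1 : hh η q * D ≤ 1 := hhD.trans (hP2 q (by omega))
    have h1 := hst q (by omega) v (1 + 1) hv1 hv3 hhD1 (fa e A p) 1 0 (fa_meas e A p)
      (fun c => ⟨fa_nonneg _ _ _ _, fa_le_one _ _ _ _⟩) (fun t ht0 hth => by
      set w : ℕ → ℝ := fun j => t * v j with hw
      have hwk : ∀ j, 1 + 1 ≤ j → w j = 0 := fun j hj => by simp only [hw, hv1 j hj, mul_zero]
      have hwl : ∑ j ∈ range (1 + 1), |w j| = t * D := by
        rw [hD, Finset.mul_sum]
        refine Finset.sum_congr rfl fun j _ => ?_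
        simp only [hw]
        rw [abs_mul, abs_of_nonneg ht0]
      have hwj : ∀ j, |w j| ≤ 1 := fun j => (abs_le_l1 hwk j).trans (by
        rw [hwl]
        exact (mul_le_mul_of_nonneg_right hth hD0).trans hhD1)
      have h2 : ∀ᵐ c ∂muI, |fa e A p (sh w c) - fa e A p c| = 0 := by
        filter_upwards [box_Bx] with c hc
        unfold fa
        rw [yy_sh hp hc hwk hwj]
        have h4 : ∑ j ∈ range (1 + 1), w j * (1 / (p : ℝ)) ^ j = 0 := by
          have h5 : ∀ j, w j * (1 / (p : ℝ)) ^ j = t * (v j * (1 / (p : ℝ)) ^ j) := fun j => by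
            simp only [hw]
            ring
          simp only [h5]
          rw [← Finset.mul_sum, hv4 p (Finset.mem_singleton_self p), mul_zero]
        rw [h4, add_zero, sub_self, abs_zero]
      rw [integral_congr_ae h2]
      simp)
    refine h1.trans ?_
    have hI0 : 0 ≤ ∫ c, fa e A p c ∂muI := integral_nonneg fun c => fa_nonneg _ _ _ _
    have h3 : K / q * ∫ c, fa e A p c ∂muI ≤ (K + 1) / q * ∫ c, fa e A p c ∂muI := by
      apply mul_le_mul_of_nonneg_right _ hI0
      gcongr
      linarith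
    rw [pow_one] at hhD
    linarith

/-- **The rows of the model.** -/
theorem rowsA (hPV : Pool.Agent.N176.OW.S_PV) {η : ℝ} {e A : ℕ → ℕ} (hM : Md η e A) :
    Rows muI (fun p c => if (roughPart p (nn e A c p)).Prime then (1 : ℝ) else 0) kc := by
  classical
  obtain ⟨K, hK, P, hP3, hst⟩ := pair_step hPV hM
  obtain ⟨P2, hcube⟩ := hh_cube hM.pos
  obtain ⟨C0, hC0, hVS⟩ := VS_univ_bound
  have hkc := kc_pos
  have hfi : ∀ q, Integrable (fa e A q) muI := fun q => int_bd (fa_meas e A q) (B := 1) fun c => by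
    rw [abs_of_nonneg (fa_nonneg _ _ _ _)]
    exact fa_le_one _ _ _ _
  have hffi : ∀ p q, Integrable (fun c => fa e A p c * fa e A q c) muI := fun p q =>
    int_bd ((fa_meas e A p).mul (fa_meas e A q)) (B := 1) fun c => by
      change |fa e A p c * fa e A q c| ≤ 1
      rw [abs_of_nonneg (mul_nonneg (fa_nonneg _ _ _ _) (fa_nonneg _ _ _ _))]
      exact mul_le_one₀ (fa_le_one _ _ _ _) (fa_nonneg _ _ _ _) (fa_le_one _ _ _ _)
  have hwt1 : ∀ q : ℕ, 3 ≤ q → 1 / (q : ℝ) ≤ wt q := fun q hq => by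
    unfold wt
    have := log_ge_one hq
    gcongr
  have hmean : ∀ q ≥ P, ∫ c, fa e A q c ∂muI ≤ (kc + K) * wt q := fun q hq => by
    have h1 := (abs_le.1 (hst q hq).1).2
    have h2 := mul_le_mul_of_nonneg_left (hwt1 q (by omega)) hK.le
    rw [mul_one_div] at h2
    linarith
  have hfe : (fun p c => if (roughPart p (nn e A c p)).Prime then (1 : ℝ) else 0) =
      fun p c => fa e A p c := by
    ext p c
    rw [fa_eq]
  rw [hfe]
  refine ⟨hkc, fun q => fa_meas e A q, fun q x => fa_01 e A q x, ⟨kc + K, by positivity, P,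
    fun q hq _ => hmean q hq⟩, ?_⟩
  set C := (kc + K) + kc ^ 2 + (K * (kc + K) + kc * K) * (1 + C0) + 1 with hC
  refine ⟨C, by positivity, P + P2, fun q hq _ => ⟨?_, fun T hT => ?_⟩⟩
  · have h1 : ∀ c, (fa e A q c - kc * wt q) ^ 2 =
        fa e A q c - 2 * (kc * wt q) * fa e A q c + (kc * wt q) ^ 2 := by
      intro c
      rcases fa_01 e A q c with h | h <;> rw [h] <;> ring
    simp only [h1]
    have i2 : Integrable (fun c => 2 * (kc * wt q) * fa e A q c) muI := (hfi q).const_mul _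
    have i1 : Integrable (fun c => fa e A q c - 2 * (kc * wt q) * fa e A q c) muI := (hfi q).sub i2
    rw [integral_add i1 (integrable_const _), integral_sub (hfi q) i2, integral_const_mul]
    simp only [integral_const, probReal_univ, smul_eq_mul, one_mul]
    have h2 := hmean q (by omega)
    have h3 : 0 ≤ ∫ c, fa e A q c ∂muI := integral_nonneg fun c => fa_nonneg _ _ _ _
    have h4 := wt_nonneg q
    have h5 := wt_le_one q
    have h6 : 0 ≤ 2 * (kc * wt q) * ∫ c, fa e A q c ∂muI := by positivity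
    have h7 : (kc * wt q) ^ 2 ≤ kc ^ 2 * wt q := by
      have : wt q ^ 2 ≤ wt q := by nlinarith
      calc (kc * wt q) ^ 2 = kc ^ 2 * wt q ^ 2 := by ring
        _ ≤ kc ^ 2 * wt q := by gcongr
    have h8 : 0 ≤ (K * (kc + K) + kc * K) * (1 + C0) + 1 := by positivity
    have h9 : C * wt q = (kc + K) * wt q + kc ^ 2 * wt q + ((K * (kc + K) + kc * K) * (1 + C0) + 1) * wt q := by
      rw [hC]; ring
    have h10 := mul_nonneg h8 h4
    linarith
  · have hq0 : (0 : ℝ) < q := by exact_mod_cast (by omega : 0 < q)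
    have hlq : 1 ≤ Real.log q := log_ge_one (by omega)
    have hcov : ∀ p ∈ T, |∫ c, (fa e A p c - kc * wt p) * (fa e A q c - kc * wt q) ∂muI| ≤
        (K * (kc + K) + kc * K) / q * wt p + 8 * (q : ℝ) ^ 2 * hh η q := by
      intro p hp
      obtain ⟨hpp, hPp, hpq⟩ := hT p hp
      have h1 : ∀ c, (fa e A p c - kc * wt p) * (fa e A q c - kc * wt q) =
          fa e A p c * fa e A q c - kc * wt q * fa e A p c - kc * wt p * fa e A q c +
            kc * wt p * (kc * wt q) := fun c => by ring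
      simp only [h1]
      have i1 : Integrable (fun c => kc * wt q * fa e A p c) muI := (hfi p).const_mul _
      have i2 : Integrable (fun c => kc * wt p * fa e A q c) muI := (hfi q).const_mul _
      have i3 : Integrable (fun c => fa e A p c * fa e A q c - kc * wt q * fa e A p c) muI :=
        (hffi p q).sub i1
      have i4 : Integrable (fun c => fa e A p c * fa e A q c - kc * wt q * fa e A p c -
        kc * wt p * fa e A q c) muI := i3.sub i2
      rw [integral_add i4 (integrable_const _), integral_sub i3 i2,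
        integral_sub (hffi p q) i1, integral_const_mul, integral_const_mul]
      simp only [integral_const, probReal_univ, smul_eq_mul, one_mul]
      obtain ⟨h2, h3⟩ := hst q (by omega)
      have h3 := h3 p hpp.two_le hpq
      have h4 := hmean p (by omega)
      have h5 := wt_nonneg p
      have e1 : ∫ c, fa e A p c * fa e A q c ∂muI - kc * wt q * ∫ c, fa e A p c ∂muI -
          kc * wt p * ∫ c, fa e A q c ∂muI + kc * wt p * (kc * wt q) =
          (∫ c, fa e A p c * fa e A q c ∂muI - kc * wt q * ∫ c, fa e A p c ∂muI) -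
          kc * wt p * (∫ c, fa e A q c ∂muI - kc * wt q) := by ring
      rw [e1]
      refine (abs_sub _ _).trans ?_
      rw [abs_mul (kc * wt p), abs_of_nonneg (by positivity : 0 ≤ kc * wt p)]
      have h6 := mul_le_mul_of_nonneg_left h2 (by positivity : 0 ≤ kc * wt p)
      have h7 : K / q * ∫ c, fa e A p c ∂muI ≤ K / q * ((kc + K) * wt p) :=
        mul_le_mul_of_nonneg_left h4 (by positivity)
      have e2 : (K * (kc + K) + kc * K) / q * wt p = K / q * ((kc + K) * wt p) + kc * wt p * (K / q) := by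
        ring
      rw [e2]
      linarith
    refine (Finset.sum_le_sum hcov).trans ?_
    rw [Finset.sum_add_distrib, ← Finset.mul_sum, Finset.sum_const, nsmul_eq_mul]
    have hTw : ∑ p ∈ T, wt p ≤ (1 + C0) * Real.log q := by
      have h1 : ∑ p ∈ T, wt p ≤ VS Set.univ q := by
        have h2 := mass_Ioc Set.univ 0 q (Nat.zero_le q)
        rw [VS_zero, sub_zero] at h2
        rw [← h2]
        apply Finset.sum_le_sum_of_subset_of_nonneg
        · intro p hp
          have h3 := (hT p hp).2.2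
          have h4 := (hT p hp).1
          have h5 := h4.pos
          simp only [Finset.mem_filter]
          exact ⟨Finset.mem_Ioc.2 ⟨h5, h3.le⟩, h4, Set.mem_univ _⟩
        · intro p _ _
          exact wt_nonneg p
      have h2 := (abs_le.1 (hVS q (by omega))).2
      nlinarith
    have hcard : (T.card : ℝ) ≤ q := by
      have h1 : T ⊆ range q := fun p hp => Finset.mem_range.2 (hT p hp).2.2
      have h2 := Finset.card_le_card h1
      rw [Finset.card_range] at h2
      exact_mod_cast h2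
    have hh0 := hh_pos η q
    have h3 : (T.card : ℝ) * (8 * (q : ℝ) ^ 2 * hh η q) ≤ wt q := by
      calc (T.card : ℝ) * (8 * (q : ℝ) ^ 2 * hh η q) ≤ q * (8 * (q : ℝ) ^ 2 * hh η q) :=
            mul_le_mul_of_nonneg_right hcard (by positivity)
        _ = 8 * (q : ℝ) ^ 3 * hh η q := by ring
        _ ≤ 1 / q := hcube q (by omega)
        _ ≤ wt q := hwt1 q (by omega)
    have h4 : (K * (kc + K) + kc * K) / q * ∑ p ∈ T, wt p ≤
        (K * (kc + K) + kc * K) * (1 + C0) * wt q := by
      calc (K * (kc + K) + kc * K) / q * ∑ p ∈ T, wt p ≤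
            (K * (kc + K) + kc * K) / q * ((1 + C0) * Real.log q) :=
            mul_le_mul_of_nonneg_left hTw (by positivity)
        _ = (K * (kc + K) + kc * K) * (1 + C0) * wt q := by
            unfold wt
            ring
    have h5 := wt_nonneg q
    have h6 : 0 ≤ ((kc + K) + kc ^ 2) * wt q := by positivity
    have h7 : C * wt q = ((kc + K) + kc ^ 2) * wt q + (K * (kc + K) + kc * K) * (1 + C0) * wt q + wt q := by
      rw [hC]; ring
    linarith

/-- **The law for the model, for a set of primes.** -/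
theorem ptA (hPV : Pool.Agent.N176.OW.S_PV) {η : ℝ} {e A : ℕ → ℕ} (hM : Md η e A) (S : Set ℕ) :
    ∀ᵐ c ∂muI, PtR (nn e A c) kc S :=
  Rows.pt (s := nn e A) (rowsA hPV hM) S

end Pool.Agent.K9h18.AP
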