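import Pool.Agent.K9h18.HS.RowsDig

set_option autoImplicit false

/-!
# Sequences of independent uniform random variables: small shifts
-/

open Finset Filter Topology MeasureTheory

namespace Pool.Agent.K9h18.AP

open Pool.Agent.K9h18.HS (mu1)

/-- the law of a sequence of independent uniform random variables -/
noncomputable abbrev muI : Measure (ℕ → ℝ) := Measure.infinitePi (fun _ : ℕ => mu1)

lemma meas_upd (j : ℕ) : Measurable (fun z : (ℕ → ℝ) × ℝ => Function.update z.1 j z.2) := by
  rw [measurable_pi_iff]
  intro i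
  by_cases h : i = j
  · subst h
    simp only [Function.update_self]
    exact measurable_snd
  · simp only [Function.update_of_ne h]
    exact (measurable_pi_apply i).comp measurable_fst

lemma resample (j : ℕ) :
    (muI.prod mu1).map (fun z : (ℕ → ℝ) × ℝ => Function.update z.1 j z.2) = muI := by
  classical
  refine Measure.eq_infinitePi _ fun s t ht => ?_
  rw [Measure.map_apply (meas_upd j) (MeasurableSet.pi s.countable_toSet fun i _ => ht i)]
  by_cases hj : j ∈ s
  · have h1 : (fun z : (ℕ → ℝ) × ℝ => Function.update z.1 j z.2) ⁻¹' (Set.pi (s : Set ℕ) t) =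
        (Set.pi ((s.erase j : Finset ℕ) : Set ℕ) t) ×ˢ (t j) := by
      ext ⟨c, x⟩
      simp only [Set.mem_preimage, Set.mem_pi, Set.mem_prod, Finset.mem_coe, Finset.mem_erase]
      constructor
      · intro h
        refine ⟨fun i hi => ?_, ?_⟩
        · have := h i hi.2
          rwa [Function.update_of_ne hi.1] at this
        · have := h j hj
          rwa [Function.update_self] at this
      · rintro ⟨h, h2⟩ i hi
        by_cases hij : i = j
        · subst hij
          rwa [Function.update_self]
        · rw [Function.update_of_ne hij]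
          exact h i ⟨hij, hi⟩
    rw [h1, Measure.prod_prod, Measure.infinitePi_pi _ fun i _ => ht i, mul_comm,
      Finset.mul_prod_erase s (fun i => mu1 (t i)) hj]
  · have h1 : (fun z : (ℕ → ℝ) × ℝ => Function.update z.1 j z.2) ⁻¹' (Set.pi (s : Set ℕ) t) =
        (Set.pi (s : Set ℕ) t) ×ˢ Set.univ := by
      ext ⟨c, x⟩
      simp only [Set.mem_preimage, Set.mem_pi, Set.mem_prod, Finset.mem_coe, Set.mem_univ, and_true]
      constructor
      · intro h i hi
        have h2 := h i hi
        have h3 : i ≠ j := fun h3 => by rw [h3] at hi; exact hj hi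
        rwa [Function.update_of_ne h3] at h2
      · intro h i hi
        have h3 : i ≠ j := fun h3 => by rw [h3] at hi; exact hj hi
        rw [Function.update_of_ne h3]
        exact h i hi
    rw [h1, Measure.prod_prod, Measure.infinitePi_pi _ fun i _ => ht i, measure_univ, mul_one]

lemma int_resample (j : ℕ) {g : (ℕ → ℝ) → ℝ} (hg : Measurable g) {B : ℝ} (hB : ∀ c, |g c| ≤ B) :
    ∫ c, g c ∂muI = ∫ c, (∫ x, g (Function.update c j x) ∂mu1) ∂muI := by
  have h1 : ∫ c, g c ∂muI = ∫ c, g c ∂((muI.prod mu1).map
      (fun z : (ℕ → ℝ) × ℝ => Function.update z.1 j z.2)) := by rw [resample]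
  rw [h1, integral_map (meas_upd j).aemeasurable hg.aestronglyMeasurable, integral_prod]
  refine Integrable.of_bound (hg.comp (meas_upd j)).aestronglyMeasurable B
    (Eventually.of_forall fun z => ?_)
  exact hB _

/-- shift of one uniform variable -/
lemma shift_uni {u : ℝ → ℝ} (hu : Measurable u) {B : ℝ} (hB : ∀ x, |u x| ≤ B) (s : ℝ) :
    |∫ x, u (x + s) ∂mu1 - ∫ x, u x ∂mu1| ≤ 2 * |s| * B := by
  have hint : ∀ a b : ℝ, IntervalIntegrable u volume a b := fun a b => by
    rw [intervalIntegrable_iff]
    refine Measure.integrableOn_of_bounded (M := B) (by simp) hu.aestronglyMeasurable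
      (Eventually.of_forall fun x => hB x)
  have e1 : ∫ x, u (x + s) ∂mu1 = ∫ x in (0 + s)..(1 + s), u x := by
    rw [← intervalIntegral.integral_comp_add_right, intervalIntegral.integral_of_le zero_le_one]
  have e2 : ∫ x, u x ∂mu1 = ∫ x in (0 : ℝ)..1, u x := by
    rw [intervalIntegral.integral_of_le zero_le_one]
  rw [e1, e2, zero_add]
  have e3 : ∫ x in s..(1 + s), u x = (∫ x in s..0, u x) + (∫ x in (0 : ℝ)..1, u x) +
      ∫ x in (1 : ℝ)..(1 + s), u x := by
    rw [intervalIntegral.integral_add_adjacent_intervals (hint _ _) (hint _ _),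
      intervalIntegral.integral_add_adjacent_intervals (hint _ _) (hint _ _)]
  rw [e3]
  have h1 : |∫ x in s..0, u x| ≤ B * |s| := by
    have := intervalIntegral.norm_integral_le_of_norm_le_const (a := s) (b := 0) (f := u) (C := B)
      (fun x _ => hB x)
    rwa [zero_sub, abs_neg] at this
  have h2 : |∫ x in (1 : ℝ)..(1 + s), u x| ≤ B * |s| := by
    have := intervalIntegral.norm_integral_le_of_norm_le_const (a := 1) (b := 1 + s) (f := u) (C := B)
      (fun x _ => hB x)
    rwa [add_sub_cancel_left] at this
  have e4 : (∫ x in s..0, u x) + (∫ x in (0 : ℝ)..1, u x) + (∫ x in (1 : ℝ)..(1 + s), u x) -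
      ∫ x in (0 : ℝ)..1, u x = (∫ x in s..0, u x) + ∫ x in (1 : ℝ)..(1 + s), u x := by ring
  rw [e4]
  refine (abs_add_le _ _).trans ?_
  linarith

lemma shift_one (j : ℕ) {g : (ℕ → ℝ) → ℝ} (hg : Measurable g) {B : ℝ} (hB : ∀ c, |g c| ≤ B) (s : ℝ) :
    |∫ c, g (Function.update c j (c j + s)) ∂muI - ∫ c, g c ∂muI| ≤ 2 * |s| * B := by
  have hB0 : 0 ≤ B := (abs_nonneg _).trans (hB 0)
  have hm : Measurable (fun c : ℕ → ℝ => Function.update c j (c j + s)) := by
    have h0 : Measurable (fun c : ℕ → ℝ => c j + s) :=
      Measurable.add_const (measurable_pi_apply (X := fun _ : ℕ => ℝ) j) s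
    have := (meas_upd j).comp (measurable_id.prodMk h0)
    exact this
  have e0 : ∫ c, g (Function.update c j (c j + s)) ∂muI =
      ∫ c, (g ∘ fun c : ℕ → ℝ => Function.update c j (c j + s)) c ∂muI := rfl
  rw [e0, int_resample j (hg.comp hm) (fun c => hB _), int_resample j hg hB]
  have h1 : ∀ c : ℕ → ℝ, ∀ x : ℝ, (g ∘ fun c : ℕ → ℝ => Function.update c j (c j + s))
      (Function.update c j x) = g (Function.update c j (x + s)) := by
    intro c x
    simp [Function.comp]
  simp only [h1]
  have hmc : ∀ c : ℕ → ℝ, Measurable (fun x : ℝ => g (Function.update c j x)) := fun c =>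
    hg.comp ((meas_upd j).comp (measurable_const.prodMk measurable_id))
  have hm1 : Measurable (fun c : ℕ → ℝ => ∫ x, g (Function.update c j (x + s)) ∂mu1) := by
    have h2 : Measurable (fun z : (ℕ → ℝ) × ℝ => g (Function.update z.1 j (z.2 + s))) :=
      hg.comp ((meas_upd j).comp (measurable_fst.prodMk (measurable_snd.add_const s)))
    exact (h2.stronglyMeasurable.integral_prod_right (ν := mu1)).measurable
  have hm2 : Measurable (fun c : ℕ → ℝ => ∫ x, g (Function.update c j x) ∂mu1) := by
    have h2 : Measurable (fun z : (ℕ → ℝ) × ℝ => g (Function.update z.1 j z.2)) :=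
      hg.comp (meas_upd j)
    exact (h2.stronglyMeasurable.integral_prod_right (ν := mu1)).measurable
  have hbd : ∀ u : ℝ → ℝ, (∀ x, |u x| ≤ B) → |∫ x, u x ∂mu1| ≤ B := by
    intro u hu
    have := norm_integral_le_of_norm_le_const (μ := mu1) (f := u) (C := B)
      (Eventually.of_forall hu)
    simpa using this
  have i1 : Integrable (fun c : ℕ → ℝ => ∫ x, g (Function.update c j (x + s)) ∂mu1) muI :=
    Integrable.of_bound hm1.aestronglyMeasurable B (Eventually.of_forall fun c => hbd _ fun x => hB _)
  have i2 : Integrable (fun c : ℕ → ℝ => ∫ x, g (Function.update c j x) ∂mu1) muI :=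
    Integrable.of_bound hm2.aestronglyMeasurable B (Eventually.of_forall fun c => hbd _ fun x => hB _)
  rw [← integral_sub i1 i2]
  have h3 : ∀ c : ℕ → ℝ, |∫ x, g (Function.update c j (x + s)) ∂mu1 -
      ∫ x, g (Function.update c j x) ∂mu1| ≤ 2 * |s| * B := fun c =>
    shift_uni (hmc c) (fun x => hB _) s
  have := norm_integral_le_of_norm_le_const (μ := muI)
    (f := fun c : ℕ → ℝ => ∫ x, g (Function.update c j (x + s)) ∂mu1 -
      ∫ x, g (Function.update c j x) ∂mu1) (C := 2 * |s| * B) (Eventually.of_forall h3)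
  simpa using this

/-- shift by a vector -/
def sh (v c : ℕ → ℝ) : ℕ → ℝ := fun j => c j + v j

lemma sh_meas (v : ℕ → ℝ) : Measurable (sh v) := by
  rw [measurable_pi_iff]
  intro i
  exact (measurable_pi_apply i).add_const _

/-- **Small shifts change integrals of bounded functions by little.** -/
theorem shift_le {g : (ℕ → ℝ) → ℝ} (hg : Measurable g) {B : ℝ} (hB : ∀ c, |g c| ≤ B) {v : ℕ → ℝ}
    {k : ℕ} (hv : ∀ j, k ≤ j → v j = 0) :
    |∫ c, g (sh v c) ∂muI - ∫ c, g c ∂muI| ≤ 2 * (∑ j ∈ range k, |v j|) * B := by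
  have key : ∀ k : ℕ, |∫ c, g (sh (fun j => if j < k then v j else 0) c) ∂muI - ∫ c, g c ∂muI| ≤
      2 * (∑ j ∈ range k, |v j|) * B := by
    intro k
    induction k with
    | zero =>
      have h0 : ∀ c : ℕ → ℝ, sh (fun j => if j < 0 then v j else 0) c = c := by
        intro c
        ext j
        simp [sh]
      simp only [h0]
      simp
    | succ k ih =>
      have h1 := shift_one k (g := fun c => g (sh (fun j => if j < k then v j else 0) c))
        (hg.comp (sh_meas _)) (fun c => hB _) (v k)
      have h2 : ∀ c : ℕ → ℝ, sh (fun j => if j < k then v j else 0)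
          (Function.update c k (c k + v k)) = sh (fun j => if j < k + 1 then v j else 0) c := by
        intro c
        ext j
        unfold sh
        by_cases hj : j = k
        · subst hj
          simp
        · rw [Function.update_of_ne hj]
          simp only
          by_cases h3 : j < k
          · rw [if_pos h3, if_pos (by omega)]
          · rw [if_neg h3, if_neg (by omega)]
      simp only [h2] at h1
      rw [Finset.sum_range_succ]
      have h3 := abs_sub_le (∫ c, g (sh (fun j => if j < k + 1 then v j else 0) c) ∂muI)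
        (∫ c, g (sh (fun j => if j < k then v j else 0) c) ∂muI) (∫ c, g c ∂muI)
      linarith
  have h1 : (fun j => if j < k then v j else 0) = v := by
    ext j
    split_ifs with h
    · rfl
    · rw [hv j (not_lt.1 h)]
  have h2 := key k
  rwa [h1] at h2

lemma box_ae : ∀ᵐ c : ℕ → ℝ ∂muI, ∀ j, 0 < c j ∧ c j ≤ 1 := by
  rw [ae_all_iff]
  intro j
  have h1 := measurePreserving_eval_infinitePi (fun _ : ℕ => mu1) j
  have h2 : ∀ᵐ x ∂mu1, 0 < x ∧ x ≤ 1 := by
    rw [ae_restrict_iff' measurableSet_Ioc]
    exact Eventually.of_forall fun x hx => hx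
  exact h1.quasiMeasurePreserving.ae h2

end Pool.Agent.K9h18.AP
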