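import Pool.Agent.K9h18.AP.Mdl

set_option autoImplicit false

/-!
# One event against a function of the other parameters
-/

open Finset Filter Topology MeasureTheory

namespace Pool.Agent.K9h18.AP

open Pool.Agent.TH888.R (wt wt_nonneg wt_le_one)
open Pool.Agent.K9h18.HS (mu1 ind ind_nonneg ind_le_one kc kc_pos)

/-- the event for the exponent `p` -/
noncomputable def fa (e A : ℕ → ℕ) (p : ℕ) (c : ℕ → ℝ) : ℝ := FF e A p (yy p c)

lemma fa_meas (e A : ℕ → ℕ) (p : ℕ) : Measurable (fa e A p) := (FF_meas e A p).comp (yy_meas p)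

lemma fa_nonneg (e A : ℕ → ℕ) (p : ℕ) (c : ℕ → ℝ) : 0 ≤ fa e A p c := FF_nonneg _ _ _ _

lemma fa_le_one (e A : ℕ → ℕ) (p : ℕ) (c : ℕ → ℝ) : fa e A p c ≤ 1 := FF_le_one _ _ _ _

lemma fa_01 (e A : ℕ → ℕ) (p : ℕ) (c : ℕ → ℝ) : fa e A p c = 0 ∨ fa e A p c = 1 := by
  unfold fa FF ind
  split_ifs
  · exact Or.inr rfl
  · exact Or.inl rfl

lemma int_bd {g : (ℕ → ℝ) → ℝ} (hg : Measurable g) {B : ℝ} (hB : ∀ c, |g c| ≤ B) :
    Integrable g muI :=
  Integrable.of_bound hg.aestronglyMeasurable B (Eventually.of_forall hB)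

lemma box_Bx : ∀ᵐ c : ℕ → ℝ ∂muI, Bx c := box_ae

/-! ## The Lipschitz property in the mean -/

lemma fl_mo {x y : ℝ} (h : x ≤ y) : ((⌊x⌋ : ℤ) : ℝ) ≤ ((⌊y⌋ : ℤ) : ℝ) :=
  Int.cast_le.2 (Int.floor_mono h)

lemma fl_ii (a b : ℝ) : IntervalIntegrable (fun z : ℝ => ((⌊z⌋ : ℤ) : ℝ)) volume a b := by
  have h : Monotone (fun z : ℝ => ((⌊z⌋ : ℤ) : ℝ)) := fun x y hxy => fl_mo hxy
  exact h.intervalIntegrable

lemma fl_ii' (S a b : ℝ) : IntervalIntegrable (fun z : ℝ => ((⌊z + S⌋ : ℤ) : ℝ)) volume a b := by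
  have h : Monotone (fun z : ℝ => ((⌊z + S⌋ : ℤ) : ℝ)) := fun x y hxy => fl_mo (by linarith)
  exact h.intervalIntegrable

lemma fl_int (R : ℝ) {S : ℝ} (n : ℕ) :
    ∫ z in R..(R + n), (((⌊z + S⌋ : ℤ) : ℝ) - ((⌊z⌋ : ℤ) : ℝ)) = n * S := by
  have hS' := fl_ii' S R (R + n)
  rw [intervalIntegral.integral_sub hS' (fl_ii _ _)]
  rw [intervalIntegral.integral_comp_add_right (fun z : ℝ => ((⌊z⌋ : ℤ) : ℝ)) S]
  have e1 : ∫ z in (R + S)..(R + n + S), ((⌊z⌋ : ℤ) : ℝ) = (∫ z in (R + S)..R, ((⌊z⌋ : ℤ) : ℝ)) +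
      (∫ z in R..(R + n), ((⌊z⌋ : ℤ) : ℝ)) + ∫ z in (R + n)..(R + n + S), ((⌊z⌋ : ℤ) : ℝ) := by
    rw [intervalIntegral.integral_add_adjacent_intervals (fl_ii _ _) (fl_ii _ _),
      intervalIntegral.integral_add_adjacent_intervals (fl_ii _ _) (fl_ii _ _)]
  have e2 : ∫ z in (R + n)..(R + n + S), ((⌊z⌋ : ℤ) : ℝ) =
      ∫ z in R..(R + S), (((⌊z⌋ : ℤ) : ℝ) + n) := by
    have h1 := intervalIntegral.integral_comp_add_right (a := R) (b := R + S)
      (fun z : ℝ => ((⌊z⌋ : ℤ) : ℝ)) (n : ℝ)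
    rw [show R + n + S = R + S + n by ring, ← h1]
    congr 1
    ext z
    rw [Int.floor_add_natCast]
    push_cast
    ring
  rw [e1, e2, intervalIntegral.integral_add (fl_ii _ _) intervalIntegrable_const,
    intervalIntegral.integral_const, intervalIntegral.integral_symm R (R + S)]
  simp only [add_sub_cancel_left, smul_eq_mul]
  ring

lemma fl_ne (u : ℕ → ℝ) (hu : ∀ n, 0 ≤ u n ∧ u n ≤ 1) (x y : ℝ) :
    |u ⌊x⌋₊ - u ⌊y⌋₊| ≤ |((⌊x⌋ : ℤ) : ℝ) - ((⌊y⌋ : ℤ) : ℝ)| := by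
  by_cases h : ⌊x⌋ = ⌊y⌋
  · have h1 : ⌊x⌋₊ = ⌊y⌋₊ := by
      rw [← Int.floor_toNat, ← Int.floor_toNat, h]
    rw [h1, sub_self, abs_zero]
    exact abs_nonneg _
  · have h1 : (1 : ℝ) ≤ |((⌊x⌋ : ℤ) : ℝ) - ((⌊y⌋ : ℤ) : ℝ)| := by
      have h2 : (1 : ℤ) ≤ |⌊x⌋ - ⌊y⌋| := Int.one_le_abs (sub_ne_zero.2 h)
      exact_mod_cast h2
    refine le_trans ?_ h1
    have h2 := hu ⌊x⌋₊
    have h3 := hu ⌊y⌋₊
    rw [abs_le]
    constructor <;> linarith

lemma lip_step (u : ℕ → ℝ) (hu : ∀ n, 0 ≤ u n ∧ u n ≤ 1) (R S : ℝ) (n : ℕ) :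
    ∫ z in R..(R + n), |u ⌊z + S⌋₊ - u ⌊z⌋₊| ≤ n * |S| := by
  have hm : Measurable fun s : ℝ => u ⌊s⌋₊ := (measurable_from_top (f := u)).comp Nat.measurable_floor
  have hm2 : Measurable fun z : ℝ => |u ⌊z + S⌋₊ - u ⌊z⌋₊| :=
    ((hm.comp (measurable_id.add_const S)).sub hm).norm
  have hi : IntervalIntegrable (fun z : ℝ => |u ⌊z + S⌋₊ - u ⌊z⌋₊|) volume R (R + n) := by
    rw [intervalIntegrable_iff]
    refine Measure.integrableOn_of_bounded (M := 1) (by simp) hm2.aestronglyMeasurable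
      (Eventually.of_forall fun x => ?_)
    rw [Real.norm_eq_abs, abs_abs, abs_le]
    have h2 := hu ⌊x + S⌋₊
    have h3 := hu ⌊x⌋₊
    constructor <;> linarith
  have hS' := fl_ii' S R (R + n)
  have hn : (0 : ℝ) ≤ n := Nat.cast_nonneg n
  rcases le_total 0 S with hS | hS
  · rw [abs_of_nonneg hS, ← fl_int R n]
    refine intervalIntegral.integral_mono_on (by linarith) hi (hS'.sub (fl_ii _ _)) fun z _ => ?_
    have h1 := fl_ne u hu (z + S) z
    rwa [abs_of_nonneg (sub_nonneg.2 (fl_mo (by linarith) : ((⌊z⌋ : ℤ) : ℝ) ≤ ((⌊z + S⌋ : ℤ) : ℝ)))] at h1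
  · rw [abs_of_nonpos hS, mul_neg, ← fl_int R n, ← intervalIntegral.integral_neg]
    refine intervalIntegral.integral_mono_on (by linarith) hi (hS'.sub (fl_ii _ _)).neg fun z _ => ?_
    have h1 := fl_ne u hu (z + S) z
    rwa [abs_of_nonpos (sub_nonpos.2 (fl_mo (by linarith) : ((⌊z + S⌋ : ℤ) : ℝ) ≤ ((⌊z⌋ : ℤ) : ℝ)))] at h1

lemma lip_FF (e A : ℕ → ℕ) (p : ℕ) (r s : ℝ) :
    ∫ x, |FF e A p (x + r + s) - FF e A p (x + r)| ∂mu1 ≤ 2 ^ (e p) * |s| := by
  have h2e : (0 : ℝ) < 2 ^ (e p) := by positivity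
  set u : ℕ → ℝ := fun j => ind p (A p - j) with hu
  have h1 := intervalIntegral.integral_comp_mul_add (a := 0) (b := 1)
    (fun z : ℝ => |u ⌊z + 2 ^ (e p) * s⌋₊ - u ⌊z⌋₊|) (c := 2 ^ (e p)) h2e.ne' (2 ^ (e p) * r)
  have h2 : ∀ x : ℝ, |FF e A p (x + r + s) - FF e A p (x + r)| =
      |u ⌊2 ^ (e p) * x + 2 ^ (e p) * r + 2 ^ (e p) * s⌋₊ - u ⌊2 ^ (e p) * x + 2 ^ (e p) * r⌋₊| := by
    intro x
    unfold FF
    simp only [hu, mul_add]
  simp only [h2]
  have h3 : ∫ x, |u ⌊2 ^ (e p) * x + 2 ^ (e p) * r + 2 ^ (e p) * s⌋₊ -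
      u ⌊2 ^ (e p) * x + 2 ^ (e p) * r⌋₊| ∂mu1 = ∫ x in (0 : ℝ)..1,
      |u ⌊2 ^ (e p) * x + 2 ^ (e p) * r + 2 ^ (e p) * s⌋₊ - u ⌊2 ^ (e p) * x + 2 ^ (e p) * r⌋₊| := by
    rw [intervalIntegral.integral_of_le zero_le_one]
  rw [h3, h1, smul_eq_mul, mul_zero, zero_add, mul_one]
  have h4 := lip_step u (fun n => ⟨ind_nonneg _ _, ind_le_one _ _⟩) (2 ^ (e p) * r) (2 ^ (e p) * s)
    (2 ^ (e p))
  push_cast at h4
  rw [add_comm ((2 : ℝ) ^ (e p)) (2 ^ (e p) * r)]
  have h5 : ((2 : ℝ) ^ (e p))⁻¹ * (∫ z in (2 ^ (e p) * r)..(2 ^ (e p) * r + 2 ^ (e p)),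
      |u ⌊z + 2 ^ (e p) * s⌋₊ - u ⌊z⌋₊|) ≤ (2 ^ (e p))⁻¹ * (2 ^ (e p) * |2 ^ (e p) * s|) :=
    mul_le_mul_of_nonneg_left h4 (by positivity)
  refine h5.trans (le_of_eq ?_)
  rw [abs_mul, abs_of_pos h2e]
  field_simp

theorem fa_lip {e A : ℕ → ℕ} {p : ℕ} (hp : 2 ≤ p) {v : ℕ → ℝ} {k : ℕ} (hv : ∀ j, k ≤ j → v j = 0)
    (hv1 : ∑ j ∈ range k, |v j| ≤ 1) :
    ∫ c, |fa e A p (sh v c) - fa e A p c| ∂muI ≤ 2 ^ (e p) * ∑ j ∈ range k, |v j| := by
  set s := ∑ j ∈ range k, v j * (1 / (p : ℝ)) ^ j with hs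
  have hp0 : (2 : ℝ) ≤ p := by exact_mod_cast hp
  have hvj : ∀ j, |v j| ≤ 1 := fun j => (abs_le_l1 hv j).trans hv1
  have hs1 : |s| ≤ ∑ j ∈ range k, |v j| := by
    refine (Finset.abs_sum_le_sum_abs _ _).trans (Finset.sum_le_sum fun j _ => ?_)
    rw [abs_mul, abs_of_nonneg (by positivity : (0 : ℝ) ≤ (1 / (p : ℝ)) ^ j)]
    have h1 : (1 / (p : ℝ)) ^ j ≤ 1 := pow_le_one₀ (by positivity) (by
      rw [div_le_one (by linarith)]
      linarith)
    calc |v j| * (1 / (p : ℝ)) ^ j ≤ |v j| * 1 := mul_le_mul_of_nonneg_left h1 (abs_nonneg _)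
      _ = _ := mul_one _
  set H : (ℕ → ℝ) → ℝ := fun c => |FF e A p (yy p c + s) - FF e A p (yy p c)| with hH
  have hHm : Measurable H := (((FF_meas e A p).comp ((yy_meas p).add_const s)).sub
    ((FF_meas e A p).comp (yy_meas p))).norm
  have hHb : ∀ c, |H c| ≤ 1 := by
    intro c
    simp only [hH, abs_abs]
    have h1 := FF_nonneg e A p (yy p c + s)
    have h2 := FF_le_one e A p (yy p c + s)
    have h3 := FF_nonneg e A p (yy p c)
    have h4 := FF_le_one e A p (yy p c)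
    rw [abs_le]
    constructor <;> linarith
  have e1 : ∫ c, |fa e A p (sh v c) - fa e A p c| ∂muI = ∫ c, H c ∂muI := by
    refine integral_congr_ae ?_
    filter_upwards [box_Bx] with c hc
    simp only [hH, fa]
    rw [yy_sh hp hc hv hvj]
  rw [e1, int_resample 0 hHm hHb]
  have h1 : ∀ᵐ c ∂muI, ∫ x, H (Function.update c 0 x) ∂mu1 ≤ 2 ^ (e p) * |s| := by
    filter_upwards [box_Bx] with c hc
    have h2 : ∫ x, H (Function.update c 0 x) ∂mu1 =
        ∫ x, |FF e A p (x + (yy p c - c 0) + s) - FF e A p (x + (yy p c - c 0))| ∂mu1 := by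
      refine setIntegral_congr_fun measurableSet_Ioc fun x hx => ?_
      simp only [hH]
      have h3 : Function.update c 0 x = sh (fun j => if j = 0 then x - c 0 else 0) c := by
        ext j
        unfold sh
        by_cases hj : j = 0
        · subst hj
          simp
        · rw [Function.update_of_ne hj]
          simp [hj]
      have h4 : yy p (Function.update c 0 x) = x + (yy p c - c 0) := by
        have hc0 := hc 0
        rw [h3, yy_sh hp hc (k := 1) (fun j hj => by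
          have : j ≠ 0 := by omega
          simp [this]) (fun j => by
          by_cases hj : j = 0
          · simp only [hj, if_true]
            rw [abs_le]
            constructor <;> linarith [hx.1, hx.2]
          · simp [hj])]
        simp
        ring
      rw [h4]
    rw [h2]
    exact lip_FF e A p _ s
  have h2 : ∫ c, (∫ x, H (Function.update c 0 x) ∂mu1) ∂muI ≤ ∫ _c, 2 ^ (e p) * |s| ∂muI := by
    refine integral_mono_ae ?_ (integrable_const _) h1
    have h3 : Measurable (fun z : (ℕ → ℝ) × ℝ => H (Function.update z.1 0 z.2)) :=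
      hHm.comp (meas_upd 0)
    have h4 : Measurable (fun c : ℕ → ℝ => ∫ x, H (Function.update c 0 x) ∂mu1) :=
      (h3.stronglyMeasurable.integral_prod_right (ν := mu1)).measurable
    refine int_bd h4 (B := 1) fun c => ?_
    have := norm_integral_le_of_norm_le_const (μ := mu1) (f := fun x => H (Function.update c 0 x))
      (C := 1) (Eventually.of_forall fun x => hHb _)
    simpa using this
  refine h2.trans ?_
  rw [integral_const]
  simp only [probReal_univ, smul_eq_mul, one_mul]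
  exact mul_le_mul_of_nonneg_left hs1 (by positivity)

/-! ## One event -/

/-- **Decorrelation of one event.** -/
theorem one_step (hPV : Pool.Agent.N176.OW.S_PV) {η : ℝ} {e A : ℕ → ℕ} (hM : Md η e A) :
    ∃ K : ℝ, 0 < K ∧ ∃ P : ℕ, ∀ p ≥ P, ∀ (v : ℕ → ℝ) (k : ℕ), (∀ j, k ≤ j → v j = 0) →
      ∑ j ∈ range k, v j * (1 / (p : ℝ)) ^ j = 1 → hh η p * ∑ j ∈ range k, |v j| ≤ 1 →
      ∀ (Ψ : (ℕ → ℝ) → ℝ) (B ρ : ℝ), Measurable Ψ → (∀ c, 0 ≤ Ψ c ∧ Ψ c ≤ B) →
      (∀ t : ℝ, 0 ≤ t → t ≤ hh η p → ∫ c, |Ψ (sh (fun j => t * v j) c) - Ψ c| ∂muI ≤ ρ) →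
      |∫ c, Ψ c * fa e A p c ∂muI - kc * wt p * ∫ c, Ψ c ∂muI| ≤
        K / p * ∫ c, Ψ c ∂muI + ρ + 2 * (hh η p * ∑ j ∈ range k, |v j|) * B := by
  obtain ⟨K, hK, P, hwin⟩ := win_mean hPV hM
  refine ⟨K, hK, P + 3, fun p hp v k hv hv1 hvh Ψ B ρ hΨ hΨB hρ => ?_⟩
  set h := hh η p with hh'
  have hh0 : 0 < h := hh_pos η p
  have hB0 : 0 ≤ B := (hΨB 0).1.trans (hΨB 0).2
  have hp0 : (0 : ℝ) < p := by exact_mod_cast (by omega : 0 < p)
  have hΨa : ∀ c, |Ψ c| ≤ B := fun c => by rw [abs_of_nonneg (hΨB c).1]; exact (hΨB c).2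
  have hΨi : Integrable Ψ muI := int_bd hΨ hΨa
  set I := ∫ c, Ψ c * fa e A p c ∂muI with hI
  set D : ℝ → ℝ := fun t => ∫ c, Ψ c * FF e A p (yy p c + t) ∂muI with hD
  set E := ρ + 2 * (h * ∑ j ∈ range k, |v j|) * B with hE
  have hprodm : Measurable fun z : (ℕ → ℝ) × ℝ => Ψ z.1 * FF e A p (yy p z.1 + z.2) :=
    (hΨ.comp measurable_fst).mul ((FF_meas e A p).comp (((yy_meas p).comp measurable_fst).add
      measurable_snd))
  have hprodb : ∀ z : (ℕ → ℝ) × ℝ, |Ψ z.1 * FF e A p (yy p z.1 + z.2)| ≤ B := by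
    intro z
    rw [abs_mul, abs_of_nonneg (FF_nonneg _ _ _ _)]
    calc |Ψ z.1| * FF e A p (yy p z.1 + z.2) ≤ B * 1 :=
          mul_le_mul (hΨa _) (FF_le_one _ _ _ _) (FF_nonneg _ _ _ _) hB0
      _ = B := mul_one B
  have hmt : ∀ t : ℝ, Measurable fun c : ℕ → ℝ => Ψ c * FF e A p (yy p c + t) := fun t =>
    hΨ.mul ((FF_meas e A p).comp ((yy_meas p).add_const t))
  -- one shift
  have hDI : ∀ t : ℝ, 0 ≤ t → t ≤ h → |D t - I| ≤ E := by
    intro t ht0 hth
    set w : ℕ → ℝ := fun j => t * v j with hw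
    have hwk : ∀ j, k ≤ j → w j = 0 := fun j hj => by simp only [hw, hv j hj, mul_zero]
    have hwl : ∑ j ∈ range k, |w j| = t * ∑ j ∈ range k, |v j| := by
      rw [Finset.mul_sum]
      refine Finset.sum_congr rfl fun j _ => ?_
      simp only [hw]
      rw [abs_mul, abs_of_nonneg ht0]
    have hl0 : 0 ≤ ∑ j ∈ range k, |v j| := Finset.sum_nonneg fun j _ => abs_nonneg _
    have hwl2 : ∑ j ∈ range k, |w j| ≤ h * ∑ j ∈ range k, |v j| := by
      rw [hwl]
      exact mul_le_mul_of_nonneg_right hth hl0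
    have hwj : ∀ j, |w j| ≤ 1 := fun j => (abs_le_l1 hwk j).trans (hwl2.trans hvh)
    have h1 := shift_le (g := fun c => Ψ c * fa e A p c) (hΨ.mul (fa_meas e A p)) (B := B) (fun c => by
      rw [abs_mul, abs_of_nonneg (fa_nonneg _ _ _ _)]
      calc |Ψ c| * fa e A p c ≤ B * 1 := mul_le_mul (hΨa c) (fa_le_one _ _ _ _) (fa_nonneg _ _ _ _) hB0
        _ = B := mul_one B) hwk
    have h2 : ∫ c, Ψ (sh w c) * fa e A p (sh w c) ∂muI =
        ∫ c, Ψ (sh w c) * FF e A p (yy p c + t) ∂muI := by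
      refine integral_congr_ae ?_
      filter_upwards [box_Bx] with c hc
      unfold fa
      have h3 : yy p (sh w c) = yy p c + t := by
        rw [yy_sh (by omega) hc hwk hwj]
        congr 1
        have h4 : ∀ j, w j * (1 / (p : ℝ)) ^ j = t * (v j * (1 / (p : ℝ)) ^ j) := fun j => by
          simp only [hw]
          ring
        simp only [h4]
        rw [← Finset.mul_sum, hv1, mul_one]
      rw [h3]
    rw [h2] at h1
    have i1 : Integrable (fun c => Ψ (sh w c) * FF e A p (yy p c + t)) muI := by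
      refine int_bd ((hΨ.comp (sh_meas w)).mul ((FF_meas e A p).comp ((yy_meas p).add_const t)))
        (B := B) fun c => ?_
      rw [abs_mul, abs_of_nonneg (FF_nonneg _ _ _ _)]
      calc |Ψ (sh w c)| * FF e A p (yy p c + t) ≤ B * 1 :=
            mul_le_mul (hΨa _) (FF_le_one _ _ _ _) (FF_nonneg _ _ _ _) hB0
        _ = B := mul_one B
    have i2 : Integrable (fun c => Ψ c * FF e A p (yy p c + t)) muI :=
      int_bd (hmt t) (B := B) fun c => hprodb (c, t)
    have h3 : |D t - ∫ c, Ψ (sh w c) * FF e A p (yy p c + t) ∂muI| ≤ ρ := by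
      refine le_trans ?_ (hρ t ht0 hth)
      rw [hD, ← integral_sub i2 i1]
      refine (abs_integral_le_integral_abs).trans ?_
      refine integral_mono_of_nonneg (Eventually.of_forall fun c => abs_nonneg _) ?_
        (Eventually.of_forall fun c => ?_)
      · refine int_bd ((hΨ.comp (sh_meas w)).sub hΨ).norm (B := 2 * B) fun c => ?_
        rw [abs_abs]
        have h4 := abs_sub (Ψ (sh w c)) (Ψ c)
        have h5 := hΨa (sh w c)
        have h6 := hΨa c
        have h7 : |(fun x => ((Ψ ∘ sh w) x - Ψ x)) c| ≤ |Ψ (sh w c)| + |Ψ c| := h4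
        linarith
      · simp only
        rw [← sub_mul, abs_mul, abs_of_nonneg (FF_nonneg _ _ _ _), abs_sub_comm]
        calc |Ψ (sh w c) - Ψ c| * FF e A p (yy p c + t) ≤ |Ψ (sh w c) - Ψ c| * 1 :=
              mul_le_mul_of_nonneg_left (FF_le_one _ _ _ _) (abs_nonneg _)
          _ = _ := mul_one _
    have h4 := abs_sub_le (D t) (∫ c, Ψ (sh w c) * FF e A p (yy p c + t) ∂muI) I
    have h5 : 2 * (∑ j ∈ range k, |w j|) * B ≤ 2 * (h * ∑ j ∈ range k, |v j|) * B := by gcongr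
    linarith
  -- the mean over the shifts
  have hDm : Measurable D := by
    have h1 : Measurable fun z : ℝ × (ℕ → ℝ) => Ψ z.2 * FF e A p (yy p z.2 + z.1) :=
      hprodm.comp measurable_swap
    exact (h1.stronglyMeasurable.integral_prod_right (ν := muI)).measurable
  have hDb : ∀ t, |D t| ≤ B := by
    intro t
    have := norm_integral_le_of_norm_le_const (μ := muI) (f := fun c => Ψ c * FF e A p (yy p c + t))
      (C := B) (Eventually.of_forall fun c => hprodb (c, t))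
    simpa using this
  have hDii : IntervalIntegrable D volume 0 h := by
    rw [intervalIntegrable_iff]
    exact Measure.integrableOn_of_bounded (M := B) (by simp) hDm.aestronglyMeasurable
      (Eventually.of_forall hDb)
  have h1 : |(∫ t in (0 : ℝ)..h, D t) - h * I| ≤ h * E := by
    have h2 : (∫ t in (0 : ℝ)..h, D t) - h * I = ∫ t in (0 : ℝ)..h, (D t - I) := by
      rw [intervalIntegral.integral_sub hDii intervalIntegrable_const, intervalIntegral.integral_const]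
      simp
    rw [h2]
    have h3 := intervalIntegral.norm_integral_le_of_norm_le_const (a := 0) (b := h)
      (f := fun t => D t - I) (C := E) (fun t ht => by
        rw [Set.uIoc_of_le hh0.le] at ht
        exact hDI t ht.1.le ht.2)
    rw [sub_zero, abs_of_pos hh0] at h3
    rw [mul_comm h E]
    exact h3
  -- Fubini
  have h2 : ∫ t in (0 : ℝ)..h, D t = ∫ c, Ψ c * (∫ t in (0 : ℝ)..h, FF e A p (yy p c + t)) ∂muI := by
    rw [intervalIntegral.integral_of_le hh0.le]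
    simp only [hD]
    rw [integral_integral_swap]
    · refine integral_congr_ae (Eventually.of_forall fun c => ?_)
      simp only
      rw [intervalIntegral.integral_of_le hh0.le, integral_const_mul]
    · refine Integrable.of_bound (hprodm.comp measurable_swap).aestronglyMeasurable B
        (Eventually.of_forall fun z => hprodb (z.2, z.1))
  have hFFm : Measurable fun c : ℕ → ℝ => ∫ t in (0 : ℝ)..h, FF e A p (yy p c + t) := by
    have h3 : Measurable fun z : (ℕ → ℝ) × ℝ => FF e A p (yy p z.1 + z.2) :=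
      (FF_meas e A p).comp (((yy_meas p).comp measurable_fst).add measurable_snd)
    simp only [intervalIntegral.integral_of_le hh0.le]
    exact (h3.stronglyMeasurable.integral_prod_right (ν := volume.restrict (Set.Ioc 0 h))).measurable
  have hFFb : ∀ c : ℕ → ℝ, |∫ t in (0 : ℝ)..h, FF e A p (yy p c + t)| ≤ h := by
    intro c
    have h3 := intervalIntegral.norm_integral_le_of_norm_le_const (a := 0) (b := h)
      (f := fun t => FF e A p (yy p c + t)) (C := 1) (fun t _ => by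
        rw [Real.norm_of_nonneg (FF_nonneg _ _ _ _)]
        exact FF_le_one _ _ _ _)
    rw [sub_zero, abs_of_pos hh0, one_mul] at h3
    exact h3
  have i3 : Integrable (fun c => Ψ c * (∫ t in (0 : ℝ)..h, FF e A p (yy p c + t))) muI := by
    refine int_bd (hΨ.mul hFFm) (B := B * h) fun c => ?_
    rw [abs_mul]
    exact mul_le_mul (hΨa c) (hFFb c) (abs_nonneg _) hB0
  have h3 : |∫ c, Ψ c * (∫ t in (0 : ℝ)..h, FF e A p (yy p c + t)) ∂muI -
      h * (kc * wt p * ∫ c, Ψ c ∂muI)| ≤ h * (K / p * ∫ c, Ψ c ∂muI) := by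
    have e1 : h * (kc * wt p * ∫ c, Ψ c ∂muI) = ∫ c, Ψ c * (h * (kc * wt p)) ∂muI := by
      rw [integral_mul_const]
      ring
    have e2 : h * (K / p * ∫ c, Ψ c ∂muI) = ∫ c, Ψ c * (h * (K / p)) ∂muI := by
      rw [integral_mul_const]
      ring
    rw [e1, e2, ← integral_sub i3 (hΨi.mul_const _)]
    refine (abs_integral_le_integral_abs).trans ?_
    refine integral_mono_ae ?_ (hΨi.mul_const _) ?_
    · exact (i3.sub (hΨi.mul_const _)).abs
    · filter_upwards [box_Bx] with c hc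
      rw [← mul_sub, abs_mul, abs_of_nonneg (hΨB c).1]
      apply mul_le_mul_of_nonneg_left _ (hΨB c).1
      exact hwin p (by omega) (yy p c) (yy_nonneg (by omega) hc) (yy_le (by omega) hc)
  rw [h2] at h1
  have h4 := abs_sub_le (h * I) (∫ c, Ψ c * (∫ t in (0 : ℝ)..h, FF e A p (yy p c + t)) ∂muI)
    (h * (kc * wt p * ∫ c, Ψ c ∂muI))
  rw [abs_sub_comm] at h1
  have h5 : |h * I - h * (kc * wt p * ∫ c, Ψ c ∂muI)| ≤ h * (E + K / p * ∫ c, Ψ c ∂muI) := by
    rw [mul_add]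
    linarith
  rw [← mul_sub, abs_mul, abs_of_pos hh0] at h5
  have h6 := le_of_mul_le_mul_left h5 hh0
  linarith

end Pool.Agent.K9h18.AP
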