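import Pool.Agent.K9h18.AP.Avg
import Pool.Agent.K9h18.HS.Wnd

set_option autoImplicit false

/-!
# Windows on the scale of the weight of a set of primes
-/

open Finset Filter Topology MeasureTheory

namespace Pool.Agent.K9h18.AP

open Pool.Agent.TH888.R (wt wt_nonneg wt_le_one VS VS_mono VS_nonneg VS_univ_bound)
open Pool.Agent.K9h18.HS (mu1 ind kc kc_pos wt_tendsto Nx win wn bk VS_zero VS_succ VS_step mass_Ioc
  log_ge_one)

section

variable {S : Set ℕ} (hS : Tendsto (VS S) atTop atTop)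
include hS

lemma Nx_spec' (x : ℝ) : x < VS S (Nx S x) := by
  have h : {n : ℕ | x < VS S n}.Nonempty := (hS.eventually_gt_atTop x).exists
  exact Nat.sInf_mem h

lemma lt_Nx' {x : ℝ} {n : ℕ} : n < Nx S x ↔ VS S n ≤ x := by
  constructor
  · intro h
    by_contra h1
    exact absurd (Nat.sInf_le (show n ∈ {n : ℕ | x < VS S n} from not_le.1 h1)) (not_le.2 h)
  · intro h
    by_contra h1
    have h2 := VS_mono S (not_lt.1 h1)
    have h3 := Nx_spec' hS x
    linarith

lemma mem_win' {x y : ℝ} {p : ℕ} : p ∈ win S x y ↔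
    p.Prime ∧ p ∈ S ∧ x < VS S p ∧ VS S p ≤ y := by
  classical
  unfold win
  rw [mem_filter, mem_Ico]
  have h1 : Nx S x ≤ p ↔ x < VS S p := by
    rw [← not_lt, lt_Nx' hS, not_le]
  rw [h1, lt_Nx' hS]
  tauto

lemma Nx_pos' {x : ℝ} (hx : 0 ≤ x) : 1 ≤ Nx S x := by
  have : 0 < Nx S x := (lt_Nx' hS).2 (by rw [VS_zero]; exact hx)
  omega

lemma Nx_mono' {x y : ℝ} (hxy : x ≤ y) : Nx S x ≤ Nx S y := by
  by_contra h
  have h1 := (lt_Nx' hS).1 (not_le.1 h)
  have h2 := Nx_spec' hS y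
  linarith

lemma mass_win' {x y : ℝ} (hx : 0 ≤ x) (hxy : x ≤ y) :
    |∑ p ∈ win S x y, wt p - (y - x)| ≤ wt (Nx S x) + wt (Nx S y) := by
  obtain ⟨a, ha⟩ := Nat.exists_eq_add_of_le' (Nx_pos' hS hx)
  obtain ⟨b, hb⟩ := Nat.exists_eq_add_of_le' (Nx_pos' hS (hx.trans hxy))
  have hab : a ≤ b := by
    have := Nx_mono' hS hxy
    omega
  have h1 : VS S a ≤ x := (lt_Nx' hS).1 (by omega)
  have h2 : VS S b ≤ y := (lt_Nx' hS).1 (by omega)
  have h3 := Nx_spec' hS x
  have h4 := Nx_spec' hS y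
  rw [ha] at h3
  rw [hb] at h4
  have h5 := VS_step S a
  have h6 := VS_step S b
  have h7 := mass_Ioc S a b hab
  have h8 : ∑ p ∈ win S x y, wt p = VS S b - VS S a := by
    rw [← h7]
    unfold win
    rw [ha, hb]
  rw [h8, ha, hb, abs_le]
  constructor <;> linarith

lemma Nx_top' : Tendsto (fun x : ℝ => Nx S x) atTop atTop := by
  rw [tendsto_atTop_atTop]
  intro n
  refine ⟨VS S n, fun x hx => ?_⟩
  exact ((lt_Nx' hS).2 hx).le

lemma mass_lim' {L : ℝ} (hL : 0 < L) (i : ℕ) :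
    Tendsto (fun m : ℕ => ∑ p ∈ win S (((m + i : ℕ) : ℝ) * L) (((m + i : ℕ) : ℝ) * L + L), wt p)
      atTop (𝓝 L) := by
  have h1 : Tendsto (fun m : ℕ => ((m + i : ℕ) : ℝ) * L) atTop atTop :=
    (tendsto_natCast_atTop_atTop.comp (tendsto_add_atTop_nat i)).atTop_mul_const hL
  have h2 : Tendsto (fun m : ℕ => ((m + i : ℕ) : ℝ) * L + L) atTop atTop :=
    tendsto_atTop_add_const_right _ _ h1
  have h3 : Tendsto (fun m : ℕ => wt (Nx S (((m + i : ℕ) : ℝ) * L))) atTop (𝓝 0) :=
    wt_tendsto.comp ((Nx_top' hS).comp h1)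
  have h4 : Tendsto (fun m : ℕ => wt (Nx S (((m + i : ℕ) : ℝ) * L + L))) atTop (𝓝 0) :=
    wt_tendsto.comp ((Nx_top' hS).comp h2)
  have h5 := h3.add h4
  rw [add_zero] at h5
  rw [tendsto_iff_norm_sub_tendsto_zero]
  refine squeeze_zero (fun _ => norm_nonneg _) (fun m => ?_) h5
  have h6 := mass_win' hS (x := ((m + i : ℕ) : ℝ) * L) (y := ((m + i : ℕ) : ℝ) * L + L)
    (by positivity) (by linarith)
  rw [Real.norm_eq_abs]
  have e : ((m + i : ℕ) : ℝ) * L + L - ((m + i : ℕ) : ℝ) * L = L := by ring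
  rwa [e] at h6

lemma mem_wn' {L : ℝ} {m p : ℕ} : p ∈ wn S L m ↔
    p.Prime ∧ p ∈ S ∧ m * L < VS S p ∧ VS S p ≤ m * L + L := mem_win' hS

lemma bk_eq' {L : ℝ} (hL : 0 < L) {m p : ℕ} (h : p ∈ wn S L m) : bk S L p = m := by
  rw [mem_wn' hS] at h
  obtain ⟨-, -, h1, h2⟩ := h
  have h3 : ⌈VS S p / L⌉₊ = m + 1 := by
    rw [Nat.ceil_eq_iff (by omega)]
    constructor
    · rw [lt_div_iff₀ hL]
      simpa using h1
    · rw [div_le_iff₀ hL]
      push_cast
      linarith
  unfold bk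
  omega

end

lemma VS_inc : ∃ C : ℝ, 0 ≤ C ∧ (∀ (S : Set ℕ) (p q : ℕ), 1 ≤ p → p ≤ q →
    VS S q - VS S p ≤ Real.log q - Real.log p + C) ∧ ∀ (S : Set ℕ) (p : ℕ), 1 ≤ p →
    VS S p ≤ Real.log p + C := by
  classical
  obtain ⟨C, hC0, hC⟩ := VS_univ_bound
  have key : ∀ (S : Set ℕ) (p q : ℕ), p ≤ q → VS S q - VS S p ≤ VS Set.univ q - VS Set.univ p := by
    intro S p q hpq
    rw [← mass_Ioc S p q hpq]
    refine le_trans ?_ (mass_Ioc Set.univ p q hpq).le
    apply Finset.sum_le_sum_of_subset_of_nonneg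
    · intro r hr
      simp only [Finset.mem_filter] at hr ⊢
      exact ⟨hr.1, hr.2.1, Set.mem_univ _⟩
    · intro r _ _
      exact wt_nonneg r
  refine ⟨2 * C, by positivity, fun S p q hp hpq => ?_, fun S p hp => ?_⟩
  · have h1 := abs_le.1 (hC p hp)
    have h2 := abs_le.1 (hC q (hp.trans hpq))
    have h3 := key S p q hpq
    linarith
  · have h1 := abs_le.1 (hC p hp)
    have h2 := key S 0 p (Nat.zero_le _)
    rw [VS_zero, VS_zero] at h2
    linarith

open Classical in
/-- **The averages of the generating functions of the numbers of exponents in consecutive windows.** -/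
theorem wn_avg' (hPV : Pool.Agent.N176.OW.S_PV) {η : ℝ} {e A : ℕ → ℕ} (hM : Md η e A)
    {S : Set ℕ} (hS : Tendsto (VS S) atTop atTop)
    {L : ℝ} (hL : 0 < L) (r : ℕ) (s : ℕ → ℝ) (hs : ∀ i, 0 ≤ s i ∧ s i ≤ 1) :
    ∀ᵐ c ∂muI, Tendsto (fun M : ℕ => (∑ m ∈ range M, ∏ i ∈ range (r + 1),
      s i ^ ((wn S L (m + i)).filter (fun p => fa e A p c = 1)).card) / M) atTop
      (𝓝 (∏ i ∈ range (r + 1), Real.exp (-(kc * L * (1 - s i))))) := by
  have hη := hM.pos
  set T : ℕ → Finset ℕ := fun m => (range (r + 1)).biUnion fun i => wn S L (m + i) with hT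
  set y : ℕ → ℕ → ℝ := fun m p => 1 - s (bk S L p - m) with hy
  have hTm : ∀ m p, p ∈ T m → p.Prime ∧ p ∈ S ∧ m * L < VS S p ∧ VS S p ≤ (m + r + 1) * L := by
    intro m p hp
    simp only [hT] at hp
    rw [mem_biUnion] at hp
    obtain ⟨i, hi, hp⟩ := hp
    rw [mem_range] at hi
    rw [mem_wn' hS] at hp
    obtain ⟨h1, h2, h3, h4⟩ := hp
    push_cast at h3 h4
    have hi0 : (0 : ℝ) ≤ i := by positivity
    have hir : (i : ℝ) ≤ r := by exact_mod_cast (by omega : i ≤ r)
    refine ⟨h1, h2, ?_, ?_⟩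
    · have : (m : ℝ) * L ≤ (m + i) * L := mul_le_mul_of_nonneg_right (by linarith) hL.le
      linarith
    · have : ((m : ℝ) + i + 1) * L ≤ (m + r + 1) * L := mul_le_mul_of_nonneg_right (by linarith) hL.le
      linarith
  have hdisj : ∀ m : ℕ, Set.PairwiseDisjoint ((range (r + 1) : Finset ℕ) : Set ℕ)
      (fun i => wn S L (m + i)) := by
    intro m i _ j _ hij
    rw [Function.onFun, Finset.disjoint_left]
    intro p hp hp'
    have h1 := bk_eq' hS hL hp
    have h2 := bk_eq' hS hL hp'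
    omega
  have hbig : ∀ N : ℕ, ∀ᶠ m in atTop, ∀ p ∈ T m, N ≤ p := by
    intro N
    have h1 : Tendsto (fun m : ℕ => (m : ℝ) * L) atTop atTop :=
      tendsto_natCast_atTop_atTop.atTop_mul_const hL
    filter_upwards [h1.eventually_ge_atTop (VS S N)] with m hm p hp
    by_contra h2
    have h3 := VS_mono S (not_le.1 h2).le
    have h4 := (hTm m p hp).2.2.1
    linarith
  have hmass : ∀ m : ℕ, ∑ p ∈ wn S L m, wt p ≤ L + 2 := by
    intro m
    have h1 := (abs_le.1 (mass_win' hS (x := m * L) (y := m * L + L) (by positivity) (by linarith))).2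
    have h2 := wt_le_one (Nx S (m * L))
    have h3 := wt_le_one (Nx S (m * L + L))
    unfold wn
    linarith
  have hcov : ∀ m, ∀ i ∈ range (r + 1), ∀ p ∈ wn S L (m + i), y m p = 1 - s i := by
    intro m i _ p hp
    simp only [hy]
    rw [bk_eq' hS hL hp]
    congr 2
    omega
  obtain ⟨C, hC0, hinc, hup⟩ := VS_inc
  set R := r + 1 + ⌈(Real.log (8 / η) + C + 1) / L⌉₊ + 1 with hR
  have hRL : Real.log (8 / η) + C + 1 ≤ ((R : ℝ) - (r + 1)) * L := by
    rw [hR]
    push_cast
    have h1 : (Real.log (8 / η) + C + 1) / L ≤ (⌈(Real.log (8 / η) + C + 1) / L⌉₊ : ℝ) := Nat.le_ceil _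
    rw [div_le_iff₀ hL] at h1
    have h2 : ((r : ℝ) + 1 + ⌈(Real.log (8 / η) + C + 1) / L⌉₊ + 1 - (r + 1)) * L =
        ⌈(Real.log (8 / η) + C + 1) / L⌉₊ * L + L := by ring
    rw [h2]
    linarith
  have key := win_avg hPV hM (T := T) (y := y)
    (Λ := ∑ i ∈ range (r + 1), (1 - s i) * L) (L := ∑ i ∈ range (r + 1), (L + 2)) (R := R)
    (C := (1 + C) / L) (m1 := 0)
    (fun m q => ⟨by simp only [hy]; linarith [(hs (bk S L q - m)).2],
      by simp only [hy]; linarith [(hs (bk S L q - m)).1]⟩)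
    (fun m p hp => (hTm m p hp).1.two_le)
    hbig
    (fun m => by
      simp only [hT]
      rw [Finset.sum_biUnion (hdisj m)]
      exact Finset.sum_le_sum fun i _ => hmass _)
    (by
      have h1 : ∀ m, ∑ q ∈ T m, y m q * wt q =
          ∑ i ∈ range (r + 1), (1 - s i) * ∑ q ∈ wn S L (m + i), wt q := by
        intro m
        simp only [hT]
        rw [Finset.sum_biUnion (hdisj m)]
        refine Finset.sum_congr rfl fun i hi => ?_
        rw [Finset.mul_sum]
        refine Finset.sum_congr rfl fun p hp => ?_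
        rw [hcov m i hi p hp]
      simp only [h1]
      refine tendsto_finsetSum _ fun i _ => ?_
      exact (mass_lim' hS hL i).const_mul _)
    (by omega) (by positivity)
    (fun m _ m' hmm p hp q hq => by
      by_contra h1
      rw [not_le] at h1
      obtain ⟨hpp, -, -, h2⟩ := hTm m' p hp
      obtain ⟨hqp, -, h3, -⟩ := hTm m q hq
      have h8 : ((m' : ℝ) + R) * L ≤ m * L := by
        apply mul_le_mul_of_nonneg_right _ hL.le
        exact_mod_cast hmm
      have h9 : Real.log (8 / η) + C + 1 ≤ VS S q - VS S p := by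
        have : ((m' : ℝ) + R) * L = (m' + r + 1) * L + (R - (r + 1)) * L := by ring
        linarith
      have h8η : 0 ≤ Real.log (8 / η) := Real.log_nonneg (by
        rw [le_div_iff₀ hη]
        have := hM.lt
        linarith)
      have hpq : p ≤ q := by
        by_contra h10
        have := VS_mono S (not_le.1 h10).le
        linarith
      have h10 := hinc S p q hpp.one_lt.le hpq
      have hp0 : (0 : ℝ) < p := by exact_mod_cast hpp.pos
      have hq0 : (0 : ℝ) < q := by exact_mod_cast hqp.pos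
      -- `log q - log p < log (8 / η)`
      have h11 : Real.log q - Real.log p ≤ Real.log (8 / η) := by
        rw [← Real.log_div hq0.ne' hp0.ne']
        apply Real.log_le_log (by positivity)
        rw [div_le_div_iff₀ hp0 hη]
        nlinarith
      linarith)
    (fun m _ p hp => by
      obtain ⟨hpp, -, h2, -⟩ := hTm m p hp
      have h3 := hup S p hpp.one_lt.le
      have hlp : 0 ≤ Real.log p := Real.log_natCast_nonneg p
      rw [div_mul_eq_mul_div, le_div_iff₀ hL]
      nlinarith)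
  have hlim : Real.exp (-(kc * ∑ i ∈ range (r + 1), (1 - s i) * L)) =
      ∏ i ∈ range (r + 1), Real.exp (-(kc * L * (1 - s i))) := by
    rw [← Real.exp_sum]
    congr 1
    rw [Finset.mul_sum, ← Finset.sum_neg_distrib]
    exact Finset.sum_congr rfl fun i _ => by ring
  rw [hlim] at key
  filter_upwards [key] with c hc
  refine hc.congr fun M => ?_
  congr 1
  refine Finset.sum_congr rfl fun m _ => ?_
  unfold GA
  simp only [hT]
  rw [Finset.prod_biUnion (hdisj m)]
  refine Finset.prod_congr rfl fun i hi => ?_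
  rw [← Finset.prod_const, Finset.prod_filter]
  refine Finset.prod_congr rfl fun p hp => ?_
  rw [hcov m i hi p hp]
  rcases fa_01 e A p c with h1 | h1
  · rw [h1, if_neg (by norm_num)]
    ring
  · rw [h1, if_pos rfl]
    ring

end Pool.Agent.K9h18.AP
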